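import Pool.Agent.P.MP_9321be_ag.Cells

/-!
Constructible functions, maps and sets on finite-dimensional complex vector spaces.
-/

namespace Pool.Agent.P.MP_9321be_ag

open MvPolynomial Set

section Calculus

variable {E E' E'' : Type} [AddCommGroup E] [Module ℂ E] [AddCommGroup E'] [Module ℂ E']
  [AddCommGroup E''] [Module ℂ E'']

/-- Functions built from linear forms by the field operations. -/
inductive CF : (E → ℂ) → Prop
  | const (c : ℂ) : CF fun _ => c
  | lin (l : E →ₗ[ℂ] ℂ) : CF fun x => l x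
  | add {f g : E → ℂ} : CF f → CF g → CF fun x => f x + g x
  | mul {f g : E → ℂ} : CF f → CF g → CF fun x => f x * g x
  | inv {f : E → ℂ} : CF f → CF fun x => (f x)⁻¹

/-- Constructible maps. -/
def CFM (φ : E → E') : Prop := ∀ l : E' →ₗ[ℂ] ℂ, CF fun x => l (φ x)

/-- Constructible sets. -/
def Cons (C : Set E) : Prop := ∃ h, CF h ∧ C = {x | h x = 0}

theorem CF.comp {h : E' → ℂ} (hh : CF h) {φ : E → E'} (hφ : CFM φ) : CF fun x => h (φ x) := by
  induction hh with
  | const c => exact .const c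
  | lin l => exact hφ l
  | add _ _ h1 h2 => exact h1.add h2
  | mul _ _ h1 h2 => exact h1.mul h2
  | inv _ h1 => exact h1.inv

theorem CF.neg {f : E → ℂ} (h : CF f) : CF fun x => - f x := by
  simpa using (CF.const (-1)).mul h

theorem CF.sub {f g : E → ℂ} (h : CF f) (h' : CF g) : CF fun x => f x - g x := by
  simpa [sub_eq_add_neg] using h.add h'.neg

theorem CF.sum {α : Type*} (s : Finset α) {f : α → E → ℂ} (h : ∀ a ∈ s, CF (f a)) :
    CF fun x => ∑ a ∈ s, f a x := by
  classical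
  induction s using Finset.induction_on with
  | empty => simpa using CF.const 0
  | insert a s ha ih =>
    simp only [Finset.sum_insert ha]
    exact (h a (Finset.mem_insert_self _ _)).add (ih fun b hb => h b (Finset.mem_insert_of_mem hb))

theorem CFM.comp {ψ : E' → E''} (hψ : CFM ψ) {φ : E → E'} (hφ : CFM φ) : CFM fun x => ψ (φ x) :=
  fun l => (hψ l).comp hφ

theorem CFM.lin (L : E →ₗ[ℂ] E') : CFM fun x => L x := fun l => CF.lin (l.comp L)

theorem CFM.id : CFM fun x : E => x := CFM.lin LinearMap.id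

theorem CFM.const (c : E') : CFM fun _ : E => c := fun l => CF.const (l c)

theorem CFM.app (L : E' →ₗ[ℂ] E'') {φ : E → E'} (hφ : CFM φ) : CFM fun x => L (φ x) :=
  (CFM.lin L).comp hφ

theorem CFM.add {φ ψ : E → E'} (h : CFM φ) (h' : CFM ψ) : CFM fun x => φ x + ψ x := fun l => by
  simpa using (h l).add (h' l)

theorem CFM.sub {φ ψ : E → E'} (h : CFM φ) (h' : CFM ψ) : CFM fun x => φ x - ψ x := fun l => by
  simpa using (h l).sub (h' l)

theorem CFM.sum {α : Type*} (s : Finset α) {f : α → E → E'} (h : ∀ a ∈ s, CFM (f a)) :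
    CFM fun x => ∑ a ∈ s, f a x := fun l => by
  simpa using CF.sum s fun a ha => h a ha l

theorem CFM.smul {c : E → ℂ} (hc : CF c) {φ : E → E'} (h : CFM φ) : CFM fun x => c x • φ x :=
  fun l => by simpa using hc.mul (h l)

theorem CF.cfm {c : E → ℂ} (hc : CF c) : CFM c := by
  simpa using CFM.smul hc (CFM.const (1 : ℂ))

theorem CFM.cf {c : E → ℂ} (hc : CFM c) : CF c := hc LinearMap.id

theorem CFM.prodMk {φ : E → E'} {ψ : E → E''} (h : CFM φ) (h' : CFM ψ) :
    CFM fun x => (φ x, ψ x) := by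
  simpa using (h.app (LinearMap.inl ℂ E' E'')).add (h'.app (LinearMap.inr ℂ E' E''))

theorem CFM.fst {φ : E → E' × E''} (h : CFM φ) : CFM fun x => (φ x).1 :=
  h.app (LinearMap.fst ℂ E' E'')

theorem CFM.snd {φ : E → E' × E''} (h : CFM φ) : CFM fun x => (φ x).2 :=
  h.app (LinearMap.snd ℂ E' E'')

theorem CFM.pi {α : Type} [Finite α] {B : α → Type} [∀ a, AddCommGroup (B a)]
    [∀ a, Module ℂ (B a)] {φ : E → ∀ a, B a} (h : ∀ a, CFM fun x => φ x a) : CFM φ := by
  classical
  cases nonempty_fintype α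
  have := CFM.sum Finset.univ fun a _ => (h a).app (LinearMap.single ℂ B a)
  simpa [Finset.univ_sum_single] using this

theorem CFM.apply {α : Type} {B : α → Type} [∀ a, AddCommGroup (B a)]
    [∀ a, Module ℂ (B a)] {φ : E → ∀ a, B a} (h : CFM φ) (a : α) : CFM fun x => φ x a :=
  h.app (LinearMap.proj a)

theorem CFM.bilin {E₃ : Type} [AddCommGroup E₃] [Module ℂ E₃] [FiniteDimensional ℂ E']
    (B : E' →ₗ[ℂ] E'' →ₗ[ℂ] E₃) {φ : E → E'} {ψ : E → E''} (h : CFM φ) (h' : CFM ψ) :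
    CFM fun x => B (φ x) (ψ x) := by
  let b := Module.finBasis ℂ E'
  have : (fun x => B (φ x) (ψ x)) = fun x => ∑ i, b.coord i (φ x) • B (b i) (ψ x) := by
    funext x
    conv_lhs => rw [← b.sum_repr (φ x)]
    simp only [map_sum, map_smul, LinearMap.sum_apply, LinearMap.smul_apply,
      Module.Basis.coord_apply]
  rw [this]
  exact CFM.sum _ fun i _ => CFM.smul (h _) (h'.app _)

section Alg

theorem CFM.mul {R : Type} [Ring R] [Algebra ℂ R] [FiniteDimensional ℂ R] {φ ψ : E → R}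
    (h : CFM φ) (h' : CFM ψ) : CFM fun x => φ x * ψ x :=
  CFM.bilin (LinearMap.mul ℂ R) h h'

variable {R : Type} [CommRing R] [Algebra ℂ R] [FiniteDimensional ℂ R]

theorem CFM.pow {φ : E → R} (h : CFM φ) (n : ℕ) : CFM fun x => φ x ^ n := by
  induction n with
  | zero => simpa using CFM.const (1 : R)
  | succ n ih => simpa [pow_succ] using ih.mul h

theorem CFM.aeval {σ : Type} {φ : E → σ → R} (h : ∀ i, CFM fun x => φ x i)
    (P : MvPolynomial σ ℂ) : CFM fun x => aeval (φ x) P := by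
  induction P using MvPolynomial.induction_on with
  | C a => simpa using CFM.const _
  | add p q hp hq => simpa using hp.add hq
  | mul_X p i hp => simpa using hp.mul (h i)

end Alg

theorem Cons.preimage {C : Set E'} (hC : Cons C) {φ : E → E'} (hφ : CFM φ) : Cons (φ ⁻¹' C) := by
  obtain ⟨h, hh, rfl⟩ := hC
  exact ⟨_, hh.comp hφ, rfl⟩

theorem Cons.compl {C : Set E} (hC : Cons C) : Cons Cᶜ := by
  obtain ⟨h, hh, rfl⟩ := hC
  refine ⟨_, (CF.const 1).sub (hh.mul hh.inv), ?_⟩
  ext x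
  by_cases hx : h x = 0 <;> simp [hx]

theorem Cons.union {C D : Set E} (hC : Cons C) (hD : Cons D) : Cons (C ∪ D) := by
  obtain ⟨h, hh, rfl⟩ := hC
  obtain ⟨g, hg, rfl⟩ := hD
  exact ⟨_, hh.mul hg, by ext x; simp⟩

theorem Cons.inter {C D : Set E} (hC : Cons C) (hD : Cons D) : Cons (C ∩ D) := by
  simpa [compl_union] using (hC.compl.union hD.compl).compl

theorem Cons.diff {C D : Set E} (hC : Cons C) (hD : Cons D) : Cons (C \ D) := hC.inter hD.compl

theorem cons_univ : Cons (univ : Set E) := ⟨_, CF.const 0, by simp⟩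

theorem cons_empty : Cons (∅ : Set E) := by simpa using (cons_univ (E := E)).compl

theorem Cons.and {P Q : E → Prop} (hC : Cons {x | P x}) (hD : Cons {x | Q x}) :
    Cons {x | P x ∧ Q x} := hC.inter hD

theorem Cons.not {P : E → Prop} (hC : Cons {x | P x}) : Cons {x | ¬ P x} := hC.compl

theorem cons_const (p : Prop) : Cons {_x : E | p} := by
  by_cases h : p
  · simpa [h] using cons_univ
  · simpa [h] using cons_empty

theorem Cons.imp {P Q : E → Prop} (hC : Cons {x | P x}) (hD : Cons {x | Q x}) :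
    Cons {x | P x → Q x} := by
  have := hC.compl.union hD
  convert this using 1
  ext x; simp only [mem_ofPred_eq, mem_union, mem_compl_iff]; tauto

theorem cons_biInter {α : Type*} (s : Finset α) {C : α → Set E} (h : ∀ a ∈ s, Cons (C a)) :
    Cons (⋂ a ∈ s, C a) := by
  classical
  induction s using Finset.induction_on with
  | empty => simpa using cons_univ
  | insert a s _ ih =>
    rw [Finset.set_biInter_insert]
    exact (h a (Finset.mem_insert_self _ _)).inter
      (ih fun b hb => h b (Finset.mem_insert_of_mem hb))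

theorem cons_biUnion {α : Type*} (s : Finset α) {C : α → Set E} (h : ∀ a ∈ s, Cons (C a)) :
    Cons (⋃ a ∈ s, C a) := by
  simpa [compl_iInter] using (cons_biInter s fun a ha => (h a ha).compl).compl

theorem cons_forall {α : Type*} [Finite α] {P : α → E → Prop} (h : ∀ a, Cons {x | P a x}) :
    Cons {x | ∀ a, P a x} := by
  cases nonempty_fintype α
  have := cons_biInter Finset.univ fun a _ => h a
  convert this using 1
  ext x; simp

theorem CFM.cons_zero [FiniteDimensional ℂ E'] {φ : E → E'} (h : CFM φ) : Cons {x | φ x = 0} := by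
  let b := Module.finBasis ℂ E'
  have := cons_forall (P := fun i x => b.coord i (φ x) = 0) fun i => ⟨_, h (b.coord i), rfl⟩
  convert this using 1
  ext x
  simp only [mem_ofPred_eq]
  exact (b.forall_coord_eq_zero_iff).symm

end Calculus

section Affine

variable {ι κ : Type}

/-- Piecewise rational functions. -/
def PRat (F : Finset (MvPolynomial ι ℂ)) (h : (ι → ℂ) → ℂ) : Prop :=
  ∀ A, ∃ P Q : MvPolynomial ι ℂ, ∀ x ∈ cell F A, eval x Q ≠ 0 ∧ h x = eval x P / eval x Q

theorem cell_mono {F G : Finset (MvPolynomial ι ℂ)} (h : F ⊆ G) (A : Finset (MvPolynomial ι ℂ)) :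
    cell G A ⊆ cell F A := fun _ hx P hP => hx P (h hP)

theorem PRat.mono {F G : Finset (MvPolynomial ι ℂ)} {h : (ι → ℂ) → ℂ} (hh : PRat F h)
    (hFG : F ⊆ G) : PRat G h := fun A => by
  obtain ⟨P, Q, H⟩ := hh A
  exact ⟨P, Q, fun x hx => H x (cell_mono hFG A hx)⟩

theorem PRat.refine {F : Finset (MvPolynomial ι ℂ)} {h : (ι → ℂ) → ℂ} (hh : PRat F h) :
    ∃ G : Finset (MvPolynomial ι ℂ), ∀ A, ∃ P Q : MvPolynomial ι ℂ, ∀ x ∈ cell G A,
      eval x Q ≠ 0 ∧ h x = eval x P / eval x Q ∧ (eval x P = 0 ↔ P ∈ A) := by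
  classical
  choose num den H using hh
  refine ⟨F ∪ F.powerset.image num, fun A => ⟨num (A ∩ F), den (A ∩ F), fun x hx => ?_⟩⟩
  have h1 : x ∈ cell F (A ∩ F) := fun P hP => by
    rw [hx P (Finset.mem_union_left _ hP)]; simp [hP]
  exact ⟨(H _ x h1).1, (H _ x h1).2, hx _ (Finset.mem_union_right _
    (Finset.mem_image_of_mem _ (Finset.mem_powerset.2 Finset.inter_subset_right)))⟩

theorem CF.prat [Finite ι] {h : (ι → ℂ) → ℂ} (hh : CF h) : ∃ F, PRat F h := by
  classical
  induction hh with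
  | const c => exact ⟨∅, fun A => ⟨C c, 1, fun x _ => by simp⟩⟩
  | lin l =>
    cases nonempty_fintype ι
    refine ⟨∅, fun A => ⟨∑ i, C (l (Pi.single i 1)) * X i, 1, fun x _ => ⟨by simp, ?_⟩⟩⟩
    show l x = _
    rw [LinearMap.pi_apply_eq_sum_univ]
    simp only [map_sum, map_mul, eval_C, eval_X, map_one, div_one, smul_eq_mul]
    refine Finset.sum_congr rfl fun i _ => ?_
    rw [mul_comm]
    congr 2
    funext j
    simp [Pi.single_apply, eq_comm]
  | add _ _ h1 h2 =>
    obtain ⟨F, hF⟩ := h1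
    obtain ⟨G, hG⟩ := h2
    refine ⟨F ∪ G, fun A => ?_⟩
    obtain ⟨P, Q, H⟩ := hF.mono (Finset.subset_union_left (s₂ := G)) A
    obtain ⟨P', Q', H'⟩ := hG.mono (Finset.subset_union_right (s₁ := F)) A
    refine ⟨P * Q' + Q * P', Q * Q', fun x hx => ?_⟩
    obtain ⟨a, b⟩ := H x hx
    obtain ⟨a', b'⟩ := H' x hx
    refine ⟨by simp [a, a'], ?_⟩
    simp only [b, b', map_add, map_mul]
    field_simp
  | mul _ _ h1 h2 =>
    obtain ⟨F, hF⟩ := h1
    obtain ⟨G, hG⟩ := h2
    refine ⟨F ∪ G, fun A => ?_⟩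
    obtain ⟨P, Q, H⟩ := hF.mono (Finset.subset_union_left (s₂ := G)) A
    obtain ⟨P', Q', H'⟩ := hG.mono (Finset.subset_union_right (s₁ := F)) A
    refine ⟨P * P', Q * Q', fun x hx => ?_⟩
    obtain ⟨a, b⟩ := H x hx
    obtain ⟨a', b'⟩ := H' x hx
    refine ⟨by simp [a, a'], ?_⟩
    simp only [b, b', map_mul]
    field_simp
  | inv _ h1 =>
    obtain ⟨F, hF⟩ := h1
    obtain ⟨G, hG⟩ := hF.refine
    refine ⟨G, fun A => ?_⟩
    obtain ⟨P, Q, H⟩ := hG A
    by_cases hP : P ∈ A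
    · refine ⟨0, 1, fun x hx => ?_⟩
      obtain ⟨-, b, c⟩ := H x hx
      simp [b, c.2 hP]
    · refine ⟨Q, P, fun x hx => ?_⟩
      obtain ⟨-, b, c⟩ := H x hx
      exact ⟨fun e => hP (c.1 e), by simp [b]⟩

theorem mem_cell_filter (F : Finset (MvPolynomial ι ℂ)) (x : ι → ℂ)
    [DecidablePred fun P => eval x P = 0] : x ∈ cell F (F.filter fun P => eval x P = 0) :=
  fun P hP => by simp [hP]

theorem Cons.con [Finite ι] {C : Set (ι → ℂ)} (hC : Cons C) : Con C := by
  classical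
  obtain ⟨h, hh, rfl⟩ := hC
  obtain ⟨F, hF⟩ := hh.prat
  obtain ⟨G, hG⟩ := hF.refine
  refine ⟨G, fun x y hxy hx => ?_⟩
  obtain ⟨P, Q, H⟩ := hG (G.filter fun P => eval x P = 0)
  obtain ⟨a, b, c⟩ := H x (mem_cell_filter G x)
  obtain ⟨a', b', c'⟩ := H y fun P hP => by rw [← hxy P hP]; simp [hP]
  have h1 : eval x P = 0 := by
    have : h x = 0 := hx
    rw [b] at this
    exact (div_eq_zero_iff.1 this).resolve_right a
  change h y = 0
  rw [b', c'.2 (c.1 h1), zero_div]

theorem cf_eval (P : MvPolynomial ι ℂ) : CF fun x : ι → ℂ => eval x P := by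
  have := (CFM.aeval (R := ℂ) (φ := fun x : ι → ℂ => x) (fun i => CFM.id.apply i) P).cf
  simpa [aeval_eq_eval] using this

theorem cons_cell (F A : Finset (MvPolynomial ι ℂ)) : Cons (cell F A) := by
  have := cons_biInter F (C := fun P => {x : ι → ℂ | eval x P = 0 ↔ P ∈ A}) fun P _ => by
    have h0 : Cons {x : ι → ℂ | eval x P = 0} := ⟨_, cf_eval P, rfl⟩
    by_cases h : P ∈ A
    · simpa [h] using h0
    · simpa [h] using h0.not
  convert this using 1
  ext x; simp [cell]

theorem CFM.prat [Finite ι] [Finite κ] {φ : (ι → ℂ) → κ → ℂ} (h : CFM φ) :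
    ∃ F, ∀ k, PRat F fun x => φ x k := by
  classical
  cases nonempty_fintype κ
  choose F hF using fun k => (h.apply k).cf.prat
  exact ⟨Finset.univ.biUnion F, fun k => (hF k).mono (Finset.subset_biUnion_of_mem F (by simp))⟩

/-- Globally rational on `Y`. -/
def RatOn (Y : Set (ι → ℂ)) (h : (ι → ℂ) → ℂ) : Prop :=
  ∃ P Q : MvPolynomial ι ℂ, ∀ x ∈ Y, eval x Q ≠ 0 ∧ h x = eval x P / eval x Q

theorem ratOn_eval {Y : Set (ι → ℂ)} {φ : (ι → ℂ) → κ → ℂ} (h : ∀ k, RatOn Y fun x => φ x k)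
    (P : MvPolynomial κ ℂ) : RatOn Y fun x => eval (φ x) P := by
  induction P using MvPolynomial.induction_on with
  | C a => exact ⟨C a, 1, fun x _ => by simp⟩
  | add p q hp hq =>
    obtain ⟨P, Q, H⟩ := hp
    obtain ⟨P', Q', H'⟩ := hq
    refine ⟨P * Q' + Q * P', Q * Q', fun x hx => ?_⟩
    obtain ⟨a, b⟩ := H x hx
    obtain ⟨a', b'⟩ := H' x hx
    refine ⟨by simp [a, a'], ?_⟩
    simp only [map_add, map_mul] at b b' ⊢
    rw [b, b']
    field_simp
  | mul_X p i hp =>
    obtain ⟨P, Q, H⟩ := hp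
    obtain ⟨P', Q', H'⟩ := h i
    refine ⟨P * P', Q * Q', fun x hx => ?_⟩
    obtain ⟨a, b⟩ := H x hx
    obtain ⟨a', b'⟩ := H' x hx
    refine ⟨by simp [a, a'], ?_⟩
    simp only [map_mul, eval_X] at b b' ⊢
    rw [b, b']
    field_simp

theorem locClosed_preimage_cell {Y : Set (ι → ℂ)} (hY : LocClosed Y) {φ : (ι → ℂ) → κ → ℂ}
    (h : ∀ k, RatOn Y fun x => φ x k) (F A : Finset (MvPolynomial κ ℂ)) :
    LocClosed (Y ∩ φ ⁻¹' cell F A) := by
  classical
  induction F using Finset.induction_on with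
  | empty =>
    have : cell (∅ : Finset (MvPolynomial κ ℂ)) A = univ := by ext; simp [cell]
    simpa [this] using hY
  | insert P F _ ih =>
    obtain ⟨N, D, H⟩ := ratOn_eval h P
    have key : ∀ x ∈ Y, eval (φ x) P = 0 ↔ eval x N = 0 := fun x hx => by
      have := (H x hx).2
      simp only at this
      rw [this, div_eq_zero_iff, or_iff_left (H x hx).1]
    by_cases hP : P ∈ A
    · convert ih.inter (zclosed_zero N).locClosed using 1
      ext x
      simp only [cell, mem_inter_iff, mem_preimage, mem_ofPred_eq, Finset.mem_insert,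
        forall_eq_or_imp, hP, iff_true]
      have := key x
      tauto
    · convert ih.diff (zclosed_zero N) using 1
      ext x
      simp only [cell, mem_inter_iff, mem_preimage, mem_ofPred_eq, Finset.mem_insert,
        forall_eq_or_imp, hP, iff_false, mem_sdiff]
      have := key x
      tauto

theorem regularOn_of_ratOn {Y : Set (ι → ℂ)} {φ : (ι → ℂ) → κ → ℂ}
    (h : ∀ k, RatOn Y fun x => φ x k) : RegularOn Y φ := fun x hx k => by
  obtain ⟨P, Q, H⟩ := h k
  exact ⟨P, Q, (H x hx).1, fun y hy _ => (H y hy).2⟩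

theorem RatOn.mono {Y Y' : Set (ι → ℂ)} {h : (ι → ℂ) → ℂ} (hh : RatOn Y h) (hs : Y' ⊆ Y) :
    RatOn Y' h := by
  obtain ⟨P, Q, H⟩ := hh
  exact ⟨P, Q, fun x hx => H x (hs hx)⟩

variable [Finite ι] [Finite κ]

theorem mu_partition {C : Set (ι → ℂ)} (hC : Cons C) {φ : (ι → ℂ) → κ → ℂ} (hφ : CFM φ)
    (F : Finset (MvPolynomial κ ℂ)) : mu C = ∑ A ∈ F.powerset, mu (C ∩ φ ⁻¹' cell F A) := by
  classical
  induction F using Finset.induction_on with
  | empty =>
    have : cell (∅ : Finset (MvPolynomial κ ℂ)) ∅ = univ := by ext; simp [cell]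
    simp [this]
  | insert P F hP ih =>
    rw [Finset.sum_powerset_insert hP, ← Finset.sum_add_distrib, ih]
    refine Finset.sum_congr rfl fun A hA => ?_
    have hA' := Finset.mem_powerset.1 hA
    have hPA : P ∉ A := fun h => hP (hA' h)
    rw [← mu_union (hC.inter ((cons_cell _ _).preimage hφ)).con
      (hC.inter ((cons_cell _ _).preimage hφ)).con]
    · congr 1
      ext x
      simp only [cell, Finset.mem_insert, forall_eq_or_imp, true_or, iff_true, mem_inter_iff,
        mem_ofPred_eq, mem_preimage, mem_union, hPA, iff_false]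
      have : (∀ Q ∈ F, (eval (φ x) Q = 0 ↔ Q = P ∨ Q ∈ A)) ↔
          ∀ Q ∈ F, (eval (φ x) Q = 0 ↔ Q ∈ A) :=
        forall₂_congr fun Q hQ => by
          have : Q ≠ P := fun e => hP (e ▸ hQ)
          simp [this]
      rw [this]; tauto
    · refine disjoint_left.2 fun x h1 h2 => hPA ?_
      exact (h1.2 P (Finset.mem_insert_self _ _)).1
        ((h2.2 P (Finset.mem_insert_self _ _)).2 (Finset.mem_insert_self _ _))

theorem mu_inv {C : Set (ι → ℂ)} {D : Set (κ → ℂ)} (hC : Cons C) (hD : Cons D)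
    {φ : (ι → ℂ) → κ → ℂ} {ψ : (κ → ℂ) → ι → ℂ} (hφ : CFM φ) (hψ : CFM ψ)
    (h3 : MapsTo φ C D) (h4 : MapsTo ψ D C) (h5 : InvOn ψ φ C D) : mu C = mu D := by
  classical
  obtain ⟨G₁, hG₁⟩ := hψ.prat
  obtain ⟨G₂, hG₂⟩ := hD.con
  have hGD : Sat (G₁ ∪ G₂) D := hG₂.mono Finset.subset_union_right
  rw [mu_partition hC hφ (G₁ ∪ G₂), mu_sum_cells hD.con (G₁ ∪ G₂)]
  refine Finset.sum_congr rfl fun B _ => ?_
  have hC' : Cons (C ∩ φ ⁻¹' cell (G₁ ∪ G₂) B) := hC.inter ((cons_cell _ _).preimage hφ)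
  have hD' : Cons (D ∩ cell (G₁ ∪ G₂) B) := hD.inter (cons_cell _ _)
  have hψr : ∀ k, RatOn (D ∩ cell (G₁ ∪ G₂) B) fun x => ψ x k := fun k =>
    RatOn.mono ((hG₁ k).mono Finset.subset_union_left B) inter_subset_right
  obtain ⟨F₁, hF₁⟩ := hφ.prat
  obtain ⟨F₂, hF₂⟩ := hC'.con
  have hFC := hF₂.mono (Finset.subset_union_right (s₁ := F₁))
  rw [mu_partition hD' hψ (F₁ ∪ F₂), mu_sum_cells hC'.con (F₁ ∪ F₂)]
  refine Finset.sum_congr rfl fun A _ => ?_
  have l1 := hFC.locClosed A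
  have l2 := locClosed_preimage_cell (hGD.locClosed B) hψr (F₁ ∪ F₂) A
  rw [mu_of_locClosed (hC'.inter (cons_cell _ _)).con l1,
    mu_of_locClosed (hD'.inter ((cons_cell _ _).preimage hψ)).con l2]
  refine cls_iso l1 l2 (φ := φ) (ψ := ψ) (regularOn_of_ratOn fun k =>
      RatOn.mono ((hF₁ k).mono Finset.subset_union_left A) inter_subset_right)
    (regularOn_of_ratOn fun k => (hψr k).mono inter_subset_left) ?_ ?_
    ⟨fun x hx => h5.1 hx.1.1, fun y hy => h5.2 hy.1.1⟩
  · rintro x ⟨⟨h1, h2⟩, h6⟩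
    refine ⟨⟨h3 h1, h2⟩, ?_⟩
    rw [mem_preimage, h5.1 h1]; exact h6
  · rintro y ⟨⟨h1, h2⟩, h6⟩
    refine ⟨⟨h4 h1, ?_⟩, h6⟩
    rw [mem_preimage, h5.2 h1]; exact h2

end Affine

end Pool.Agent.P.MP_9321be_ag
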