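import Pool.Agent.P.MP_9321be_ag.Defs

/-!
Classes of constructible subsets of affine spaces.
-/

namespace Pool.Agent.P.MP_9321be_ag

open MvPolynomial Set

variable {ι κ : Type}

theorem zclosed_univ : ZClosed (univ : Set (ι → ℂ)) := ⟨∅, by simp⟩

theorem zclosed_empty : ZClosed (∅ : Set (ι → ℂ)) := ⟨{1}, by ext; simp⟩

theorem zclosed_zero (P : MvPolynomial ι ℂ) : ZClosed {x | eval x P = 0} := ⟨{P}, by simp⟩

theorem ZClosed.inter {Z W : Set (ι → ℂ)} (hZ : ZClosed Z) (hW : ZClosed W) : ZClosed (Z ∩ W) := by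
  obtain ⟨S, rfl⟩ := hZ
  obtain ⟨T, rfl⟩ := hW
  refine ⟨S ∪ T, ?_⟩
  ext x
  simp only [mem_inter_iff, mem_ofPred_eq, mem_union, or_imp, forall_and]

theorem ZClosed.union {Z W : Set (ι → ℂ)} (hZ : ZClosed Z) (hW : ZClosed W) : ZClosed (Z ∪ W) := by
  obtain ⟨S, rfl⟩ := hZ
  obtain ⟨T, rfl⟩ := hW
  refine ⟨image2 (· * ·) S T, ?_⟩
  ext x
  simp only [mem_union, mem_ofPred_eq, forall_mem_image2, map_mul, mul_eq_zero]
  constructor
  · rintro (h | h) P hP Q hQ
    · exact Or.inl (h P hP)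
    · exact Or.inr (h Q hQ)
  · intro h
    by_cases h1 : ∀ P ∈ S, eval x P = 0
    · exact Or.inl h1
    · push Not at h1
      obtain ⟨P, hP, hP0⟩ := h1
      exact Or.inr fun Q hQ => (h P hP Q hQ).resolve_left hP0

theorem ZClosed.locClosed {Z : Set (ι → ℂ)} (hZ : ZClosed Z) : LocClosed Z :=
  ⟨Z, ∅, hZ, zclosed_empty, by simp⟩

theorem locClosed_univ : LocClosed (univ : Set (ι → ℂ)) := zclosed_univ.locClosed

theorem locClosed_empty : LocClosed (∅ : Set (ι → ℂ)) := zclosed_empty.locClosed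

theorem LocClosed.inter {A B : Set (ι → ℂ)} (hA : LocClosed A) (hB : LocClosed B) :
    LocClosed (A ∩ B) := by
  obtain ⟨Z, W, hZ, hW, rfl⟩ := hA
  obtain ⟨Z', W', hZ', hW', rfl⟩ := hB
  refine ⟨Z ∩ Z', W ∪ W', hZ.inter hZ', hW.union hW', ?_⟩
  ext x; simp only [mem_inter_iff, mem_sdiff, mem_union]; tauto

theorem LocClosed.diff {A Z : Set (ι → ℂ)} (hA : LocClosed A) (hZ : ZClosed Z) :
    LocClosed (A \ Z) :=
  hA.inter ⟨univ, Z, zclosed_univ, hZ, compl_eq_univ_sdiff Z⟩

theorem ZClosed.comp {Z : Set (ι → ℂ)} (hZ : ZClosed Z) (f : ι → κ) :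
    ZClosed {z : κ → ℂ | z ∘ f ∈ Z} := by
  obtain ⟨S, rfl⟩ := hZ
  refine ⟨rename f '' S, ?_⟩
  ext x
  simp [eval_rename]

theorem LocClosed.comp {A : Set (ι → ℂ)} (hA : LocClosed A) (f : ι → κ) :
    LocClosed {z : κ → ℂ | z ∘ f ∈ A} := by
  obtain ⟨Z, W, hZ, hW, rfl⟩ := hA
  exact ⟨_, _, hZ.comp f, hW.comp f, rfl⟩

section Cls

variable [Finite ι] [Finite κ]

theorem cls_of {A : Set (ι → ℂ)} (h : LocClosed A) :
    cls A = Ideal.Quotient.mk _ (X ⟨ι, inferInstance, A, h⟩) := dif_pos h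

theorem mk_rel {r : MvPolynomial QVar ℤ} (h : r ∈ relations) :
    Ideal.Quotient.mk (Ideal.span relations) r = 0 :=
  Ideal.Quotient.eq_zero_iff_mem.2 (Ideal.subset_span h)

theorem cls_scissor {A Z : Set (ι → ℂ)} (hA : LocClosed A) (hZ : ZClosed Z) :
    cls A = cls (A \ Z) + cls (A ∩ Z) := by
  have := mk_rel (Or.inr (Or.inl ⟨⟨ι, inferInstance, A, hA⟩, Z, hA.diff hZ,
    hA.inter hZ.locClosed, hZ, rfl⟩))
  rw [cls_of hA, cls_of (hA.diff hZ), cls_of (hA.inter hZ.locClosed)]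
  simp only [map_sub] at this
  linear_combination this

theorem cls_empty : cls (∅ : Set (ι → ℂ)) = 0 := by
  have := cls_scissor (ι := ι) locClosed_empty zclosed_empty
  simpa using this

theorem cls_iso {A : Set (ι → ℂ)} {B : Set (κ → ℂ)} (hA : LocClosed A) (hB : LocClosed B)
    {φ : (ι → ℂ) → κ → ℂ} {ψ : (κ → ℂ) → ι → ℂ} (h1 : RegularOn A φ) (h2 : RegularOn B ψ)
    (h3 : MapsTo φ A B) (h4 : MapsTo ψ B A) (h5 : InvOn ψ φ A B) : cls A = cls B := by
  have := mk_rel (Or.inl ⟨⟨ι, inferInstance, A, hA⟩, ⟨κ, inferInstance, B, hB⟩, φ, ψ, h1, h2, h3,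
    h4, h5, rfl⟩)
  rw [cls_of hA, cls_of hB]
  simp only [map_sub] at this
  linear_combination this

theorem locClosed_prod {A : Set (ι → ℂ)} {B : Set (κ → ℂ)} (hA : LocClosed A) (hB : LocClosed B) :
    LocClosed {z : ι ⊕ κ → ℂ | z ∘ Sum.inl ∈ A ∧ z ∘ Sum.inr ∈ B} :=
  (hA.comp Sum.inl).inter (hB.comp Sum.inr)

theorem cls_prod {A : Set (ι → ℂ)} {B : Set (κ → ℂ)} (hA : LocClosed A) (hB : LocClosed B) :
    cls {z : ι ⊕ κ → ℂ | z ∘ Sum.inl ∈ A ∧ z ∘ Sum.inr ∈ B} = cls A * cls B := by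
  have := mk_rel (Or.inr (Or.inr (Or.inl ⟨⟨ι, inferInstance, A, hA⟩, ⟨κ, inferInstance, B, hB⟩,
    inferInstance, locClosed_prod hA hB, rfl⟩)))
  rw [cls_of hA, cls_of hB, cls_of (locClosed_prod hA hB)]
  simp only [map_sub, map_mul] at this
  linear_combination this

theorem cls_point [IsEmpty ι] : cls (univ : Set (ι → ℂ)) = 1 := by
  have := mk_rel (Or.inr (Or.inr (Or.inr ⟨⟨ι, inferInstance, univ, locClosed_univ⟩, 0,
    (Set.eq_singleton_iff_unique_mem.2 ⟨trivial, fun x _ => Subsingleton.elim _ _⟩), rfl⟩)))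
  rw [cls_of locClosed_univ]
  simp only [map_sub, map_one] at this
  linear_combination this

end Cls

/-- The cell of the family `F` on which exactly the members of `A` vanish. -/
def cell (F A : Finset (MvPolynomial ι ℂ)) : Set (ι → ℂ) :=
  {x | ∀ P ∈ F, (eval x P = 0 ↔ P ∈ A)}

theorem locClosed_cell (F A : Finset (MvPolynomial ι ℂ)) : LocClosed (cell F A) := by
  classical
  induction F using Finset.induction_on with
  | empty =>
    have : cell (∅ : Finset (MvPolynomial ι ℂ)) A = univ := by ext; simp [cell]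
    rw [this]; exact locClosed_univ
  | insert P F _ ih =>
    by_cases h : P ∈ A
    · have : cell (insert P F) A = cell F A ∩ {x | eval x P = 0} := by
        ext x; simp [cell, h, and_comm]
      rw [this]; exact ih.inter (zclosed_zero P).locClosed
    · have : cell (insert P F) A = cell F A \ {x | eval x P = 0} := by
        ext x; simp [cell, h, and_comm]
      rw [this]; exact ih.diff (zclosed_zero P)

theorem sum_cells [Finite ι] (F : Finset (MvPolynomial ι ℂ)) {Y : Set (ι → ℂ)} (hY : LocClosed Y) :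
    ∑ A ∈ F.powerset, cls (Y ∩ cell F A) = cls Y := by
  classical
  induction F using Finset.induction_on with
  | empty =>
    have : cell (∅ : Finset (MvPolynomial ι ℂ)) ∅ = univ := by ext; simp [cell]
    simp [this]
  | insert P F hP ih =>
    rw [Finset.sum_powerset_insert hP, ← Finset.sum_add_distrib, ← ih]
    refine Finset.sum_congr rfl fun A hA => ?_
    have hA' := Finset.mem_powerset.1 hA
    have hPA : P ∉ A := fun h => hP (hA' h)
    rw [cls_scissor (hY.inter (locClosed_cell F A)) (zclosed_zero P)]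
    congr 2
    · ext x; simp [cell, hPA]; tauto
    · ext x
      simp only [cell, Finset.mem_insert, forall_eq_or_imp, true_or, iff_true,
        mem_inter_iff, mem_ofPred_eq]
      have : (∀ Q ∈ F, (eval x Q = 0 ↔ Q = P ∨ Q ∈ A)) ↔ ∀ Q ∈ F, (eval x Q = 0 ↔ Q ∈ A) :=
        forall₂_congr fun Q hQ => by
          have : Q ≠ P := fun e => hP (e ▸ hQ)
          simp [this]
      rw [this]; tauto

/-- `C` is a union of cells of `F`. -/
def Sat (F : Finset (MvPolynomial ι ℂ)) (C : Set (ι → ℂ)) : Prop :=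
  ∀ x y, (∀ P ∈ F, (eval x P = 0 ↔ eval y P = 0)) → x ∈ C → y ∈ C

theorem Sat.mono {F G : Finset (MvPolynomial ι ℂ)} {C : Set (ι → ℂ)} (h : Sat F C) (hFG : F ⊆ G) :
    Sat G C := fun x y hxy => h x y fun P hP => hxy P (hFG hP)

theorem Sat.inter_cell {F : Finset (MvPolynomial ι ℂ)} {C : Set (ι → ℂ)} (h : Sat F C)
    (A : Finset (MvPolynomial ι ℂ)) : C ∩ cell F A = ∅ ∨ C ∩ cell F A = cell F A := by
  rcases (C ∩ cell F A).eq_empty_or_nonempty with h0 | ⟨x, hx, hx'⟩
  · exact Or.inl h0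
  · refine Or.inr (inter_eq_right.2 fun y hy => h x y (fun P hP => ?_) hx)
    rw [hx' P hP, hy P hP]

theorem Sat.locClosed {F : Finset (MvPolynomial ι ℂ)} {C : Set (ι → ℂ)} (h : Sat F C)
    (A : Finset (MvPolynomial ι ℂ)) : LocClosed (C ∩ cell F A) := by
  rcases h.inter_cell A with e | e <;> rw [e]
  · exact locClosed_empty
  · exact locClosed_cell F A

theorem sat_cell (F A : Finset (MvPolynomial ι ℂ)) : Sat F (cell F A) :=
  fun _ _ hxy hx P hP => (hxy P hP).symm.trans (hx P hP)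

theorem Sat.inter {F : Finset (MvPolynomial ι ℂ)} {C D : Set (ι → ℂ)} (h : Sat F C) (h' : Sat F D) :
    Sat F (C ∩ D) := fun x y hxy hx => ⟨h x y hxy hx.1, h' x y hxy hx.2⟩

/-- Constructible sets. -/
def Con (C : Set (ι → ℂ)) : Prop := ∃ F, Sat F C

theorem Con.inter {C D : Set (ι → ℂ)} (h : Con C) (h' : Con D) : Con (C ∩ D) := by
  classical
  obtain ⟨F, hF⟩ := h
  obtain ⟨G, hG⟩ := h'
  exact ⟨F ∪ G, (hF.mono Finset.subset_union_left).inter (hG.mono Finset.subset_union_right)⟩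

theorem con_cell (F A : Finset (MvPolynomial ι ℂ)) : Con (cell F A) := ⟨F, sat_cell F A⟩

variable [Finite ι] [Finite κ]

open Classical in
/-- The class of a constructible set. -/
noncomputable def mu (C : Set (ι → ℂ)) : K0 :=
  if h : Con C then ∑ A ∈ h.choose.powerset, cls (C ∩ cell h.choose A) else 0

theorem mu_eq {F : Finset (MvPolynomial ι ℂ)} {C : Set (ι → ℂ)} (h : Sat F C) :
    mu C = ∑ A ∈ F.powerset, cls (C ∩ cell F A) := by
  have hC : Con C := ⟨F, h⟩
  rw [mu, dif_pos hC]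
  have hG := hC.choose_spec
  set G := hC.choose
  calc ∑ A ∈ G.powerset, cls (C ∩ cell G A)
      = ∑ A ∈ G.powerset, ∑ B ∈ F.powerset, cls (C ∩ cell G A ∩ cell F B) :=
        Finset.sum_congr rfl fun A _ => (sum_cells F (hG.locClosed A)).symm
    _ = ∑ B ∈ F.powerset, ∑ A ∈ G.powerset, cls (C ∩ cell F B ∩ cell G A) := by
        rw [Finset.sum_comm]
        simp only [inter_right_comm]
    _ = _ := Finset.sum_congr rfl fun B _ => sum_cells G (h.locClosed B)

theorem mu_of_locClosed {C : Set (ι → ℂ)} (h : Con C) (h' : LocClosed C) : mu C = cls C := by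
  obtain ⟨F, hF⟩ := h
  rw [mu_eq hF, sum_cells F h']

theorem mu_union {C D : Set (ι → ℂ)} (hC : Con C) (hD : Con D) (h : Disjoint C D) :
    mu (C ∪ D) = mu C + mu D := by
  classical
  obtain ⟨F, hF⟩ := hC
  obtain ⟨G, hG⟩ := hD
  have h1 := hF.mono (Finset.subset_union_left (s₂ := G))
  have h2 := hG.mono (Finset.subset_union_right (s₁ := F))
  have h3 : Sat (F ∪ G) (C ∪ D) := fun x y hxy hx => hx.imp (h1 x y hxy) (h2 x y hxy)
  rw [mu_eq h1, mu_eq h2, mu_eq h3, ← Finset.sum_add_distrib]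
  refine Finset.sum_congr rfl fun A _ => ?_
  rw [union_inter_distrib_right]
  rcases h1.inter_cell A with e | e
  · rw [e, cls_empty]; simp
  · have : D ∩ cell (F ∪ G) A = ∅ := by
      rw [← e, ← inter_assoc, (disjoint_iff_inter_eq_empty.1 h.symm), empty_inter]
    rw [this, cls_empty]; simp

theorem mu_sum_cells {C : Set (ι → ℂ)} (hC : Con C) (F : Finset (MvPolynomial ι ℂ)) :
    mu C = ∑ A ∈ F.powerset, mu (C ∩ cell F A) := by
  obtain ⟨G, hG⟩ := hC
  rw [mu_eq hG]
  calc ∑ B ∈ G.powerset, cls (C ∩ cell G B)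
      = ∑ B ∈ G.powerset, ∑ A ∈ F.powerset, cls (C ∩ cell G B ∩ cell F A) :=
        Finset.sum_congr rfl fun A _ => (sum_cells F (hG.locClosed A)).symm
    _ = _ := by
      rw [Finset.sum_comm]
      refine Finset.sum_congr rfl fun A _ => ?_
      classical
      have h1 : Sat (G ∪ F) (C ∩ cell F A) := (hG.mono Finset.subset_union_left).inter
        ((sat_cell F A).mono Finset.subset_union_right)
      rw [mu_eq h1]
      calc ∑ B ∈ G.powerset, cls (C ∩ cell G B ∩ cell F A)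
          = ∑ B ∈ G.powerset, ∑ B' ∈ (G ∪ F).powerset,
              cls (C ∩ cell G B ∩ cell F A ∩ cell (G ∪ F) B') :=
            Finset.sum_congr rfl fun B _ =>
              (sum_cells _ ((hG.locClosed B).inter (locClosed_cell F A))).symm
        _ = _ := by
            rw [Finset.sum_comm]
            refine Finset.sum_congr rfl fun B' _ => ?_
            rw [← sum_cells G (h1.locClosed B')]
            refine Finset.sum_congr rfl fun B _ => ?_
            congr 1
            ext x; simp only [mem_inter_iff]; tauto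

theorem mu_prod {C : Set (ι → ℂ)} {D : Set (κ → ℂ)} (hC : Con C) (hD : Con D) :
    mu {z : ι ⊕ κ → ℂ | z ∘ Sum.inl ∈ C ∧ z ∘ Sum.inr ∈ D} = mu C * mu D := by
  classical
  obtain ⟨F, hF⟩ := hC
  obtain ⟨G, hG⟩ := hD
  have key : ∀ {C : Set (ι → ℂ)} {D : Set (κ → ℂ)}, Sat F C → Sat G D →
      Sat (F.image (rename Sum.inl) ∪ G.image (rename Sum.inr))
        {z : ι ⊕ κ → ℂ | z ∘ Sum.inl ∈ C ∧ z ∘ Sum.inr ∈ D} := by
    intro C D hF hG x y hxy hx
    refine ⟨hF _ _ (fun P hP => ?_) hx.1, hG _ _ (fun P hP => ?_) hx.2⟩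
    · simpa [eval_rename] using hxy _ (Finset.mem_union_left _ (Finset.mem_image_of_mem _ hP))
    · simpa [eval_rename] using hxy _ (Finset.mem_union_right _ (Finset.mem_image_of_mem _ hP))
  rw [mu_eq hF, mu_eq hG, Finset.sum_mul_sum, mu_eq (key hF hG)]
  set H := F.image (rename (Sum.inl : ι → ι ⊕ κ)) ∪ G.image (rename Sum.inr)
  have e : ∀ A B, cls (C ∩ cell F A) * cls (D ∩ cell G B) = ∑ B' ∈ H.powerset,
      cls ({z : ι ⊕ κ → ℂ | z ∘ Sum.inl ∈ C ∩ cell F A ∧ z ∘ Sum.inr ∈ D ∩ cell G B} ∩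
        cell H B') := fun A B => by
    rw [← cls_prod (hF.locClosed A) (hG.locClosed B),
      sum_cells _ (locClosed_prod (hF.locClosed A) (hG.locClosed B))]
  simp only [e]
  symm
  rw [Finset.sum_congr rfl fun A _ => Finset.sum_comm, Finset.sum_comm]
  refine Finset.sum_congr rfl fun B' _ => ?_
  rcases (cell H B').eq_empty_or_nonempty with h0 | ⟨z, hz⟩
  · simp [h0, cls_empty]
  · rw [Finset.sum_eq_single_of_mem (F.filter fun P => eval (z ∘ Sum.inl) P = 0)
      (Finset.mem_powerset.2 (Finset.filter_subset _ _)),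
      Finset.sum_eq_single_of_mem (G.filter fun P => eval (z ∘ Sum.inr) P = 0)
      (Finset.mem_powerset.2 (Finset.filter_subset _ _))]
    · congr 1
      ext y
      simp only [mem_inter_iff, mem_ofPred_eq]
      constructor
      · tauto
      · rintro ⟨⟨h1, h2⟩, h3⟩
        have := key (sat_cell F (F.filter fun P => eval (z ∘ Sum.inl) P = 0))
          (sat_cell G (G.filter fun P => eval (z ∘ Sum.inr) P = 0)) z y
          (fun P hP => (hz P hP).trans (h3 P hP).symm)
          ⟨fun P hP => by simp [hP], fun P hP => by simp [hP]⟩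
        exact ⟨⟨⟨h1, this.1⟩, h2, this.2⟩, h3⟩
    · intro B hB hne
      convert cls_empty (ι := ι ⊕ κ)
      refine eq_empty_iff_forall_notMem.2 fun y ⟨⟨h1, h2⟩, h3⟩ => hne ?_
      have := key (sat_cell F (F.filter fun P => eval (z ∘ Sum.inl) P = 0)) (sat_cell G B) y z
          (fun P hP => (h3 P hP).trans (hz P hP).symm) ⟨h1.2, h2.2⟩
      ext P
      simp only [Finset.mem_filter]
      exact ⟨fun hP => ⟨Finset.mem_powerset.1 hB hP,
        (this.2 P (Finset.mem_powerset.1 hB hP)).2 hP⟩, fun hP => (this.2 P hP.1).1 hP.2⟩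
    · intro A hA hne
      refine Finset.sum_eq_zero fun B _ => ?_
      convert cls_empty (ι := ι ⊕ κ)
      refine eq_empty_iff_forall_notMem.2 fun y ⟨⟨h1, h2⟩, h3⟩ => hne ?_
      have := key (sat_cell F A) (sat_cell G B) y z
          (fun P hP => (h3 P hP).trans (hz P hP).symm) ⟨h1.2, h2.2⟩
      ext P
      simp only [Finset.mem_filter]
      exact ⟨fun hP => ⟨Finset.mem_powerset.1 hA hP,
        (this.1 P (Finset.mem_powerset.1 hA hP)).2 hP⟩, fun hP => (this.1 P hP.1).1 hP.2⟩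

end Pool.Agent.P.MP_9321be_ag
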