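import Mathlib

/-!
The Grothendieck ring of complex varieties, the local motivic zeta function, monodromy
eigenvalues, and the path ideals of a quiver with coloured vertices.
-/

namespace Pool.Agent.P.MP_9321be_ag

open MvPolynomial

/-- Zariski closed subsets of an affine space. -/
def ZClosed {ι : Type} (Z : Set (ι → ℂ)) : Prop :=
  ∃ S : Set (MvPolynomial ι ℂ), Z = {x | ∀ P ∈ S, eval x P = 0}

/-- Zariski locally closed subsets of an affine space (quasi-affine varieties). -/
def LocClosed {ι : Type} (A : Set (ι → ℂ)) : Prop :=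
  ∃ Z W : Set (ι → ℂ), ZClosed Z ∧ ZClosed W ∧ A = Z \ W

/-- `φ` is a regular map on `A`: near each point each coordinate is a quotient of polynomials. -/
def RegularOn {ι κ : Type} (A : Set (ι → ℂ)) (φ : (ι → ℂ) → κ → ℂ) : Prop :=
  ∀ x ∈ A, ∀ k : κ, ∃ P Q : MvPolynomial ι ℂ, eval x Q ≠ 0 ∧
    ∀ y ∈ A, eval y Q ≠ 0 → φ y k = eval y P / eval y Q

/-- A quasi-affine complex variety. -/
structure QVar : Type 1 where
  ι : Type
  fin : Finite ι
  pts : Set (ι → ℂ)
  lc : LocClosed pts

/-- The relations of the Grothendieck ring: isomorphic varieties have the same class,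
`[A] = [A \ Y] + [Y]` for `Y` closed in `A`, `[A × B] = [A] [B]`, and `[point] = 1`. -/
def relations : Set (MvPolynomial QVar ℤ) :=
  {r | (∃ (A B : QVar) (φ : (A.ι → ℂ) → B.ι → ℂ) (ψ : (B.ι → ℂ) → A.ι → ℂ),
          RegularOn A.pts φ ∧ RegularOn B.pts ψ ∧ Set.MapsTo φ A.pts B.pts ∧
          Set.MapsTo ψ B.pts A.pts ∧ Set.InvOn ψ φ A.pts B.pts ∧ r = X A - X B) ∨
       (∃ (A : QVar) (Z : Set (A.ι → ℂ)) (h₁ : LocClosed (A.pts \ Z)) (h₂ : LocClosed (A.pts ∩ Z)),
          ZClosed Z ∧ r = X A - X ⟨A.ι, A.fin, A.pts \ Z, h₁⟩ - X ⟨A.ι, A.fin, A.pts ∩ Z, h₂⟩) ∨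
       (∃ (A B : QVar) (hf : Finite (A.ι ⊕ B.ι))
          (h : LocClosed {z : A.ι ⊕ B.ι → ℂ | z ∘ Sum.inl ∈ A.pts ∧ z ∘ Sum.inr ∈ B.pts}),
          r = X ⟨A.ι ⊕ B.ι, hf, {z | z ∘ Sum.inl ∈ A.pts ∧ z ∘ Sum.inr ∈ B.pts}, h⟩ - X A * X B) ∨
       (∃ (A : QVar) (x : A.ι → ℂ), A.pts = {x} ∧ r = X A - 1)}

/-- The Grothendieck ring of complex varieties. -/
abbrev K0 : Type 1 := MvPolynomial QVar ℤ ⧸ Ideal.span relations

open Classical in
/-- The class of a locally closed subset of an affine space. -/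
noncomputable def cls {ι : Type} [hι : Finite ι] (A : Set (ι → ℂ)) : K0 :=
  if h : LocClosed A then Ideal.Quotient.mk _ (X ⟨ι, hι, A, h⟩) else 0

/-- The class of the affine line. -/
noncomputable def lef : K0 := cls (Set.univ : Set (Unit → ℂ))

/-- The localised Grothendieck ring. -/
abbrev MM : Type 1 := Localization.Away lef

/-- The inverse of the class of the affine line. -/
noncomputable def lefInv : MM := IsLocalization.Away.invSelf lef

/-- The `l`-jets through the origin (the coefficients of `t, …, t ^ l`) along which `f` has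
order exactly `l`. -/
def jets {σ : Type} (f : MvPolynomial σ ℂ) (l : ℕ) : Set (σ × Fin l → ℂ) :=
  {c | (aeval (fun i => ∑ k : Fin l, Polynomial.C (c (i, k)) * Polynomial.X ^ (k.1 + 1)) f :
    Polynomial ℂ).trailingDegree = l}

/-- The series `u ^ n * ∑ l ≥ 1, a l * (u ^ n * T) ^ l`. -/
noncomputable def series {A : Type 1} [CommRing A] (u : A) (n : ℕ) (a : ℕ → A) : PowerSeries A :=
  PowerSeries.mk fun l => if l = 0 then 0 else u ^ n * a l * (u ^ n) ^ l

/-- The local motivic zeta function at the origin. -/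
noncomputable def zeta {σ : Type} [Finite σ] (f : MvPolynomial σ ℂ) : PowerSeries MM :=
  series lefInv (Nat.card σ) fun l => algebraMap K0 MM (cls (jets f l))

/-- `Z` lies in `A[T][1 / (1 - u ^ σ * T ^ m)]` with `(m, σ)` in `S`. -/
def RationalWith {A : Type 1} [CommRing A] (u : A) (S : Finset (ℕ × ℕ)) (Z : PowerSeries A) :
    Prop :=
  Z ∈ Algebra.adjoin A ({PowerSeries.X} ∪ {g : PowerSeries A | ∃ q ∈ S,
    (1 - PowerSeries.C (u ^ q.2) * PowerSeries.X ^ q.1) * g = 1})

/-- The canonical Milnor fibre of `f` at `x`: the Milnor fibration over the punctured disc of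
radius `δ`, in the Euclidean ball of radius `ε`, pulled back to the universal cover of the
punctured disc. -/
def milnorFibre {σ : Type} (f : MvPolynomial σ ℂ) (x : σ → ℂ) (ε δ : ℝ) : Type :=
  {p : (σ → ℂ) × ℂ // ∑ᶠ i, ‖p.1 i - x i‖ ^ 2 < ε ^ 2 ∧ eval p.1 f = Complex.exp p.2 ∧
    p.2.re < Real.log δ}

noncomputable instance milnorTop {σ : Type} (f : MvPolynomial σ ℂ) (x : σ → ℂ) (ε δ : ℝ) :
    TopologicalSpace (milnorFibre f x ε δ) := instTopologicalSpaceSubtype

/-- The geometric monodromy: the deck transformation `(z, s) ↦ (z, s + 2 π i)`. -/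
noncomputable def deck {σ : Type} (f : MvPolynomial σ ℂ) (x : σ → ℂ) (ε δ : ℝ) :
    C(milnorFibre f x ε δ, milnorFibre f x ε δ) :=
  ⟨fun p => ⟨(p.1.1, p.1.2 + 2 * Real.pi * Complex.I), p.2.1, by simpa [Complex.exp_add] using p.2.2.1,
      by simpa using p.2.2.2⟩,
    Continuous.subtype_mk (by fun_prop) _⟩

/-- `lam` is an eigenvalue of the monodromy on some cohomology group (the dual of singular
homology with complex coefficients) of the Milnor fibre of `f` at `x`. -/
def IsMonodromyEigenvalue {σ : Type} (f : MvPolynomial σ ℂ) (x : σ → ℂ) (lam : ℂ) : Prop :=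
  ∃ ε₀ > 0, ∀ ε ∈ Set.Ioo (0 : ℝ) ε₀, ∃ δ₀ > 0, ∀ δ ∈ Set.Ioo (0 : ℝ) δ₀, ∃ j : ℕ,
    Module.End.HasEigenvalue
      (((AlgebraicTopology.singularHomologyFunctor (ModuleCat.{0} ℂ) j).obj
        (ModuleCat.of ℂ ℂ)).map (TopCat.ofHom (deck f x ε δ))).hom.dualMap lam

/-- The statement of the motivic monodromy conjecture for `f` at the origin. -/
def MonodromyConjecture {σ : Type} [Finite σ] (f : MvPolynomial σ ℂ) : Prop :=
  ∀ U ∈ nhds (0 : σ → ℂ), ∃ S : Finset (ℕ × ℕ), (∀ q ∈ S, 0 < q.1 ∧ 0 < q.2) ∧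
    RationalWith lefInv S (zeta f) ∧
    ∀ q ∈ S, ∃ x ∈ U, eval x f = 0 ∧
      IsMonodromyEigenvalue f x (Complex.exp (-(2 * Real.pi * Complex.I * q.2 / q.1)))

/-- The polynomial `∑ j, w j * g j` in the old variables and new variables `w j`. -/
noncomputable def hyper {τ J : Type} [Fintype J] (g : J → MvPolynomial τ ℂ) :
    MvPolynomial (τ ⊕ J) ℂ := ∑ j, X (Sum.inr j) * rename Sum.inl (g j)

/-- The symmetric or skew-symmetric matrix with the given entries above (and on) the diagonal. -/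
def symMat {n : ℕ} {S : Type} [CommRing S] (skew : Bool)
    (z : {p : Fin n × Fin n // p.1 < p.2 ∨ skew = false ∧ p.1 = p.2} → S) :
    Matrix (Fin n) (Fin n) S :=
  Matrix.of fun i k => if h : i < k ∨ skew = false ∧ i = k then z ⟨(i, k), h⟩
    else if h : k < i then (if skew then -1 else 1) * z ⟨(k, i), Or.inl h⟩ else 0

/-- A quiver with a dimension vector `d`, a colouring `c` of its vertices and a family of symmetric
or skew-symmetric forms placed at vertices. -/
structure QData (V : Type) [Quiver.{0} V] : Type 1 where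
  d : V → ℕ
  c : V → Bool
  F : Type
  base : F → V
  skew : F → Bool

variable {V : Type} [Quiver.{0} V]

/-- The product of the matrices along a path. -/
def pathMat {d : V → ℕ} {S : Type} [CommRing S]
    (x : ∀ u v : V, (u ⟶ v) → Matrix (Fin (d v)) (Fin (d u)) S) {u : V} :
    ∀ {w : V}, Quiver.Path u w → Matrix (Fin (d w)) (Fin (d u)) S
  | _, .nil => 1
  | _, .cons p e => x _ _ e * pathMat x p

namespace QData

variable (D : QData V)

/-- The variables: the entries of a matrix for each arrow, and the entries above the diagonal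
(and on it in the symmetric case) of a square matrix for each form. -/
abbrev Vars : Type := (Σ u v : V, (u ⟶ v) × Fin (D.d v) × Fin (D.d u)) ⊕
  Σ φ : D.F, {p : Fin (D.d (D.base φ)) × Fin (D.d (D.base φ)) //
    p.1 < p.2 ∨ D.skew φ = false ∧ p.1 = p.2}

/-- The generic matrix of an arrow. -/
noncomputable def arr (u v : V) (e : u ⟶ v) :
    Matrix (Fin (D.d v)) (Fin (D.d u)) (MvPolynomial D.Vars ℂ) :=
  Matrix.of fun i k => X (Sum.inl ⟨u, v, e, i, k⟩)

/-- The generic symmetric or skew-symmetric matrix of a form. -/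
noncomputable def form (φ : D.F) :
    Matrix (Fin (D.d (D.base φ))) (Fin (D.d (D.base φ))) (MvPolynomial D.Vars ℂ) :=
  symMat (D.skew φ) fun p => X (Sum.inr ⟨φ, p⟩)

/-- The ideal generated by the entries of the matrices of the paths `e₂ q e₁` whose two ends have
one colour and whose inner vertices have the other colour, and of the matrices `S q e₁` where
`e₁` starts at a vertex coloured `false` and `q` runs through vertices coloured `true` to the
vertex carrying the form `S`. -/
def pathIdeal {S : Type} [CommRing S]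
    (x : ∀ u v : V, (u ⟶ v) → Matrix (Fin (D.d v)) (Fin (D.d u)) S)
    (s : ∀ φ : D.F, Matrix (Fin (D.d (D.base φ))) (Fin (D.d (D.base φ))) S) : Ideal S :=
  Ideal.span
    ({r | ∃ (u v v' w : V) (e₁ : u ⟶ v) (q : Quiver.Path v v') (e₂ : v' ⟶ w) (i : _) (k : _),
        D.c u = D.c w ∧ (∀ z ∈ q.vertices, D.c z ≠ D.c u) ∧
        r = (x _ _ e₂ * pathMat x q * x _ _ e₁) i k} ∪
      {r | ∃ (φ : D.F) (u v : V) (e₁ : u ⟶ v) (q : Quiver.Path v (D.base φ)) (i : _) (k : _),
        D.c u = false ∧ (∀ z ∈ q.vertices, D.c z = true) ∧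
        r = (s φ * pathMat x q * x _ _ e₁) i k})

/-- The path ideal of the generic matrices. -/
noncomputable def ideal : Ideal (MvPolynomial D.Vars ℂ) := D.pathIdeal D.arr D.form

end QData

end Pool.Agent.P.MP_9321be_ag
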