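import Pool.Agent.P.MP_9321be_ag.Link

/-!
The system attached to a coloured quiver.
-/

namespace Pool.Agent.P.MP_9321be_ag

open Matrix Quiver

theorem Sys.cond_of_not_pos {B Ar Gm Fm V : Type} [Fintype B] [DecidableEq B] [DecidableEq Ar]
    [DecidableEq Gm] [DecidableEq V] {R : Type} [CommRing R] (S : Sys B Ar Gm Fm V)
    (h : ¬ S.Pos ∅ ∅) (t a : R) (x : ((Ar ⊕ Gm) ⊕ Fm) × B × B → R) : S.Cond t a x ∅ ∅ ∅ ∅ := by
  refine ⟨⨅ (i : B) (_ : S.Good ∅ (S.vtx i)), LinearMap.ker (LinearMap.proj i), fun y hy => ?_,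
    by simp, fun e y hy => ?_, fun σ y => ?_⟩
  all_goals simp only [Submodule.mem_iInf, LinearMap.mem_ker, LinearMap.proj_apply] at *
  · refine S.mem_Gd.2 fun φ i => Finset.dvd_sum fun k _ => ?_
    beta_reduce
    by_cases h1 : S.Good ∅ (S.vtx k)
    · simp [hy k h1]
    · have h2 := fun h h' => h1 (.form k i φ _ (by simp) (by simp) rfl h h')
      by_cases h3 : S.skew φ ∧ i = k
      · simp [S.Sf_apply, Sys.sg, h3.1, h3.2]
      · rw [Matrix.smul_apply, S.Sf_apply, S.Sh_apply, S.Sh_apply, if_neg (by tauto),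
          if_neg (by tauto)]
        simp
  · intro i hi
    refine Finset.sum_eq_zero fun k _ => ?_
    beta_reduce
    rw [S.Xt_apply]
    split_ifs with h1
    · rw [hy k (.step k e _ (by simp) rfl h1.2.symm (h1.1 ▸ hi)), mul_zero]
    · simp
  · intro i hi
    refine Finset.sum_eq_zero fun k _ => ?_
    beta_reduce
    have := fun h' => h ⟨(.inr σ, k), _, by simp, hi, Or.inr ⟨σ, rfl, h'⟩⟩
    rw [Sys.Gs, of_apply, if_neg (by tauto), if_neg (by tauto), zero_mul]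

variable {V : Type} [Quiver.{0} V] {R : Type} [CommRing R]

/-- All arrows. -/
abbrev Arr (V : Type) [Quiver.{0} V] : Type := Σ u v : V, u ⟶ v

namespace QData

variable (D : QData V)

/-- The basis vectors. -/
abbrev Nd : Type := Σ v, Fin (D.d v)

/-- The system of a coloured quiver. -/
def sys : Sys D.Nd (Arr V) (Arr V) (Arr V ⊕ D.F) (Option V) where
  vtx b := some b.1
  src e := if D.c e.1 = D.c e.2.1 then some (if D.c e.1 then e.1 else e.2.1) else none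
  tgt e := if D.c e.1 = D.c e.2.1 then some (if D.c e.1 then e.2.1 else e.1) else none
  ga e := if D.c e.1 = false ∧ D.c e.2.1 = true then some e.2.1 else none
  gb e := if D.c e.1 = false ∧ D.c e.2.1 = true then some e.1 else none
  fa := Sum.elim (fun e => if D.c e.1 = true ∧ D.c e.2.1 = false then some e.2.1 else none)
    fun φ => if D.c (D.base φ) then some (D.base φ) else none
  fb := Sum.elim (fun e => if D.c e.1 = true ∧ D.c e.2.1 = false then some e.1 else none)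
    fun φ => if D.c (D.base φ) then some (D.base φ) else none
  skew := Sum.elim (fun _ => false) D.skew
  hg e i h1 h2 := by
    split_ifs at h1 h2 with h
    have := (Option.some.inj h1).symm.trans (Option.some.inj h2)
    rw [this, h.1] at h
    simp at h

/-- The position of an arrow entry among the variables of the system. -/
def pos (u v : V) (e : u ⟶ v) (i : Fin (D.d v)) (k : Fin (D.d u)) :
    ((Arr V ⊕ Arr V) ⊕ Arr V ⊕ D.F) × D.Nd × D.Nd :=
  if D.c u then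
    (if D.c v then .inl (.inl ⟨u, v, e⟩) else .inr (.inl ⟨u, v, e⟩), ⟨v, i⟩, ⟨u, k⟩)
  else if D.c v then (.inl (.inr ⟨u, v, e⟩), ⟨v, i⟩, ⟨u, k⟩)
  else (.inl (.inl ⟨u, v, e⟩), ⟨u, k⟩, ⟨v, i⟩)

variable (x : ((Arr V ⊕ Arr V) ⊕ Arr V ⊕ D.F) × D.Nd × D.Nd → R)

/-- The matrix of an arrow. -/
def xa (u v : V) (e : u ⟶ v) : Matrix (Fin (D.d v)) (Fin (D.d u)) R :=
  of fun i k => x (D.pos u v e i k)

/-- The matrix of a form. -/
def xs (φ : D.F) : Matrix (Fin (D.d (D.base φ))) (Fin (D.d (D.base φ))) R := of fun i k =>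
  x (.inr (.inr φ), ⟨_, i⟩, ⟨_, k⟩) + D.sys.sg (.inr φ) * x (.inr (.inr φ), ⟨_, k⟩, ⟨_, i⟩)

variable [DecidableEq V]

/-- The inclusion of a block. -/
def inc (R : Type) [CommRing R] (v : V) : Matrix D.Nd (Fin (D.d v)) R :=
  of fun b i => if b = ⟨v, i⟩ then 1 else 0

variable [Fintype V]

theorem inc_inc (v : V) : (D.inc R v)ᵀ * D.inc R v = 1 := by
  ext i k
  simp [inc, mul_apply, one_apply, eq_comm]

theorem inc_inc_ne {u v : V} (h : u ≠ v) : (D.inc R u)ᵀ * D.inc R v = 0 := by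
  ext i k
  simp [inc, mul_apply, h.symm]

theorem blk_eq {G : Matrix D.Nd D.Nd R} {u v : V} {Y : Matrix (Fin (D.d v)) (Fin (D.d u)) R}
    (h : ∀ b b', ¬ (b.1 = v ∧ b'.1 = u) → G b b' = 0) (h' : ∀ i k, G ⟨v, i⟩ ⟨u, k⟩ = Y i k) :
    G = D.inc R v * Y * (D.inc R u)ᵀ := by
  ext ⟨v', i⟩ ⟨u', k⟩
  by_cases h1 : v' = v ∧ u' = u
  · obtain ⟨rfl, rfl⟩ := h1
    simp [inc, mul_apply, h']
  · rw [h _ _ h1]
    rcases not_and_or.1 h1 with h1 | h1 <;> simp [inc, mul_apply, h1]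

variable [∀ u v : V, DecidableEq (u ⟶ v)] {t : R}

theorem Xt_tt {u v : V} (e : u ⟶ v) (hu : D.c u = true) (hv : D.c v = true) :
    D.sys.Xt t x ∅ ∅ ⟨u, v, e⟩ = D.inc R v * (t • D.xa x u v e) * (D.inc R u)ᵀ :=
  D.blk_eq (fun b b' h => by rw [Sys.Xt_apply, if_neg (by simpa [sys, hu, hv] using h)])
    fun i k => by simp [Sys.Xt_apply, sys, hu, hv, scale, xa, pos, mul_comm]

theorem Xt_ff {u v : V} (e : u ⟶ v) (hu : D.c u = false) (hv : D.c v = false) :
    D.sys.Xt t x ∅ ∅ ⟨u, v, e⟩ = D.inc R u * (t • D.xa x u v e)ᵀ * (D.inc R v)ᵀ :=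
  D.blk_eq (fun b b' h => by rw [Sys.Xt_apply, if_neg (by simpa [sys, hu, hv] using h)])
    fun i k => by simp [Sys.Xt_apply, sys, hu, hv, scale, xa, pos, mul_comm]

theorem Xt_ne {u v : V} (e : u ⟶ v) (h : D.c u ≠ D.c v) : D.sys.Xt t x ∅ ∅ ⟨u, v, e⟩ = 0 := by
  ext i k; simp [Sys.Xt_apply, sys, h]

theorem Gs_ft {u v : V} (e : u ⟶ v) (hu : D.c u = false) (hv : D.c v = true) :
    D.sys.Gs t x ∅ ∅ ∅ ⟨u, v, e⟩ = D.inc R v * (t • D.xa x u v e) * (D.inc R u)ᵀ +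
      D.inc R u * (t • D.xa x u v e)ᵀ * (D.inc R v)ᵀ := by
  have huv : u ≠ v := by rintro rfl; simp [hu] at hv
  have := D.blk_eq (G := of fun b b' => if b.1 = v ∧ b'.1 = u then
    x (.inl (.inr ⟨u, v, e⟩), b, b') * t else 0) (Y := t • D.xa x u v e)
    (fun b b' h => if_neg h) fun i k => by simp [xa, pos, hu, hv, mul_comm]
  have h2 := congrArg transpose this
  rw [transpose_mul, transpose_mul, transpose_transpose, ← Matrix.mul_assoc] at h2
  rw [← this, ← h2]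
  ext b b'
  simp only [Sys.Gs, sys, hu, hv, and_self, if_true, Option.some.injEq, scale, of_apply,
    Finset.notMem_empty, if_false, Matrix.add_apply, transpose_apply]
  split_ifs with h1 h2
  · exact absurd (h2.2.symm.trans h1.1) huv
  all_goals simp

theorem Gs_ne {u v : V} (e : u ⟶ v) (h : ¬ (D.c u = false ∧ D.c v = true)) :
    D.sys.Gs t x ∅ ∅ ∅ ⟨u, v, e⟩ = 0 := by
  ext i k; simp [Sys.Gs, sys, if_neg h]

theorem Sf_tf {u v : V} (e : u ⟶ v) (hu : D.c u = true) (hv : D.c v = false) :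
    t • D.sys.Sf x ∅ (.inl ⟨u, v, e⟩) = D.inc R v * (t • D.xa x u v e) * (D.inc R u)ᵀ +
      D.inc R u * (t • D.xa x u v e)ᵀ * (D.inc R v)ᵀ := by
  rw [Sys.Sf, D.blk_eq (G := D.sys.Sh x ∅ (.inl ⟨u, v, e⟩)) (Y := D.xa x u v e)
    (fun b b' h => by rw [Sys.Sh_apply, if_neg (by simpa [sys, hu, hv] using h)])
    fun i k => by simp [Sys.Sh_apply, sys, hu, hv, xa, pos]]
  simp [Sys.sg, sys, transpose_mul, Matrix.mul_assoc]

theorem Sf_ne {u v : V} (e : u ⟶ v) (h : ¬ (D.c u = true ∧ D.c v = false)) :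
    D.sys.Sf x ∅ (.inl ⟨u, v, e⟩) = 0 := by
  ext i k; simp [Sys.Sf_apply, Sys.Sh_apply, sys, if_neg h]

theorem Sf_fm {φ : D.F} (h : D.c (D.base φ) = true) : t • D.sys.Sf x ∅ (.inr φ) =
    D.inc R (D.base φ) * (t • D.xs x φ) * (D.inc R (D.base φ))ᵀ :=
  D.blk_eq (fun b b' h' => by
    rw [Matrix.smul_apply, Sys.Sf_apply, Sys.Sh_apply, Sys.Sh_apply,
      if_neg (by simpa [sys, h] using h'), if_neg (by simpa [sys, h, and_comm] using h')]
    simp) fun i k => by simp [Sys.Sf_apply, Sys.Sh_apply, sys, h, xs]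

theorem Sf_fm' {φ : D.F} (h : ¬ D.c (D.base φ) = true) : D.sys.Sf x ∅ (.inr φ) = 0 := by
  ext i k; simp [Sys.Sf_apply, Sys.Sh_apply, sys, h]

theorem cond_iff (a : R) : D.sys.Cond t a x ∅ ∅ ∅ ∅ ↔
    D.Rel a (fun u v e => t • D.xa x u v e) fun φ => t • D.xs x φ := by
  rw [rel_iff]
  have r1 : ∀ v y, (D.inc R v)ᵀ *ᵥ (D.inc R v *ᵥ y) = y := fun v y => by
    rw [mulVec_mulVec, inc_inc, one_mulVec]
  have r2 : ∀ {u v}, u ≠ v → ∀ y, (D.inc R u)ᵀ *ᵥ (D.inc R v *ᵥ y) = 0 := fun h y => by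
    rw [mulVec_mulVec, D.inc_inc_ne h, zero_mulVec]
  have ne : ∀ {u v}, D.c u = true → D.c v = false → u ≠ v := by
    rintro u v h1 h2 rfl; simp [h1] at h2
  constructor
  · rintro ⟨M, m1, -, m3, m4⟩
    refine ⟨fun v => M.comap (D.inc R v).mulVecLin, ?_, ?_, ?_, ?_, ?_⟩
    all_goals simp only [Submodule.mem_comap, mulVecLin_apply]
    · intro u v e hu hv y hy
      simpa only [D.Xt_tt x e hu hv, ← mulVec_mulVec, r1] using m3 ⟨u, v, e⟩ _ hy
    · intro u v e hu hv y hy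
      simpa only [D.Xt_ff x e hu hv, ← mulVec_mulVec, r1] using m3 ⟨u, v, e⟩ _ hy
    · intro u v e hu hv
      exact ⟨fun y => by
        simpa only [D.Gs_ft x e hu hv, add_mulVec, ← mulVec_mulVec, r1,
          r2 (ne hv hu), mulVec_zero, add_zero] using m4 ⟨u, v, e⟩ (D.inc R u *ᵥ y), fun y => by
        simpa only [D.Gs_ft x e hu hv, add_mulVec, ← mulVec_mulVec, r1,
          r2 (ne hv hu).symm, mulVec_zero, zero_add] using m4 ⟨u, v, e⟩ (D.inc R v *ᵥ y)⟩
    · intro u v e hu hv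
      exact ⟨fun y hy => by
        simpa only [D.Sf_tf x e hu hv, add_mulVec, ← mulVec_mulVec, r1, r2 (ne hu hv).symm,
          mulVec_zero, add_zero] using
          Dv_mulVec' (D.sys.mem_Gd.1 (m1 hy) (.inl ⟨u, v, e⟩)) (D.inc R v)ᵀ,
        fun y hy => by
        simpa only [D.Sf_tf x e hu hv, add_mulVec, ← mulVec_mulVec, r1, r2 (ne hu hv),
          mulVec_zero, zero_add] using
          Dv_mulVec' (D.sys.mem_Gd.1 (m1 hy) (.inl ⟨u, v, e⟩)) (D.inc R u)ᵀ⟩
    · intro φ h y hy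
      simpa only [D.Sf_fm x h, ← mulVec_mulVec, r1] using
        Dv_mulVec' (D.sys.mem_Gd.1 (m1 hy) (.inr φ)) (D.inc R (D.base φ))ᵀ
  · rintro ⟨K, H⟩
    have r3 : ∀ v, ∀ y ∈ K v, D.inc R v *ᵥ y ∈ ⨅ v, (K v).comap (D.inc R v)ᵀ.mulVecLin := by
      intro v y hy
      simp only [Submodule.mem_iInf, Submodule.mem_comap, mulVecLin_apply]
      intro u
      by_cases h : u = v
      · subst h; rwa [r1]
      · rw [r2 h]; exact zero_mem _
    refine ⟨⨅ v, (K v).comap (D.inc R v)ᵀ.mulVecLin, fun y hy => D.sys.mem_Gd.2 ?_, by simp,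
      fun ⟨u, v, e⟩ y hy => ?_, fun ⟨u, v, e⟩ y => ?_⟩
    · have hy' : ∀ v, (D.inc R v)ᵀ *ᵥ y ∈ K v := fun v => (Submodule.mem_iInf _).1 hy v
      rintro (⟨u, v, e⟩ | φ)
      · by_cases h : D.c u = true ∧ D.c v = false
        · simp only [D.Sf_tf x e h.1 h.2, add_mulVec, ← mulVec_mulVec]
          exact add_mem (Dv_mulVec' ((H.tf u v e h.1 h.2).1 _ (hy' u)) _)
            (Dv_mulVec' ((H.tf u v e h.1 h.2).2 _ (hy' v)) _)
        · simp [D.Sf_ne x e h]
      · by_cases h : D.c (D.base φ) = true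
        · simp only [D.Sf_fm x h, ← mulVec_mulVec]
          exact Dv_mulVec' (H.fm φ h _ (hy' _)) _
        · simp [D.Sf_fm' x h]
    · have hy' : ∀ v, (D.inc R v)ᵀ *ᵥ y ∈ K v := fun v => (Submodule.mem_iInf _).1 hy v
      cases hu : D.c u <;> cases hv : D.c v
      · simp only [D.Xt_ff x e hu hv, ← mulVec_mulVec]
        exact r3 _ _ (H.ff u v e hu hv _ (hy' v))
      · rw [D.Xt_ne x e (by simp [hu, hv]), zero_mulVec]; exact zero_mem _
      · rw [D.Xt_ne x e (by simp [hu, hv]), zero_mulVec]; exact zero_mem _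
      · simp only [D.Xt_tt x e hu hv, ← mulVec_mulVec]
        exact r3 _ _ (H.tt u v e hu hv _ (hy' u))
    · by_cases h : D.c u = false ∧ D.c v = true
      · simp only [D.Gs_ft x e h.1 h.2, add_mulVec, ← mulVec_mulVec]
        exact add_mem (r3 _ _ ((H.ft u v e h.1 h.2).1 _)) (r3 _ _ ((H.ft u v e h.1 h.2).2 _))
      · rw [D.Gs_ne x e h, zero_mulVec]; exact zero_mem _

end QData

end Pool.Agent.P.MP_9321be_ag
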