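import Pool.Agent.P.MP_9321be_ag.Zeta

/-!
Path relations of a coloured quiver as closure conditions on graded submodules.
-/

namespace Pool.Agent.P.MP_9321be_ag

open Matrix Quiver

variable {V : Type} [Quiver.{0} V] {R : Type} [CommRing R]

theorem pathMat_comp {d : V → ℕ} (x : ∀ u v : V, (u ⟶ v) → Matrix (Fin (d v)) (Fin (d u)) R)
    {u v : V} (p : Path u v) : ∀ {w : V} (q : Path v w),
      pathMat x (p.comp q) = pathMat x q * pathMat x p
  | _, .nil => by simp [pathMat]
  | _, .cons q e => by simp [pathMat, pathMat_comp x p q, Matrix.mul_assoc]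

theorem pathMat_map {d : V → ℕ} {R' : Type} [CommRing R'] (f : R →+* R')
    (x : ∀ u v : V, (u ⟶ v) → Matrix (Fin (d v)) (Fin (d u)) R) {u : V} :
    ∀ {w : V} (q : Path u w), (pathMat x q).map f = pathMat (fun u v e => (x u v e).map f) q
  | _, .nil => by simp [pathMat]
  | _, .cons q e => by simp [pathMat, Matrix.map_mul, pathMat_map f x q]

theorem Dv_mulVec' {B B' : Type} [Fintype B] {a : R} {y : B → R} (h : y ∈ Dv B a)
    (g : Matrix B' B R) : g *ᵥ y ∈ Dv B' a :=
  fun _ => Finset.dvd_sum fun k _ => (h k).mul_left _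

theorem entries_iff {B B' : Type} [Fintype B] [DecidableEq B] {a : R} {g : Matrix B' B R} :
    (∀ i k, a ∣ g i k) ↔ ∀ y, g *ᵥ y ∈ Dv B' a :=
  ⟨fun h _ i => Finset.dvd_sum fun k _ => (h i k).mul_right _,
    fun h i k => by simpa using h (Pi.single k 1) i⟩

namespace QData

variable (D : QData V) (a : R)
  (x : ∀ u v : V, (u ⟶ v) → Matrix (Fin (D.d v)) (Fin (D.d u)) R)
  (s : ∀ φ : D.F, Matrix (Fin (D.d (D.base φ))) (Fin (D.d (D.base φ))) R)

/-- All relations hold modulo `a`. -/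
def Rel : Prop :=
  (∀ (u v v' w : V) (e₁ : u ⟶ v) (q : Path v v') (e₂ : v' ⟶ w), D.c u = D.c w →
    (∀ z ∈ q.vertices, D.c z ≠ D.c u) → ∀ i k, a ∣ (x _ _ e₂ * pathMat x q * x _ _ e₁) i k) ∧
  ∀ (φ : D.F) (u v : V) (e₁ : u ⟶ v) (q : Path v (D.base φ)), D.c u = false →
    (∀ z ∈ q.vertices, D.c z = true) → ∀ i k, a ∣ (s φ * pathMat x q * x _ _ e₁) i k

/-- The closure conditions on a graded submodule. -/
structure Gr (K : ∀ v, Submodule R (Fin (D.d v) → R)) : Prop where
  tt : ∀ u v (e : u ⟶ v), D.c u = true → D.c v = true → ∀ y ∈ K u, x _ _ e *ᵥ y ∈ K v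
  ff : ∀ u v (e : u ⟶ v), D.c u = false → D.c v = false → ∀ y ∈ K v, (x _ _ e)ᵀ *ᵥ y ∈ K u
  ft : ∀ u v (e : u ⟶ v), D.c u = false → D.c v = true →
    (∀ y, x _ _ e *ᵥ y ∈ K v) ∧ ∀ y, (x _ _ e)ᵀ *ᵥ y ∈ K u
  tf : ∀ u v (e : u ⟶ v), D.c u = true → D.c v = false →
    (∀ y ∈ K u, x _ _ e *ᵥ y ∈ Dv _ a) ∧ ∀ y ∈ K v, (x _ _ e)ᵀ *ᵥ y ∈ Dv _ a
  fm : ∀ φ, D.c (D.base φ) = true → ∀ y ∈ K (D.base φ), s φ *ᵥ y ∈ Dv _ a

theorem rel_iff : D.Rel a x s ↔ ∃ K, D.Gr a x s K := by
  constructor
  · rintro ⟨h1, h2⟩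
    let K₁ : ∀ v, Submodule R (Fin (D.d v) → R) := fun v =>
      (⨅ (v' : V) (w : V) (q : Path v v') (e : v' ⟶ w) (_ : D.c w = false)
        (_ : ∀ z ∈ q.vertices, D.c z = true), (Dv _ a).comap (x _ _ e * pathMat x q).mulVecLin) ⊓
      ⨅ (φ : D.F) (q : Path v (D.base φ)) (_ : ∀ z ∈ q.vertices, D.c z = true),
        (Dv _ a).comap (s φ * pathMat x q).mulVecLin
    let K₂ : ∀ v, Submodule R (Fin (D.d v) → R) := fun v =>
      ⨅ (u : V) (v' : V) (e : u ⟶ v') (q : Path v' v) (_ : D.c u = true)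
        (_ : ∀ z ∈ q.vertices, D.c z = false), (Dv _ a).comap (pathMat x q * x _ _ e)ᵀ.mulVecLin
    have hv : ∀ {u v w : V} (e : u ⟶ v) (q : Path v w) {b : Bool}, D.c u = b →
        (∀ z ∈ q.vertices, D.c z = b) → ∀ z ∈ (e.toPath.comp q).vertices, D.c z = b := by
      intro u v w e q b h h' z hz
      simp only [Path.vertices_comp, Path.vertices_toPath, List.mem_append] at hz
      rcases hz with hz | hz
      · obtain rfl : z = u := by simpa using hz
        exact h
      · exact h' z hz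
    have hp : ∀ {u v w : V} (e : u ⟶ v) (q : Path v w),
        pathMat x (e.toPath.comp q) = pathMat x q * x _ _ e := fun e q => by
      rw [pathMat_comp]; simp [Hom.toPath, pathMat]
    refine ⟨fun v => if D.c v then K₁ v else K₂ v, ?_, ?_, ?_, ?_, ?_⟩
    all_goals
      simp +contextual only [if_true, Bool.false_eq_true, if_false, K₁, K₂, Submodule.mem_inf,
        Submodule.mem_iInf, Submodule.mem_comap, mulVecLin_apply]
    · intro u v e hu _ y hy
      refine ⟨fun v' w q e' b1 b2 => ?_, fun φ q b2 => ?_⟩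
      · have := hy.1 v' w _ e' b1 (hv e q hu b2)
        rwa [hp, ← Matrix.mul_assoc, ← mulVec_mulVec] at this
      · have := hy.2 φ _ (hv e q hu b2)
        rwa [hp, ← Matrix.mul_assoc, ← mulVec_mulVec] at this
    · intro u v e _ hv y hy u' v' e' q b1 b2
      have := hy u' v' e' (q.cons e) b1 fun z hz => by
        rcases (Path.mem_vertices_cons _ _).1 hz with h | rfl
        exacts [b2 z h, hv]
      rwa [pathMat, Matrix.mul_assoc, transpose_mul, ← mulVec_mulVec] at this
    · intro u v e hu hv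
      refine ⟨fun y => ⟨fun v' w q e' b1 b2 => ?_, fun φ q b2 => ?_⟩,
        fun y u' v' e' q b1 b2 => ?_⟩ <;> rw [mulVec_mulVec]
      · exact entries_iff.1 (h1 u v v' w e q e' (hu.trans b1.symm) fun z hz => by
          simp [b2 z hz, hu]) y
      · exact entries_iff.1 (h2 φ u v e q hu b2) y
      · rw [← transpose_mul, ← Matrix.mul_assoc]
        exact entries_iff.1 (fun i k => h1 u' v' u v e' q e (b1.trans hv.symm)
          (fun z hz => by simp [b2 z hz, b1]) k i) y
    · intro u v e hu hv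
      exact ⟨fun y hy => by simpa [pathMat] using hy.1 u v .nil e hv (by simpa using hu),
        fun y hy => by simpa [pathMat] using hy u v e .nil hu (by simpa using hv)⟩
    · intro φ h y hy
      simpa [pathMat] using hy.2 φ .nil (by simpa using h)
  · rintro ⟨K, H⟩
    have k1 : ∀ {u v : V} (e : u ⟶ v), D.c u = false → ∀ {w : V} (q : Path v w),
        (∀ z ∈ q.vertices, D.c z = true) → ∀ y, (pathMat x q * x _ _ e) *ᵥ y ∈ K w := by
      intro u v e hu w q
      induction q with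
      | nil => exact fun h y => by simpa [pathMat] using (H.ft u v e hu (by simpa using h)).1 y
      | cons q e' ih =>
        intro h y
        have h' := fun z hz => h z ((Path.mem_vertices_cons _ _).2 (Or.inl hz))
        rw [pathMat, Matrix.mul_assoc, ← mulVec_mulVec]
        exact H.tt _ _ e' (h' _ q.end_mem_vertices) (h _ (Path.end_mem_vertices _)) _ (ih h' y)
    have k2 : ∀ {u v : V} (e : u ⟶ v), D.c u = true → ∀ {w : V} (q : Path v w),
        (∀ z ∈ q.vertices, D.c z = false) → ∀ y ∈ K w, (pathMat x q * x _ _ e)ᵀ *ᵥ y ∈ Dv _ a := by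
      intro u v e hu w q
      induction q with
      | nil => exact fun h y hy => by simpa [pathMat] using (H.tf u v e hu (by simpa using h)).2 y hy
      | cons q e' ih =>
        intro h y hy
        have h' := fun z hz => h z ((Path.mem_vertices_cons _ _).2 (Or.inl hz))
        rw [pathMat, Matrix.mul_assoc, transpose_mul, ← mulVec_mulVec]
        exact ih h' _ (H.ff _ _ e' (h' _ q.end_mem_vertices) (h _ (Path.end_mem_vertices _)) _ hy)
    refine ⟨fun u v v' w e₁ q e₂ b1 b2 => ?_, fun φ u v e₁ q b1 b2 => entries_iff.2 fun y => ?_⟩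
    · cases hu : D.c u
      · have b3 : ∀ z ∈ q.vertices, D.c z = true := fun z hz => by simpa [hu] using b2 z hz
        refine entries_iff.2 fun y => ?_
        rw [Matrix.mul_assoc, ← mulVec_mulVec]
        exact (H.tf _ _ e₂ (b3 _ q.end_mem_vertices) (b1 ▸ hu)).1 _ (k1 e₁ hu q b3 y)
      · have b3 : ∀ z ∈ q.vertices, D.c z = false := fun z hz => by simpa [hu] using b2 z hz
        intro i k
        refine entries_iff (g := (x _ _ e₂ * pathMat x q * x _ _ e₁)ᵀ) |>.2 (fun y => ?_) k i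
        rw [Matrix.mul_assoc, transpose_mul, ← mulVec_mulVec]
        exact k2 e₁ hu q b3 _ ((H.ft _ _ e₂ (b3 _ q.end_mem_vertices) (b1 ▸ hu)).2 y)
    · rw [Matrix.mul_assoc, ← mulVec_mulVec]
      exact H.fm φ (b2 _ q.end_mem_vertices) _ (k1 e₁ b1 q b2 y)

end QData

end Pool.Agent.P.MP_9321be_ag
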