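import Pool.Agent.P.MP_9321be_ag.Flat

/-!
The motivic monodromy conjecture for path ideals of coloured quivers.
-/

namespace Pool.Agent.P.MP_9321be_ag

open Matrix Quiver MvPolynomial

variable {V : Type} [Quiver.{0} V] {R : Type} [CommRing R] [Algebra ℂ R]

namespace QData

variable (D : QData V)

/-- The values of the variables. -/
def prj : (((Arr V ⊕ Arr V) ⊕ Arr V ⊕ D.F) × D.Nd × D.Nd → R) →ₗ[ℂ] D.Vars → R where
  toFun x := Sum.elim (fun p => D.xa x p.1 p.2.1 p.2.2.1 p.2.2.2.1 p.2.2.2.2)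
    fun p => D.xs x p.1 p.2.1.1 p.2.1.2
  map_add' x y := by
    funext s
    rcases s with p | p
    · rfl
    · change D.xs (x + y) _ _ _ = D.xs x _ _ _ + D.xs y _ _ _
      simp only [xs, of_apply, Pi.add_apply]; ring
  map_smul' c x := by
    funext s
    rcases s with p | p
    · rfl
    · change D.xs (c • x) _ _ _ = c • D.xs x _ _ _
      simp [xs]

theorem prj_inl (x : ((Arr V ⊕ Arr V) ⊕ Arr V ⊕ D.F) × D.Nd × D.Nd → R) (u v e i k) :
    D.prj x (.inl ⟨u, v, e, i, k⟩) = D.xa x u v e i k := rfl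

theorem prj_inr (x : ((Arr V ⊕ Arr V) ⊕ Arr V ⊕ D.F) × D.Nd × D.Nd → R) (φ i k h) :
    D.prj x (.inr ⟨φ, (i, k), h⟩) = D.xs x φ i k := rfl

theorem prj_surjective [Fintype V] [DecidableEq V] : Function.Surjective (D.prj (R := R)) := by
  intro z
  let Y : ∀ e : Arr V, Matrix (Fin (D.d e.2.1)) (Fin (D.d e.1)) R := fun e =>
    of fun i k => z (.inl ⟨e.1, e.2.1, e.2.2, i, k⟩)
  let W : ∀ φ : D.F, Matrix (Fin (D.d (D.base φ))) (Fin (D.d (D.base φ))) R := fun φ =>
    of fun i k => if h : i < k ∨ D.skew φ = false ∧ i = k then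
      (if i = k then (2 : ℂ)⁻¹ else 1) • z (.inr ⟨φ, (i, k), h⟩) else 0
  let G : ∀ e : Arr V, Matrix D.Nd D.Nd R := fun e => D.inc R e.2.1 * Y e * (D.inc R e.1)ᵀ
  have key : ∀ {u v : V} (Y : Matrix (Fin (D.d v)) (Fin (D.d u)) R) i k,
      (D.inc R v * Y * (D.inc R u)ᵀ) ⟨v, i⟩ ⟨u, k⟩ = Y i k := fun Y i k => by
    simp [inc, mul_apply]
  refine ⟨fun s => Sum.elim (Sum.elim (fun e => if D.c e.1 then G e else (G e)ᵀ) G)
    (Sum.elim G fun φ => D.inc R (D.base φ) * W φ * (D.inc R (D.base φ))ᵀ) s.1 s.2.1 s.2.2, ?_⟩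
  funext s
  rcases s with ⟨u, v, e, i, k⟩ | ⟨φ, ⟨i, k⟩, h⟩
  · rw [prj_inl]
    cases hu : D.c u <;> cases hv : D.c v <;> simp [xa, pos, hu, hv, G, key, Y, -transpose_mul]
  · rw [prj_inr]
    simp only [xs, of_apply, Sum.elim_inr, key, W, dif_pos h]
    by_cases h1 : i = k
    · subst h1
      have h2 : D.skew φ = false := by simpa using h
      simp only [Sys.sg, sys, Sum.elim_inr, h2, if_true, dif_pos h, Bool.false_eq_true, if_false,
        one_mul, and_self, or_true, dif_pos]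
      rw [← add_smul]; norm_num
    · have h2 : i < k := h.resolve_right fun h => h1 h.2
      rw [dif_neg (by rintro (h | h); exacts [lt_asymm h h2, h1 h.2.symm])]
      simp [h1]

theorem mem_iff (a t : R) (x : ((Arr V ⊕ Arr V) ⊕ Arr V ⊕ D.F) × D.Nd × D.Nd → R) :
    (∀ r ∈ D.ideal, a ∣ aeval (fun i => t * D.prj x i) r) ↔
      D.Rel a (fun u v e => t • D.xa x u v e) fun φ => t • D.xs x φ := by
  set f : MvPolynomial D.Vars ℂ →+* R := (aeval fun i => t * D.prj x i).toRingHom with hf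
  have h1 : (fun u v e => (D.arr u v e).map f) = fun u v e => t • D.xa x u v e := by
    funext u v e
    ext i k
    exact aeval_X _ _
  have h2 : ∀ φ, (D.form φ).map f = t • D.xs x φ := by
    intro φ
    ext i k
    simp only [form, symMat, map_apply, of_apply, Matrix.smul_apply, smul_eq_mul]
    by_cases a1 : i < k ∨ D.skew φ = false ∧ i = k
    · rw [dif_pos a1]; exact aeval_X _ _
    rw [dif_neg a1]
    by_cases a2 : k < i
    · have : f (X (.inr ⟨φ, (k, i), Or.inl a2⟩)) = t * D.xs x φ k i := aeval_X _ _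
      rw [dif_pos a2, map_mul, this]
      cases h : D.skew φ <;> simp [xs, Sys.sg, sys, h] <;> ring
    · obtain rfl : i = k := le_antisymm (not_lt.1 a2) (not_lt.1 fun h => a1 (Or.inl h))
      have : D.skew φ = true := by simpa using a1
      simp [xs, Sys.sg, sys, this]
  have h3 : ∀ u v e, (D.arr u v e).map f = t • D.xa x u v e := fun u v e =>
    congrFun (congrFun (congrFun h1 u) v) e
  have h4 : (∀ r ∈ D.ideal, a ∣ f r) ↔ D.ideal ≤ (Ideal.span {a}).comap f := by
    simp [SetLike.le_def, Ideal.mem_span_singleton]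
  refine h4.trans ?_
  rw [ideal, pathIdeal, Ideal.span_le, Set.union_subset_iff]
  refine and_congr ⟨fun h u v v' w e₁ q e₂ b1 b2 i k => ?_, ?_⟩
    ⟨fun h φ u v e₁ q b1 b2 i k => ?_, ?_⟩
  · have := Ideal.mem_span_singleton.1 (h ⟨u, v, v', w, e₁, q, e₂, i, k, b1, b2, rfl⟩)
    rwa [← map_apply (f := f), Matrix.map_mul, Matrix.map_mul, pathMat_map, h1, h3, h3] at this
  · rintro h _ ⟨u, v, v', w, e₁, q, e₂, i, k, b1, b2, rfl⟩
    refine Ideal.mem_span_singleton.2 ?_
    rw [← map_apply (f := f), Matrix.map_mul, Matrix.map_mul, pathMat_map, h1, h3, h3]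
    exact h u v v' w e₁ q e₂ b1 b2 i k
  · have := Ideal.mem_span_singleton.1 (h ⟨φ, u, v, e₁, q, i, k, b1, b2, rfl⟩)
    rwa [← map_apply (f := f), Matrix.map_mul, Matrix.map_mul, pathMat_map, h1, h2, h3] at this
  · rintro h _ ⟨φ, u, v, e₁, q, i, k, b1, b2, rfl⟩
    refine Ideal.mem_span_singleton.2 ?_
    rw [← map_apply (f := f), Matrix.map_mul, Matrix.map_mul, pathMat_map, h1, h2, h3]
    exact h φ u v e₁ q b1 b2 i k

theorem conjecture [Finite V] [∀ u v : V, Finite (u ⟶ v)] [Finite D.F] {J : Type} [Fintype J]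
    (g : J → MvPolynomial D.Vars ℂ) (hg : Ideal.span (Set.range g) = D.ideal)
    (hf : ∑ j, X (Sum.inr j) * rename Sum.inl (g j) ≠ 0) :
    MonodromyConjecture (∑ j, X (Sum.inr j) * rename Sum.inl (g j)) := by
  classical
  cases nonempty_fintype V
  cases nonempty_fintype D.F
  haveI : ∀ u v : V, Fintype (u ⟶ v) := fun u v => Fintype.ofFinite _
  have key : ∀ {R : Type} [CommRing R] [Algebra ℂ R] (a t : R) x,
      (∀ j, a ∣ aeval (fun i => t * D.prj x i) (g j)) ↔ D.sys.Cond t a x ∅ ∅ ∅ ∅ := by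
    intro R _ _ a t x
    rw [cond_iff, ← mem_iff, ← hg]
    refine ⟨fun h r hr => ?_, fun h j => h _ (Ideal.subset_span ⟨j, rfl⟩)⟩
    obtain ⟨c, rfl⟩ := Ideal.mem_span_range_iff_exists_fun.1 hr
    rw [map_sum]
    exact Finset.dvd_sum fun j _ => by rw [map_mul]; exact (h j).mul_left _
  have hp : D.sys.Pos ∅ ∅ := by
    by_contra h
    obtain ⟨x, hx⟩ := D.prj_surjective (R := MvPolynomial D.Vars ℂ) X
    have := (key 0 1 x).2 (D.sys.cond_of_not_pos h _ _ _)
    simp only [hx, one_mul, aeval_X_left_apply, zero_dvd_iff] at this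
    simp [this] at hf
  refine conjecture_of_rat g ((D.sys.rat_phi ∅ 1 ∅ ∅ none (by simp) (by simp)
    (fun σ _ i k _ _ h => by simp at h) (Or.inr ⟨rfl, hp⟩)).congr fun n L _ => ?_) hf
  rw [← pr_surj D.prj D.prj_surjective (cons_forall fun j =>
    (CFM.aeval (fun i => (CFM.const _).mul (CFM.id.apply i)) _).cons_dvd _)]
  exact pr_congr fun x => key _ _ x

end QData

end Pool.Agent.P.MP_9321be_ag
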