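import Pool.Agent.P.MP_9321be_ag.Defs

/-!
The number one is a monodromy eigenvalue at every zero of a nonzero polynomial.
-/

namespace Pool.Agent.P.MP_9321be_ag

open MvPolynomial CategoryTheory AlgebraicTopology Topology Filter

theorem hasEigenvalue_one {Y : Type} [TopologicalSpace Y] (y : Y) (T : C(Y, Y)) :
    Module.End.HasEigenvalue
      (((singularHomologyFunctor (ModuleCat.{0} ℂ) 0).obj
        (ModuleCat.of ℂ ℂ)).map (TopCat.ofHom T)).hom.dualMap 1 := by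
  set H := (singularHomologyFunctor (ModuleCat.{0} ℂ) 0).obj (ModuleCat.of ℂ ℂ) with hH
  let pt : TopCat.{0} := TopCat.of PUnit
  let c : TopCat.of Y ⟶ pt := TopCat.ofHom (ContinuousMap.const _ PUnit.unit)
  let s : pt ⟶ TopCat.of Y := TopCat.ofHom (ContinuousMap.const _ y)
  haveI : PathConnectedSpace pt := inferInstanceAs (PathConnectedSpace PUnit)
  let e : H.obj pt ⟶ ModuleCat.of ℂ ℂ := TopCat.singularHomology₀ε pt (ModuleCat.of ℂ ℂ)
  haveI : IsIso e := inferInstanceAs (IsIso (TopCat.singularHomology₀ε pt (ModuleCat.of ℂ ℂ)))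
  let φ : Module.Dual ℂ (H.obj (TopCat.of Y)) := (H.map c ≫ e).hom
  have h1 : TopCat.ofHom T ≫ c = c := rfl
  have h2 : s ≫ c = 𝟙 pt := by ext
  refine Module.End.hasEigenvalue_of_hasEigenvector (x := φ) ⟨?_, ?_⟩
  · rw [Module.End.mem_eigenspace_iff, one_smul]
    change (H.map (TopCat.ofHom T) ≫ H.map c ≫ e).hom = _
    rw [← Functor.map_comp_assoc, h1]
  · intro h0
    have h3 : inv e ≫ H.map s ≫ H.map c ≫ e = 𝟙 _ := by
      rw [← Functor.map_comp_assoc, h2]; simp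
    have h4 := congrArg (fun g : ModuleCat.of ℂ ℂ ⟶ ModuleCat.of ℂ ℂ => g.hom (1 : ℂ)) h3
    have h5 : φ ((H.map s).hom ((inv e).hom (1 : ℂ))) = 1 := h4
    rw [h0] at h5
    simp at h5

theorem exists_ne_zero_near {σ : Type} [Finite σ] {f : MvPolynomial σ ℂ} (hf : f ≠ 0) (x : σ → ℂ)
    {U : Set (σ → ℂ)} (hU : U ∈ 𝓝 x) : ∃ z ∈ U, eval z f ≠ 0 := by
  by_contra hcon
  push Not at hcon
  rw [nhds_pi, Filter.mem_pi] at hU
  obtain ⟨I, -, t, ht, hsub⟩ := hU
  refine hf (MvPolynomial.funext_set t (fun i => infinite_of_mem_nhds (x i) (ht i)) ?_)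
  intro z hz
  simpa using hcon z (hsub fun i _ => hz i trivial)

theorem isMonodromyEigenvalue_one {σ : Type} [Finite σ] {f : MvPolynomial σ ℂ} (hf : f ≠ 0)
    {x : σ → ℂ} (hx : eval x f = 0) : IsMonodromyEigenvalue f x 1 := by
  refine ⟨1, one_pos, fun ε hε => ⟨1, one_pos, fun δ hδ => ⟨0, ?_⟩⟩⟩
  cases nonempty_fintype σ
  have c1 : Continuous fun z : σ → ℂ => ∑ i, ‖z i - x i‖ ^ 2 := by fun_prop
  have c2 : Continuous fun z : σ → ℂ => ‖eval z f‖ := (MvPolynomial.continuous_eval f).norm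
  have u1 : {z : σ → ℂ | ∑ i, ‖z i - x i‖ ^ 2 < ε ^ 2} ∈ 𝓝 x :=
    (isOpen_lt c1 continuous_const).mem_nhds (by simpa using pow_pos hε.1 2)
  have u2 : {z : σ → ℂ | ‖eval z f‖ < δ} ∈ 𝓝 x :=
    (isOpen_lt c2 continuous_const).mem_nhds (by simpa [hx] using hδ.1)
  obtain ⟨z, ⟨hz1, hz2⟩, hz⟩ := exists_ne_zero_near hf x (inter_mem u1 u2)
  refine hasEigenvalue_one (Y := milnorFibre f x ε δ) ⟨(z, Complex.log (eval z f)), ?_, ?_, ?_⟩ _
  · rw [finsum_eq_sum_of_fintype]; exact hz1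
  · exact (Complex.exp_log hz).symm
  · rw [Complex.log_re]
    exact Real.log_lt_log (norm_pos_iff.2 hz) hz2

end Pool.Agent.P.MP_9321be_ag
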