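import Pool.Agent.P.MP_9321be_ag.CF

/-!
The motivic measure on finite-dimensional complex vector spaces.
-/

namespace Pool.Agent.P.MP_9321be_ag

open Set Module

variable {E E' F : Type} [AddCommGroup E] [Module ℂ E] [FiniteDimensional ℂ E]
  [AddCommGroup E'] [Module ℂ E'] [FiniteDimensional ℂ E']
  [AddCommGroup F] [Module ℂ F] [FiniteDimensional ℂ F]

/-- The class of a constructible subset of a vector space. -/
noncomputable def nu (C : Set E) : K0 := mu ((finBasis ℂ E).equivFun.symm ⁻¹' C)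

theorem CFM.equiv {E E' : Type} [AddCommGroup E] [Module ℂ E] [AddCommGroup E'] [Module ℂ E']
    (L : E ≃ₗ[ℂ] E') : CFM fun x => L x := CFM.lin L.toLinearMap

theorem nu_eq_mu {ι : Type} [Finite ι] {C : Set E} {D : Set (ι → ℂ)} (hC : Cons C) (hD : Cons D)
    {φ : E → ι → ℂ} {ψ : (ι → ℂ) → E} (hφ : CFM φ) (hψ : CFM ψ)
    (h3 : MapsTo φ C D) (h4 : MapsTo ψ D C) (h5 : InvOn ψ φ C D) : nu C = mu D := by
  rw [nu]
  generalize (finBasis ℂ E).equivFun = b
  refine mu_inv (hC.preimage (CFM.equiv b.symm)) hD (φ := fun x => φ (b.symm x))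
    (ψ := fun y => b (ψ y)) (hφ.comp (CFM.equiv b.symm)) ((CFM.equiv b).comp hψ)
    (fun x hx => h3 hx) (fun y hy => by simpa using h4 hy) ⟨fun x hx => ?_, fun y hy => ?_⟩
  · simp only [h5.1 (mem_preimage.1 hx), LinearEquiv.apply_symm_apply]
  · simp only [LinearEquiv.symm_apply_apply, h5.2 hy]

theorem nu_inv {C : Set E} {D : Set E'} (hC : Cons C) (hD : Cons D)
    {φ : E → E'} {ψ : E' → E} (hφ : CFM φ) (hψ : CFM ψ)
    (h3 : MapsTo φ C D) (h4 : MapsTo ψ D C) (h5 : InvOn ψ φ C D) : nu C = nu D := by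
  rw [nu.eq_1 D]
  generalize (finBasis ℂ E').equivFun = b
  refine nu_eq_mu hC (hD.preimage (CFM.equiv b.symm)) (φ := fun x => b (φ x))
    (ψ := fun y => ψ (b.symm y)) ((CFM.equiv b).comp hφ) (hψ.comp (CFM.equiv b.symm))
    (fun x hx => by simpa using h3 hx) (fun y hy => h4 hy) ⟨fun x hx => ?_, fun y hy => ?_⟩
  · simp only [LinearEquiv.symm_apply_apply, h5.1 hx]
  · simp only [h5.2 (mem_preimage.1 hy), LinearEquiv.apply_symm_apply]

theorem nu_pi {ι : Type} [Finite ι] {C : Set (ι → ℂ)} (hC : Cons C) : nu C = mu C :=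
  nu_eq_mu hC hC CFM.id CFM.id (mapsTo_id _) (mapsTo_id _) ⟨fun _ _ => rfl, fun _ _ => rfl⟩

theorem nu_union {C D : Set E} (hC : Cons C) (hD : Cons D) (h : Disjoint C D) :
    nu (C ∪ D) = nu C + nu D :=
  mu_union (hC.preimage (CFM.equiv _)).con (hD.preimage (CFM.equiv _)).con (h.preimage _)

theorem Cons.prod {E E' : Type} [AddCommGroup E] [Module ℂ E] [AddCommGroup E'] [Module ℂ E']
    {C : Set E} {D : Set E'} (hC : Cons C) (hD : Cons D) : Cons (C ×ˢ D) :=
  (hC.preimage CFM.id.fst).inter (hD.preimage CFM.id.snd)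

theorem nu_prod {C : Set E} {D : Set E'} (hC : Cons C) (hD : Cons D) :
    nu (C ×ˢ D) = nu C * nu D := by
  set b := (finBasis ℂ E).equivFun
  set b' := (finBasis ℂ E').equivFun
  have h1 := hC.preimage (CFM.equiv b.symm)
  have h2 := hD.preimage (CFM.equiv b'.symm)
  rw [nu, nu, nu, ← mu_prod h1.con h2.con]
  have c1 : CFM fun z : Fin (finrank ℂ E) ⊕ Fin (finrank ℂ E') → ℂ => z ∘ Sum.inl :=
    CFM.pi fun i => CFM.id.apply _
  have c2 : CFM fun z : Fin (finrank ℂ E) ⊕ Fin (finrank ℂ E') → ℂ => z ∘ Sum.inr :=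
    CFM.pi fun i => CFM.id.apply _
  refine nu_eq_mu (hC.prod hD) ((h1.preimage c1).inter (h2.preimage c2))
    (φ := fun x => Sum.elim (b x.1) (b' x.2))
    (ψ := fun z => (b.symm (z ∘ Sum.inl), b'.symm (z ∘ Sum.inr))) (CFM.pi ?_)
    (((CFM.equiv b.symm).comp c1).prodMk ((CFM.equiv b'.symm).comp c2))
    (fun x hx => by simpa using hx) (fun y hy => hy) ⟨fun x _ => by simp, fun y _ => by simp⟩
  rintro (i | i)
  · exact ((CFM.equiv b).comp CFM.id.fst).apply i
  · exact ((CFM.equiv b').comp CFM.id.snd).apply i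

theorem nu_equiv (L : E ≃ₗ[ℂ] E') {D : Set E'} (hD : Cons D) : nu (L ⁻¹' D) = nu D :=
  nu_inv (hD.preimage (CFM.equiv L)) hD (CFM.equiv L) (CFM.equiv L.symm) (fun _ hx => hx)
    (fun y hy => by simpa using hy) ⟨fun x _ => by simp, fun y _ => by simp⟩

theorem nu_univ : nu (univ : Set E) = lef ^ finrank ℂ E := by
  have h1 : nu (univ : Set ℂ) = lef := by
    rw [← nu_equiv (LinearEquiv.funUnique Unit ℂ ℂ) cons_univ, preimage_univ, nu_pi cons_univ,
      mu_of_locClosed cons_univ.con locClosed_univ, lef]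
  have h2 : ∀ n, nu (univ : Set (Fin n → ℂ)) = lef ^ n := by
    intro n
    induction n with
    | zero => rw [nu_pi cons_univ, mu_of_locClosed cons_univ.con locClosed_univ, cls_point,
        pow_zero]
    | succ n ih =>
      rw [← nu_equiv (Fin.consLinearEquiv ℂ fun _ : Fin (n + 1) => ℂ) cons_univ, preimage_univ,
        ← univ_prod_univ, nu_prod cons_univ cons_univ, h1, ih, pow_succ']
  rw [← h2, ← nu_equiv (finBasis ℂ E).equivFun cons_univ, preimage_univ]

/-- The normalised motivic measure. -/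
noncomputable def pr (C : Set E) : MM := algebraMap K0 MM (nu C) * lefInv ^ finrank ℂ E

theorem lef_mul_inv : algebraMap K0 MM lef * lefInv = 1 := IsLocalization.Away.mul_invSelf lef

theorem pr_univ : pr (univ : Set E) = 1 := by
  rw [pr, nu_univ, map_pow, ← mul_pow, lef_mul_inv, one_pow]

theorem pr_split {Φ Ψ : E → Prop} (hΦ : Cons {x | Φ x}) (hΨ : Cons {x | Ψ x}) :
    pr {x | Φ x} = pr {x | Ψ x ∧ Φ x} + pr {x | ¬ Ψ x ∧ Φ x} := by
  rw [pr, pr, pr, ← add_mul, ← map_add, ← nu_union (hΨ.and hΦ) (hΨ.not.and hΦ)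
    (disjoint_left.2 fun x h1 h2 => h2.1 h1.1)]
  congr 3
  ext x; simp only [mem_ofPred_eq, mem_union]; tauto

theorem pr_empty : pr (∅ : Set E) = 0 := by
  have := pr_split (E := E) (Φ := fun _ => False) (Ψ := fun _ => False) (cons_const _)
    (cons_const _)
  simpa using this

theorem pr_congr {Φ Ψ : E → Prop} (h : ∀ x, Φ x ↔ Ψ x) : pr {x | Φ x} = pr {x | Ψ x} := by
  congr 1; ext x; exact h x

theorem pr_inv {C D : Set E} (hC : Cons C) (hD : Cons D) {φ ψ : E → E} (hφ : CFM φ) (hψ : CFM ψ)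
    (h3 : MapsTo φ C D) (h4 : MapsTo ψ D C) (h5 : InvOn ψ φ C D) : pr C = pr D := by
  rw [pr, pr, nu_inv hC hD hφ hψ h3 h4 h5]

theorem pr_equiv (L : E ≃ₗ[ℂ] E') {D : Set E'} (hD : Cons D) : pr (L ⁻¹' D) = pr D := by
  rw [pr, pr, nu_equiv L hD, L.finrank_eq]

theorem pr_prod {C : Set E} {D : Set E'} (hC : Cons C) (hD : Cons D) :
    pr (C ×ˢ D) = pr C * pr D := by
  rw [pr, pr, pr, nu_prod hC hD, finrank_prod, map_mul, pow_add]; ring

theorem pr_indep (π : E →ₗ[ℂ] F) (s : F →ₗ[ℂ] E) (h : ∀ z, π (s z) = z) {D : Set F} (hD : Cons D)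
    {Φ : E → Prop} (hΦ : Cons {x | Φ x}) (hi : ∀ x z, Φ x → Φ (x + s z)) :
    pr {x | π x ∈ D ∧ Φ x} = pr D * pr {x | Φ x} := by
  let L : (F × LinearMap.ker π) ≃ₗ[ℂ] E :=
    { toFun := fun p => p.2 + s p.1
      invFun := fun x => (π x, ⟨x - s (π x), by simp [h]⟩)
      map_add' := fun p q => by simp; abel
      map_smul' := fun c p => by simp
      left_inv := fun p => by
        have : π p.2 = 0 := p.2.2
        ext <;> simp [h, this]
      right_inv := fun x => by simp }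
  have hL : ∀ p, L p = p.2 + s p.1 := fun p => rfl
  have key : ∀ {D : Set F}, Cons D →
      pr {x | π x ∈ D ∧ Φ x} = pr D * pr {y : LinearMap.ker π | Φ y} := by
    intro D hD
    have c1 : Cons {y : LinearMap.ker π | Φ y} := hΦ.preimage (CFM.lin (LinearMap.ker π).subtype)
    have c2 : Cons {x | π x ∈ D ∧ Φ x} := (hD.preimage (CFM.lin π)).and hΦ
    rw [← pr_prod hD c1, ← pr_equiv L c2]
    congr 1
    ext p
    have : π p.2 = 0 := p.2.2
    simp only [mem_preimage, mem_ofPred_eq, hL, map_add, this, h, zero_add, mem_prod,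
      Submodule.subtype_apply]
    refine and_congr_right fun _ => ⟨fun h1 => ?_, fun h1 => hi _ _ h1⟩
    simpa using hi _ (-p.1) h1
  rw [key hD]
  have := key cons_univ
  simp only [mem_univ, true_and, pr_univ, one_mul] at this
  rw [this]

theorem pr_surj (π : E →ₗ[ℂ] F) (h : Function.Surjective π) {D : Set F} (hD : Cons D) :
    pr (π ⁻¹' D) = pr D := by
  obtain ⟨s, hs⟩ := π.exists_rightInverse_of_surjective (LinearMap.range_eq_top.2 h)
  have := pr_indep π s (fun z => LinearMap.congr_fun hs z) hD (Φ := fun _ => True)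
    (cons_const _) (fun _ _ _ => trivial)
  simp only [and_true, ofPred_true, pr_univ, mul_one] at this
  exact this

theorem pr_range (j : E →ₗ[ℂ] F) (m : E' →ₗ[ℂ] F) (h : LinearMap.range j = LinearMap.range m)
    {D : Set F} (hD : Cons D) : pr (j ⁻¹' D) = pr (m ⁻¹' D) := by
  have h1 := pr_surj j.rangeRestrict j.surjective_rangeRestrict
    (hD.preimage (CFM.lin (LinearMap.range j).subtype))
  have h2 := pr_surj (m.codRestrict (LinearMap.range j) fun x => h ▸ LinearMap.mem_range_self m x)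
    (fun y => by
      obtain ⟨x, hx⟩ : y.1 ∈ LinearMap.range m := h ▸ y.2
      exact ⟨x, Subtype.ext hx⟩)
    (hD.preimage (CFM.lin (LinearMap.range j).subtype))
  exact h1.trans h2.symm

theorem cons_submodule (W : Submodule ℂ E) : Cons {x | x ∈ W} := by
  simpa using (CFM.lin W.mkQ).cons_zero

theorem pr_sub (W : Submodule ℂ E) {k : ℕ} (hk : finrank ℂ W + k = finrank ℂ E) {Φ : E → Prop}
    (hΦ : Cons {x | Φ x}) : pr {x | x ∈ W ∧ Φ x} = lefInv ^ k * pr {y : W | Φ y} := by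
  obtain ⟨r, hr⟩ := W.subtype.exists_leftInverse_of_injective W.ker_subtype
  have hr' : ∀ y : W, r y = y := fun y => LinearMap.congr_fun hr y
  have : nu {x | x ∈ W ∧ Φ x} = nu {y : W | Φ y} :=
    nu_inv ((cons_submodule W).and hΦ) (hΦ.preimage (CFM.lin W.subtype)) (CFM.lin r)
      (CFM.lin W.subtype) (fun x hx => by
        have := hr' ⟨x, hx.1⟩
        simp only at this
        simp only [mem_ofPred_eq, this]
        exact hx.2) (fun y hy => ⟨y.2, hy⟩)
      ⟨fun x hx => by simpa using congrArg Subtype.val (hr' ⟨x, hx.1⟩), fun y _ => hr' y⟩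
  rw [pr, pr, this, ← hk, pow_add]; ring

theorem pr_scale (m : E' →ₗ[ℂ] E) (φ : E →ₗ[ℂ] F) (hφ : Function.Surjective φ)
    (h : LinearMap.range m = LinearMap.ker φ) {Φ : E → Prop} (hΦ : Cons {x | Φ x}) :
    pr {x | φ x = 0 ∧ Φ x} = lefInv ^ finrank ℂ F * pr {x | Φ (m x)} := by
  have h1 := pr_sub (LinearMap.ker φ) (k := finrank ℂ F) (by
    have := φ.finrank_range_add_finrank_ker
    rw [LinearMap.range_eq_top.2 hφ, finrank_top] at this
    omega) hΦ
  have h2 := pr_range m (LinearMap.ker φ).subtype (by rw [h, Submodule.range_subtype]) hΦ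
  exact h1.trans (congrArg _ h2.symm)

theorem pr_flow {Φ : E → Prop} (hΦ : Cons {x | Φ x}) {φ : E → ℂ} (hφ : CF φ) {v : E → E}
    (hv : CFM v) (h1 : ∀ x (a : ℂ), Φ x → Φ (x + a • v x))
    (h2 : ∀ x (a : ℂ), Φ x → v (x + a • v x) = v x)
    (h3 : ∀ x (a : ℂ), Φ x → φ (x + a • v x) = φ x + a) :
    pr {x | φ x = 0 ∧ Φ x} = lefInv * pr {x | Φ x} := by
  have h0 : Cons {x | φ x = 0 ∧ Φ x} := Cons.and ⟨φ, hφ, rfl⟩ hΦ
  have : nu {x | Φ x} = nu ({x | φ x = 0 ∧ Φ x} ×ˢ (univ : Set ℂ)) := by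
    refine nu_inv hΦ (h0.prod cons_univ) (φ := fun x => (x + (-φ x) • v x, φ x))
      (ψ := fun p => p.1 + p.2 • v p.1) ((CFM.id.add (CFM.smul hφ.neg hv)).prodMk hφ.cfm)
      (CFM.id.fst.add (CFM.smul CFM.id.snd.cf (hv.comp CFM.id.fst)))
      (fun x hx => ⟨⟨by rw [h3 x _ hx]; simp, h1 x _ hx⟩, trivial⟩) (fun p hp => h1 _ _ hp.1.2)
      ⟨fun x hx => ?_, fun p hp => ?_⟩
    · simp only [h2 x _ hx]; simp
    · simp only [h2 _ _ hp.1.2, h3 _ _ hp.1.2, hp.1.1]; simp
  rw [pr, pr, this, nu_prod h0 cons_univ, nu_univ, finrank_self, pow_one, map_mul]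
  linear_combination (-(algebraMap K0 MM (nu {x | φ x = 0 ∧ Φ x}) * lefInv ^ finrank ℂ E)) *
    lef_mul_inv

theorem CFM.ite {E E' : Type} [AddCommGroup E] [Module ℂ E] [AddCommGroup E'] [Module ℂ E']
    {Φ : E → Prop} [DecidablePred Φ] (hΦ : Cons {x | Φ x}) {φ ψ : E → E'} (h : CFM φ)
    (h' : CFM ψ) : CFM fun x => if Φ x then φ x else ψ x := by
  obtain ⟨c, hc, e⟩ := hΦ
  have : (fun x => if Φ x then φ x else ψ x) = fun x => φ x + (c x * (c x)⁻¹) • (ψ x - φ x) := by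
    funext x
    have : Φ x ↔ c x = 0 := Set.ext_iff.1 e x
    by_cases hx : c x = 0 <;> simp [this, hx]
  rw [this]
  exact h.add (CFM.smul (hc.mul hc.inv) (h'.sub h))

theorem exists_choice {E E' α : Type} [AddCommGroup E] [Module ℂ E] [AddCommGroup E']
    [Module ℂ E'] (s : Finset α) {G : α → E → Prop} (hG : ∀ a, Cons {x | G a x}) {r : α → E → E'}
    (hr : ∀ a, CFM (r a)) :
    ∃ v : E → E', CFM v ∧ ∀ x, (∃ a ∈ s, G a x) → ∃ a ∈ s, G a x ∧ v x = r a x := by
  classical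
  induction s using Finset.induction_on with
  | empty => exact ⟨_, CFM.const 0, by simp⟩
  | insert a s _ ih =>
    obtain ⟨v, hv, H⟩ := ih
    refine ⟨_, CFM.ite (hG a) (hr a) hv, fun x hx => ?_⟩
    by_cases h : G a x
    · exact ⟨a, Finset.mem_insert_self _ _, h, if_pos h⟩
    · obtain ⟨b, hb, hb'⟩ := hx
      obtain ⟨c, hc, hc'⟩ := H x ⟨b, (Finset.mem_insert.1 hb).resolve_left
        (fun e => h (e ▸ hb')), hb'⟩
      exact ⟨c, Finset.mem_insert_of_mem hc, hc'.1, (if_neg h).trans hc'.2⟩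

end Pool.Agent.P.MP_9321be_ag
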