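import Pool.Agent.P.MP_9321be_ag.Step2

/-!
Rationality of the generating series with integral poles.
-/

namespace Pool.Agent.P.MP_9321be_ag

open PowerSeries

/-- Power series with denominators `1 - 𝕃 ^ (-σ) T`, `σ ≥ b`. -/
noncomputable def Adm (b : ℕ) : Subalgebra MM (PowerSeries MM) :=
  Algebra.adjoin MM ({X} ∪ {g | ∃ σ, b ≤ σ ∧ (1 - C (lefInv ^ σ) * X) * g = 1})

theorem X_mem_Adm (b : ℕ) : X ∈ Adm b := Algebra.subset_adjoin (Or.inl rfl)

theorem C_mem_Adm (b : ℕ) (c : MM) : C c ∈ Adm b := (Adm b).algebraMap_mem c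

theorem Adm_mono {b b' : ℕ} (h : b ≤ b') : Adm b' ≤ Adm b :=
  Algebra.adjoin_mono (Set.union_subset_union_right _ fun _ ⟨σ, h1, h2⟩ => ⟨σ, h.trans h1, h2⟩)

theorem rescale_C (a c : MM) : rescale a (C c) = C c := by
  ext n
  rw [coeff_rescale, coeff_C]
  split_ifs with h <;> simp [h]

theorem rescale_mem {b r : ℕ} {G : PowerSeries MM} (h : G ∈ Adm b) :
    rescale (lefInv ^ r) G ∈ Adm (b + r) := by
  induction h using Algebra.adjoin_induction with
  | mem g hg =>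
    rcases hg with rfl | ⟨σ, h1, h2⟩
    · rw [rescale_X]; exact mul_mem (C_mem_Adm _ _) (X_mem_Adm _)
    · refine Algebra.subset_adjoin (Or.inr ⟨σ + r, by omega, ?_⟩)
      have := congrArg (rescale (lefInv ^ r)) h2
      rwa [map_mul, map_sub, map_one, map_mul, rescale_C, rescale_X, ← mul_assoc, ← map_mul,
        ← pow_add] at this
  | algebraMap c => exact (rescale_C _ c).symm ▸ C_mem_Adm _ c
  | add _ _ _ _ h1 h2 => rw [map_add]; exact add_mem h1 h2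
  | mul _ _ _ _ h1 h2 => rw [map_mul]; exact mul_mem h1 h2

/-- The family `F n L` is given by the coefficients of an admissible series. -/
def Rat (b : ℕ) (F : ℕ → ℕ → MM) : Prop :=
  ∃ G ∈ Adm b, ∀ n L, L ≤ n + 1 → F n L = coeff L G

variable {b : ℕ} {F F' : ℕ → ℕ → MM}

theorem Rat.mono {b' : ℕ} (h : Rat b' F) (hb : b ≤ b') : Rat b F := by
  obtain ⟨G, h1, h2⟩ := h
  exact ⟨G, Adm_mono hb h1, h2⟩

theorem Rat.congr (h : Rat b F) (h' : ∀ n L, L ≤ n + 1 → F' n L = F n L) : Rat b F' := by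
  obtain ⟨G, h1, h2⟩ := h
  exact ⟨G, h1, fun n L hL => (h' n L hL).trans (h2 n L hL)⟩

theorem rat_zero : Rat b fun _ _ => 0 := ⟨0, zero_mem _, by simp⟩

theorem Rat.add (h : Rat b F) (h' : Rat b F') : Rat b fun n L => F n L + F' n L := by
  obtain ⟨G, h1, h2⟩ := h
  obtain ⟨G', h1', h2'⟩ := h'
  exact ⟨G + G', add_mem h1 h1', fun n L hL => by simp only [map_add, h2 n L hL, h2' n L hL]⟩

theorem Rat.smul (h : Rat b F) (c : MM) : Rat b fun n L => c * F n L := by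
  obtain ⟨G, h1, h2⟩ := h
  exact ⟨C c * G, mul_mem (C_mem_Adm _ _) h1, fun n L hL => by simp only [coeff_C_mul, h2 n L hL]⟩

theorem Rat.rescale (h : Rat b F) (r : ℕ) :
    Rat (b + r) fun n L => (lefInv ^ r) ^ (L - 1) * F n L := by
  obtain ⟨G, h1, h2⟩ := h
  refine ⟨C (algebraMap K0 MM lef ^ r) * PowerSeries.rescale (lefInv ^ r) G +
    C ((1 - algebraMap K0 MM lef ^ r) * coeff 0 G), add_mem (mul_mem (C_mem_Adm _ _)
      (rescale_mem h1)) (C_mem_Adm _ _), fun n L hL => ?_⟩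
  simp only [h2 n L hL, map_add, coeff_C_mul, coeff_rescale, coeff_C]
  rcases L with _ | L
  · simp only [if_true]; ring
  · have : algebraMap K0 MM lef ^ r * lefInv ^ r = 1 := by rw [← mul_pow, lef_mul_inv, one_pow]
    simp only [Nat.add_sub_cancel, L.succ_ne_zero, if_false, add_zero, pow_succ]
    linear_combination (-(lefInv ^ r) ^ L * coeff (L + 1) G) * this

theorem rat_delta (h0 : ∀ n, F n 0 = 1) (h : ∀ n L, F n (L + 1) = 0) : Rat b F :=
  ⟨1, one_mem _, fun n L _ => by rcases L with _ | L <;> simp [h0, h, coeff_one]⟩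

theorem Rat.shift (h : Rat b F) (h0 : ∀ n, F' n 0 = 1)
    (h' : ∀ n L, L ≤ n → F' n (L + 1) = F n L) : Rat b F' := by
  obtain ⟨G, h1, h2⟩ := h
  refine ⟨1 + X * G, add_mem (one_mem _) (mul_mem (X_mem_Adm _) h1), fun n L hL => ?_⟩
  rcases L with _ | L
  · simp [h0]
  · simp [h' n L (by omega), h2 n L (by omega), coeff_succ_X_mul, coeff_one]

theorem Rat.recur {σ : ℕ} (hb : b ≤ σ) (h : Rat b F) {c : MM} (h0 : ∀ n, F' n 0 = c + F n 0)
    (h' : ∀ n L, L ≤ n → F' n (L + 1) = lefInv ^ σ * F' n L + F n (L + 1)) : Rat b F' := by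
  obtain ⟨G, h1, h2⟩ := h
  have hg := mul_invOfUnit (1 - C (lefInv ^ σ) * X : PowerSeries MM) 1 (by simp)
  set g := invOfUnit (1 - C (lefInv ^ σ) * X : PowerSeries MM) 1
  have e : g * (C c + G) = C (lefInv ^ σ) * (X * (g * (C c + G))) + (C c + G) := by
    linear_combination (C c + G) * hg
  refine ⟨g * (C c + G), mul_mem (Algebra.subset_adjoin (Or.inr ⟨σ, hb, hg⟩))
    (add_mem (C_mem_Adm _ _) h1), fun n L hL => ?_⟩
  induction L with
  | zero => rw [e, h0, h2 n 0 hL]; simp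
  | succ L ih =>
    rw [e, h' n L (by omega), ih (by omega), h2 n _ hL, map_add, coeff_C_mul, coeff_succ_X_mul]
    simp [coeff_C]

variable {B Ar Gm Fm V : Type} [Fintype B] [DecidableEq B] [DecidableEq Ar] [DecidableEq Gm]
  [DecidableEq V] [Fintype Ar] [Fintype Gm] [Fintype Fm] [DecidableEq Fm]

namespace Sys

variable (S : Sys B Ar Gm Fm V)

/-- Vertices from which a nontrivial condition can be reached through free nodes. -/
inductive Good (A : Finset B) : V → Prop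
  | form (i j : B) (φ : Fm) (v : V) : i ∉ A → j ∉ A → S.vtx i = v →
      (S.vtx j = S.fa φ ∧ v = S.fb φ ∨ v = S.fa φ ∧ S.vtx j = S.fb φ) →
      ¬ (S.skew φ ∧ j = i) → Good A v
  | step (i : B) (e : Ar) (v : V) : i ∉ A → S.vtx i = v → S.src e = v → Good A (S.tgt e) → Good A v

/-- The column `c` is active with values in the block `v`. -/
def Head (A : Finset B) (c : (Ar ⊕ Gm) × B) (v : V) : Prop :=
  (∃ e, c.1 = .inl e ∧ c.2 ∈ A ∧ S.vtx c.2 = S.src e ∧ v = S.tgt e) ∨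
    ∃ σ, c.1 = .inr σ ∧ (S.vtx c.2 = S.gb σ ∧ v = S.ga σ ∨ S.vtx c.2 = S.ga σ ∧ v = S.gb σ)

/-- Some active column leads to a nontrivial condition. -/
def Pos (A : Finset B) (Z : Finset ((Ar ⊕ Gm) × B)) : Prop :=
  ∃ c v, c ∉ Z ∧ S.Good A v ∧ S.Head A c v

variable {A : Finset B} {O Z Z' : Finset ((Ar ⊕ Gm) × B)}

theorem Good.free {v : V} (h : S.Good A v) : ∃ i, i ∉ A ∧ S.vtx i = v := by
  cases h with
  | form i _ _ _ h1 _ h2 => exact ⟨i, h1, h2⟩
  | step i _ _ h1 h2 => exact ⟨i, h1, h2⟩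

theorem Pos.insert (h : S.Pos A Z) {i₀ : B} (hI : S.Ix A i₀ = ∅)
    (h1 : ∀ c ∈ Z', c ∈ Z ∨ ∀ v, S.Head A c v → v = S.vtx i₀) (h2 : ∀ e, (.inl e, i₀) ∉ Z') :
    S.Pos (insert i₀ A) Z' := by
  have key : ∀ v, S.Good A v → (v ≠ S.vtx i₀ ∧ S.Good (Insert.insert i₀ A) v) ∨
      ∃ e, S.src e = S.vtx i₀ ∧ S.Good (Insert.insert i₀ A) (S.tgt e) := by
    have hn : ∀ {i}, i ∉ A → i ≠ i₀ → i ∉ Insert.insert i₀ A := by
      intro i a1 a2; simp [a1, a2]
    intro v hv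
    induction hv with
    | form i j φ v a1 a2 a3 a4 a5 =>
      have hx : ∀ p, p ∉ A → (S.vtx p = S.fa φ ∧ S.vtx i₀ = S.fb φ ∨
          S.vtx i₀ = S.fa φ ∧ S.vtx p = S.fb φ) → S.skew φ ∧ p = i₀ := fun p b1 b2 => by
        by_contra b3
        exact Finset.eq_empty_iff_forall_notMem.1 hI (φ, p) (Finset.mem_filter.2
          ⟨Finset.mem_univ _, b1, b2, b3⟩)
      have b1 : v ≠ S.vtx i₀ := by
        rintro rfl
        obtain ⟨c1, rfl⟩ := hx j a2 a4
        exact a5 ⟨c1, (hx i a1 (by rw [a3]; exact a4)).2.symm⟩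
      have b2 : i ≠ i₀ := by rintro rfl; exact b1 a3.symm
      have b3 : j ≠ i₀ := by
        rintro rfl
        exact b2 (hx i a1 (by rw [a3]; exact a4.symm)).2
      exact Or.inl ⟨b1, .form i j φ v (hn a1 b2) (hn a2 b3) a3 a4 a5⟩
    | step i e v a1 a2 a3 _ ih =>
      rcases ih with ih | ih
      · by_cases hv : v = S.vtx i₀
        · exact Or.inr ⟨e, a3.trans hv, ih.2⟩
        · exact Or.inl ⟨hv, .step i e v (hn a1 (by rintro rfl; exact hv a2.symm)) a2 a3 ih.2⟩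
      · exact Or.inr ih
  obtain ⟨c, v, a1, a2, a3⟩ := h
  rcases key _ a2 with ⟨b1, b2⟩ | ⟨e', b1, b2⟩
  · refine ⟨c, v, fun h => (h1 c h).elim a1 fun h' => b1 (h' v a3), b2, a3.imp ?_ id⟩
    rintro ⟨e, c1, c2, c3⟩
    exact ⟨e, c1, Finset.mem_insert_of_mem c2, c3⟩
  · exact ⟨(.inl e', i₀), _, h2 e', b2, Or.inl ⟨e', rfl, Finset.mem_insert_self _ _, b1.symm, rfl⟩⟩

theorem head_row {c₀ : (Ar ⊕ Gm) × B} {s₀ : ((Ar ⊕ Gm) ⊕ Fm) × B × B} (hs : s₀ ∈ S.Jc c₀ A Z) :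
    row A s₀ ∉ A ∧ ∀ v, S.Head A c₀ v → v = S.vtx (row A s₀) := by
  obtain ⟨a, i, k⟩ := s₀
  obtain ⟨-, -, b1, b2, -, b3⟩ := Finset.mem_filter.1 hs
  have b4 := congrArg Prod.snd b2
  obtain ⟨e | σ, k₀⟩ := c₀
  · have hi : i ∉ A := by simpa using b3
    simp only [row, if_neg hi]
    refine ⟨hi, ?_⟩
    rintro v (⟨e', c1, -, -, rfl⟩ | ⟨σ, c1, -⟩)
    · cases c1; exact b1.1.symm
    · cases c1
  · simp only [own, Sum.isRight_inr, true_and, row] at b3 b4 ⊢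
    by_cases hi : i ∈ A
    · rw [if_pos hi] at b4 ⊢
      subst b4
      refine ⟨b3.resolve_left (not_not.2 hi), ?_⟩
      rintro v (⟨e', c1, -⟩ | ⟨σ, c1, c2 | c2⟩) <;> cases c1
      exacts [absurd c2.1 (S.hg _ _ b1.1), c2.2.trans b1.2.symm]
    · rw [if_neg hi] at b4 ⊢
      subst b4
      refine ⟨hi, ?_⟩
      rintro v (⟨e', c1, -⟩ | ⟨σ, c1, c2 | c2⟩) <;> cases c1
      exacts [c2.2.trans b1.1.symm, absurd b1.2 (S.hg _ _ c2.1)]

theorem rat_erase {c₀ : (Ar ⊕ Gm) × B} (hc : c₀ ∈ O) (hO : ∀ e k, (.inl e, k) ∈ O → k ∈ A)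
    (hZ : ∀ c ∈ Z, c.2 ∈ A) (h : ∀ s₀ ∈ S.Jc c₀ A Z, ∃ F, Rat b F ∧ ∀ J ⊆ S.Jc c₀ A Z, ∀ n L,
      L ≤ n + 1 → pr {x : Sp B Ar Gm Fm n | (¬ tt n ∣ x s₀ ∧ ∀ s ∈ J, tt n ∣ x s) ∧
        S.Cond (tt n) (tt n ^ L) x A A O Z} =
      (lefInv ^ J.card - lefInv ^ (insert s₀ J).card) * F n L) : Rat b fun n L =>
      S.Phi n L A O Z - lefInv ^ (S.Jc c₀ A Z).card * S.Phi n L A (O.erase c₀) Z := by
  suffices ∀ J ⊆ S.Jc c₀ A Z, Rat b fun n L => S.Phi n L A O Z - pr {x : Sp B Ar Gm Fm n |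
      (∀ s ∈ J, tt n ∣ x s) ∧ S.Cond (tt n) (tt n ^ L) x A A O Z} from
    (this _ subset_rfl).congr fun n L _ => by rw [S.pr_nonunit hc hO hZ]
  intro J hJ
  induction J using Finset.induction_on with
  | empty => exact rat_zero.congr fun n L _ => by simp [Phi]
  | insert s₀ J _ ihJ =>
    have h1 : J ⊆ S.Jc c₀ A Z := (Finset.subset_insert _ _).trans hJ
    obtain ⟨F, hF, hF'⟩ := h s₀ (hJ (Finset.mem_insert_self _ _))
    refine ((ihJ h1).add (hF.smul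
      (lefInv ^ J.card - lefInv ^ (insert s₀ J).card))).congr fun n L hL => ?_
    have := pr_split ((cons_J J).and (S.cons_cond (A₁ := A) (tt n ^ L) hO hZ))
      ((CFM.id.apply s₀).cons_dvd (tt n))
    simp only [← and_assoc (a := ¬ _)] at this
    rw [hF' J h1 n L hL] at this
    simp only [Finset.forall_mem_insert, and_assoc]
    linear_combination this

theorem rat_phi (A : Finset B) : ∀ (b : ℕ) (O Z : Finset ((Ar ⊕ Gm) × B)) (σ₀ : Option Gm),
    (∀ e k, (.inl e, k) ∈ O → k ∈ A) → (∀ c ∈ Z, c.2 ∈ A) → (∀ σ, some σ ≠ σ₀ → Unif O A σ) →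
    (b = 0 ∨ b = 1 ∧ S.Pos A Z) → Rat b fun n L => S.Phi n L A O Z := by
  induction A using WellFoundedGT.induction with
  | ind A ih =>
  intro b O Z σ₀ hO hZ hU hb
  have s0 : ∀ (A' : Finset B) (O Z' : Finset ((Ar ⊕ Gm) × B)) (σ₀ : Option Gm) (r : ℕ), A ⊂ A' →
      (∀ e k, (.inl e, k) ∈ O → k ∈ A) → (∀ c ∈ Z', c.2 ∈ A') →
      (∀ σ, some σ ≠ σ₀ → Unif O A σ) → (r = 0 → S.Pos A Z → S.Pos A' Z') →
      Rat b fun n L => (lefInv ^ r) ^ (L - 1) * S.Phi n L A' O Z' := by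
    intro A' O Z' σ₀ r a1 a2 a3 a4 a5
    have ih' := fun b => ih A' a1 b O Z' σ₀ (fun e k h => a1.1 (a2 e k h)) a3 fun σ h i k hi hk =>
      a4 σ h i k (fun h => hi (a1.1 h)) fun h => hk (a1.1 h)
    rcases hb with rfl | ⟨rfl, hp⟩
    · exact ((ih' 0 (Or.inl rfl)).rescale _).mono (Nat.zero_le _)
    · by_cases h1 : r = 0
      · exact ((ih' 1 (Or.inr ⟨rfl, a5 h1 hp⟩)).rescale _).mono (by omega)
      · exact ((ih' 0 (Or.inl rfl)).rescale _).mono (by omega)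
  have s1 : ∀ O : Finset ((Ar ⊕ Gm) × B), (∀ e k, (.inl e, k) ∈ O → k ∈ A) → (∀ σ, Unif O A σ) →
      ∀ c ∈ O, c.2 ∈ A → Rat b fun n L =>
      S.Phi n L A O Z - lefInv ^ (S.Jc c A Z).card * S.Phi n L A (O.erase c) Z := by
    intro O hO hU c hc hk
    refine S.rat_erase hc hO hZ fun s₀ hs => ⟨_, ?_, fun J hJ n L hL =>
      S.pr_unit hc hk hO hZ hU hJ hs hL⟩
    obtain ⟨a1, a2⟩ := S.head_row hs
    have a3 : ∀ c' ∈ insert c Z, c'.2 ∈ A := Finset.forall_mem_insert _ _ _ |>.2 ⟨hk, hZ⟩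
    refine s0 _ O _ none _ (Finset.ssubset_insert a1) hO
      (fun c' h => Finset.mem_insert_of_mem (a3 c' h)) (fun σ _ => hU σ) fun h hp =>
      hp.insert S (Finset.card_eq_zero.1 h) (fun c' h => ?_) fun e h => a1 (a3 _ h)
    rcases Finset.mem_insert.1 h with rfl | h
    exacts [Or.inr a2, Or.inl h]
  have s2 : ∀ (σ₀ : Gm) (O : Finset ((Ar ⊕ Gm) × B)), (∀ e k, (.inl e, k) ∈ O → k ∈ A) →
      (∀ σ, σ ≠ σ₀ → Unif O A σ) → ∀ k, (.inr σ₀, k) ∈ O → k ∉ A → Rat b fun n L =>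
      S.Phi n L A O Z - lefInv ^ (S.Jc (.inr σ₀, k) A Z).card *
        S.Phi n L A (O.erase (.inr σ₀, k)) Z := by
    intro σ₀ O hO hU k hc hk
    refine S.rat_erase hc hO hZ fun s₀ hs => ⟨_, ?_, fun J hJ n L hL =>
      S.pr_two hc hk hO hZ hU hJ hs hL⟩
    obtain ⟨a1, a2⟩ := S.head_row hs
    obtain ⟨a, i, k'⟩ := s₀
    obtain ⟨-, -, b1, b2, -⟩ := Finset.mem_filter.1 hs
    have b4 := congrArg Prod.snd b2
    simp only [own, Sum.isRight_inr, true_and] at b4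
    have hi : i ∉ A := fun h => hk (by rw [if_pos h] at b4; exact b4 ▸ h)
    rw [if_neg hi] at b4
    subst b4
    simp only [row, if_neg hi] at a1 a2
    refine s0 _ O _ (some σ₀) _ ((Finset.ssubset_insert hi).trans_subset
      (Finset.subset_insert _ _)) hO ?_ (fun σ h => hU σ fun e => h (e ▸ rfl)) fun h hp => ?_
    · simp only [Finset.mem_insert]
      rintro c (rfl | rfl | hc)
      exacts [Or.inl rfl, Or.inr (Or.inl rfl), Or.inr (Or.inr (hZ c hc))]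
    · refine (hp.insert S (Z' := insert (.inr σ₀, k') Z) (i₀ := i)
        (Finset.card_eq_zero.1 (by simp only at h; omega)) (fun c' h => ?_) fun e h => ?_).insert S
        (Finset.card_eq_zero.1 (by simp only at h; omega)) (fun c' h => ?_) fun e h => ?_
      · rcases Finset.mem_insert.1 h with rfl | h
        exacts [Or.inr a2, Or.inl h]
      · exact hi (hZ _ (by simpa using h))
      · simp only [Finset.mem_insert] at h ⊢
        rcases h with rfl | rfl | h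
        · exact Or.inl (Or.inl rfl)
        · right
          rintro v (⟨e', c1, -⟩ | ⟨σ, c1, c2 | c2⟩) <;> cases c1
          exacts [absurd c2.1 (S.hg _ _ b1.1), c2.2.trans b1.2.symm]
        · exact Or.inl (Or.inr h)
      · exact hk (hZ _ (by simpa using h))
  have s3 : ∀ (σ₀ : Gm) (O : Finset ((Ar ⊕ Gm) × B)), (∀ e k, (.inl e, k) ∈ O → k ∈ A) →
      (∀ σ, σ ≠ σ₀ → Unif O A σ) → ∀ D ⊆ O, (∀ c ∈ D, c.1 = .inr σ₀ ∧ c.2 ∉ A) → Rat b fun n L =>
      S.Phi n L A O Z - lefInv ^ (∑ c ∈ D, (S.Jc c A Z).card) * S.Phi n L A (O \ D) Z := by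
    intro σ₀ O hO hU D
    induction D using Finset.induction_on with
    | empty => exact fun _ _ => rat_zero.congr fun n L _ => by simp
    | insert c D hc ihD =>
      intro h1 h2
      obtain ⟨a, k⟩ := c
      obtain ⟨rfl, a2⟩ := h2 _ (Finset.mem_insert_self _ _)
      have h3 := fun c h => h2 c (Finset.mem_insert_of_mem h)
      refine ((ihD ((Finset.subset_insert _ _).trans h1) h3).add ((s2 σ₀ (O \ D)
        (fun e k h => hO e k (Finset.mem_sdiff.1 h).1) (fun σ hσ i k hi hk h => Finset.mem_sdiff.2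
          ⟨hU σ hσ i k hi hk (Finset.mem_sdiff.1 h).1, fun h' => hσ (Sum.inr.inj (h3 _ h').1)⟩) k
        (Finset.mem_sdiff.2 ⟨h1 (Finset.mem_insert_self _ _), hc⟩) a2).smul
        (lefInv ^ ∑ c ∈ D, (S.Jc c A Z).card))).congr fun n L _ => ?_
      rw [Finset.sum_insert hc, pow_add, Finset.sdiff_insert]
      ring
  have s3' : ∀ (σ₀ : Gm) (O : Finset ((Ar ⊕ Gm) × B)), (∀ σ, σ ≠ σ₀ → Unif O A σ) → ∀ σ,
      Unif (O \ O.filter fun c => c.1 = .inr σ₀ ∧ c.2 ∉ A) A σ := by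
    intro σ₀ O hU σ i k hi hk h
    simp only [Finset.mem_sdiff, Finset.mem_filter, Sum.inr.injEq] at h ⊢
    have : σ ≠ σ₀ := fun e => h.2 ⟨h.1, e, hi⟩
    exact ⟨hU σ this i k hi hk h.1, fun h' => this h'.2.1⟩
  have s4 : ∀ O : Finset ((Ar ⊕ Gm) × B), (∀ e k, (.inl e, k) ∈ O → k ∈ A) → (∀ σ, Unif O A σ) →
      Rat b fun n L =>
      S.Phi n L A O Z - lefInv ^ (∑ c ∈ O, (S.Jc c A Z).card) * S.Phi n L A ∅ Z := by
    intro O
    induction O using Finset.strongInduction with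
    | H O ihO =>
    intro hO hU
    rcases O.eq_empty_or_nonempty with rfl | ⟨c, hc⟩
    · exact rat_zero.congr fun n L _ => by simp
    by_cases hk : c.2 ∈ A
    · refine ((s1 O hO hU c hc hk).add ((ihO _ (Finset.erase_ssubset hc)
        (fun e k h => hO e k (Finset.mem_of_mem_erase h)) fun σ i k hi hk' h => Finset.mem_erase.2
          ⟨by rintro rfl; exact hk' hk, hU σ i k hi hk' (Finset.mem_of_mem_erase h)⟩).smul
        (lefInv ^ (S.Jc c A Z).card))).congr fun n L _ => ?_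
      rw [← Finset.add_sum_erase _ _ hc, pow_add]
      ring
    · obtain ⟨e | σ, k⟩ := c
      · exact absurd (hO e k hc) hk
      refine ((s3 σ O hO (fun σ _ => hU σ) _ (Finset.filter_subset _ _)
        fun c h => (Finset.mem_filter.1 h).2).add ((ihO _ (Finset.sdiff_ssubset
        (Finset.filter_subset _ _) ⟨_, Finset.mem_filter.2 ⟨hc, rfl, hk⟩⟩)
        (fun e k h => hO e k (Finset.mem_sdiff.1 h).1) (s3' σ O fun σ _ => hU σ)).smul
        (lefInv ^ ∑ c ∈ O.filter fun c => c.1 = .inr σ ∧ c.2 ∉ A, (S.Jc c A Z).card))).congr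
        fun n L _ => ?_
      rw [← Finset.sum_sdiff (Finset.filter_subset (fun c => c.1 = .inr σ ∧ c.2 ∉ A) O), pow_add]
      ring
  have hO' : ∀ c : (Ar ⊕ Gm) × B, c ∈ Finset.univ.filter
    (fun c : (Ar ⊕ Gm) × B => c.1.isRight ∨ c.2 ∈ A) ↔ c.1.isRight ∨ c.2 ∈ A := by simp
  set O' := Finset.univ.filter fun c : (Ar ⊕ Gm) × B => c.1.isRight ∨ c.2 ∈ A
  have p1 : ∀ e k, (.inl e, k) ∈ O' ↔ k ∈ A := by simp [hO']
  have p2 : ∀ σ k, (.inr σ, k) ∈ O' := by simp [hO']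
  have s5 : Rat b fun n L => S.Phi n L A O' Z := by
    refine Rat.recur (σ := ∑ c ∈ O', (S.Jc c A Z).card) ?_
      (s4 O' (fun e k => (p1 e k).1) fun σ _ k _ _ _ => p2 σ k)
      (c := lefInv ^ ∑ c ∈ O', (S.Jc c A Z).card) (fun n => by simp [phi_zero]) fun n L hL => by
        simp [S.phi_peel hL p1 p2]
    rcases hb with rfl | ⟨rfl, ⟨a, k⟩, v, a1, a2, a3⟩
    · exact Nat.zero_le _
    obtain ⟨i, b1, b2⟩ := a2.free
    suffices ∃ c ∈ O', (S.Jc c A Z).Nonempty by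
      obtain ⟨c, c1, c2⟩ := this
      exact le_trans (Finset.card_pos.2 c2) (Finset.single_le_sum
        (f := fun c => (S.Jc c A Z).card) (fun _ _ => Nat.zero_le _) c1)
    rcases a3 with ⟨e, rfl, c1, c2, rfl⟩ | ⟨σ, rfl, ⟨c1, rfl⟩ | ⟨c1, rfl⟩⟩
    · exact ⟨_, (p1 e k).2 c1, (.inl (.inl e), i, k), by
        simpa [Jc, Hd, own, b1, b2, a1] using c2⟩
    · exact ⟨_, p2 σ k, (.inl (.inr σ), i, k), by simpa [Jc, Hd, own, b1, b2, a1] using c1⟩
    · by_cases hk : k ∈ A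
      · exact ⟨_, p2 σ k, (.inl (.inr σ), k, i), by simpa [Jc, Hd, own, b1, b2, a1, hk] using c1⟩
      · have : (Sum.inr σ, i) ∉ Z := fun h => b1 (hZ _ h)
        exact ⟨_, p2 σ i, (.inl (.inr σ), k, i), by simpa [Jc, Hd, own, b1, b2, this, hk] using c1⟩
  have s6 : ∀ O : Finset ((Ar ⊕ Gm) × B), (∀ e k, (.inl e, k) ∈ O → k ∈ A) → (∀ σ, Unif O A σ) →
      Rat b fun n L => S.Phi n L A O Z := fun O hO hU =>
    ((s4 O hO hU).add ((s5.shift (fun _ => S.phi_zero) fun n L hL => S.phi_peel hL p1 p2).smul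
      _)).congr fun n L _ => (sub_add_cancel _ _).symm
  rcases σ₀ with _ | σ₀
  · exact s6 O hO fun σ => hU σ (by simp)
  · have hU' : ∀ σ, σ ≠ σ₀ → Unif O A σ := fun σ h => hU σ (by simpa using h)
    exact ((s3 σ₀ O hO hU' _ (Finset.filter_subset _ _) fun c h => (Finset.mem_filter.1 h).2).add
      ((s6 _ (fun e k h => hO e k (Finset.mem_sdiff.1 h).1) (s3' σ₀ O hU')).smul _)).congr
      fun n L _ => (sub_add_cancel _ _).symm

end Sys

end Pool.Agent.P.MP_9321be_ag
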