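import Pool.Agent.P.MP_9321be_ag.Prob

/-!
Truncated polynomial rings.
-/

namespace Pool.Agent.P.MP_9321be_ag

open Set Module Polynomial

/-- The ring `ℂ[t] / t ^ (n + 1)`. -/
def TR (n : ℕ) : Type := AdjoinRoot ((X : ℂ[X]) ^ (n + 1))

noncomputable instance (n : ℕ) : CommRing (TR n) :=
  inferInstanceAs (CommRing (AdjoinRoot ((X : ℂ[X]) ^ (n + 1))))

noncomputable instance (n : ℕ) : Algebra ℂ (TR n) :=
  inferInstanceAs (Algebra ℂ (AdjoinRoot ((X : ℂ[X]) ^ (n + 1))))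

instance (n : ℕ) : FiniteDimensional ℂ (TR n) := (monic_X_pow (n + 1)).finite_adjoinRoot

/-- The quotient map. -/
noncomputable def mkT (n : ℕ) : ℂ[X] →ₐ[ℂ] TR n := AdjoinRoot.mkₐ _

/-- The uniformiser. -/
noncomputable def tt (n : ℕ) : TR n := mkT n X

variable {n : ℕ}

theorem mkT_surjective : Function.Surjective (mkT n) := AdjoinRoot.mk_surjective

theorem mkT_eq_zero {p : ℂ[X]} : mkT n p = 0 ↔ X ^ (n + 1) ∣ p := AdjoinRoot.mk_eq_zero

theorem mk_X_pow (m : ℕ) : mkT n (X ^ m) = tt n ^ m := map_pow _ _ _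

theorem tt_pow : tt n ^ (n + 1) = 0 := by rw [← mk_X_pow, mkT_eq_zero]

theorem dvd_mk {m : ℕ} (hm : m ≤ n + 1) (p : ℂ[X]) : tt n ^ m ∣ mkT n p ↔ X ^ m ∣ p := by
  constructor
  · rintro ⟨y, hy⟩
    obtain ⟨q, rfl⟩ := mkT_surjective y
    rw [← mk_X_pow, ← map_mul, ← sub_eq_zero, ← map_sub, mkT_eq_zero] at hy
    have := ((pow_dvd_pow X hm).trans hy).add (dvd_mul_right (X ^ m) q)
    simpa using this
  · rintro ⟨q, rfl⟩
    exact ⟨mkT n q, by rw [map_mul, mk_X_pow]⟩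

theorem cancel {k m : ℕ} (h : k + m ≤ n + 1) (y : TR n) :
    tt n ^ (k + m) ∣ tt n ^ k * y ↔ tt n ^ m ∣ y := by
  obtain ⟨q, rfl⟩ := mkT_surjective y
  rw [← mk_X_pow k, ← map_mul, dvd_mk h, dvd_mk (by omega), pow_add,
    mul_dvd_mul_iff_left (pow_ne_zero _ X_ne_zero)]

theorem cancel_one {m : ℕ} (h : m ≤ n) (y : TR n) : tt n ^ (m + 1) ∣ tt n * y ↔ tt n ^ m ∣ y := by
  have := cancel (k := 1) (m := m) (n := n) (by omega) y
  rwa [pow_one, add_comm] at this

/-- The constant coefficient. -/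
noncomputable def eps (n : ℕ) : TR n →ₐ[ℂ] ℂ :=
  AdjoinRoot.liftAlgHom _ (AlgHom.id ℂ ℂ) 0 (by simp)

theorem eps_eq_zero (y : TR n) : eps n y = 0 ↔ tt n ∣ y := by
  obtain ⟨q, rfl⟩ := mkT_surjective y
  have := dvd_mk (n := n) (m := 1) (by omega) q
  rw [pow_one, pow_one] at this
  rw [this, X_dvd_iff]
  have : eps n (mkT n q) = q.coeff 0 :=
    (AdjoinRoot.liftAlgHom_mk _ (AlgHom.id ℂ ℂ) 0 _ q).trans (by simp)
  rw [this]

theorem not_tt_dvd_one : ¬ tt n ∣ 1 := by rw [← eps_eq_zero]; simp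

/-- The inverse of a unit. -/
noncomputable def rinv (y : TR n) : TR n :=
  (eps n y)⁻¹ • ∑ k ∈ Finset.range (n + 1), (1 - (eps n y)⁻¹ • y) ^ k

theorem rinv_mul {y : TR n} (h : ¬ tt n ∣ y) : rinv y * y = 1 := by
  rw [← eps_eq_zero] at h
  have h1 : tt n ∣ 1 - (eps n y)⁻¹ • y := by
    rw [← eps_eq_zero]; simp [h]
  have h2 : (1 - (eps n y)⁻¹ • y) ^ (n + 1) = 0 := by
    obtain ⟨z, hz⟩ := h1
    rw [hz, mul_pow, tt_pow, zero_mul]
  have := geom_sum_mul_neg (1 - (eps n y)⁻¹ • y) (n + 1)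
  rw [h2, sub_sub_cancel, sub_zero] at this
  rw [rinv, smul_mul_assoc, ← mul_smul_comm, this]

section

variable {E : Type} [AddCommGroup E] [Module ℂ E]

theorem CFM.rinv {φ : E → TR n} (h : CFM φ) : CFM fun x => rinv (φ x) := by
  have h1 : CF fun x => (eps n (φ x))⁻¹ := (h (eps n).toLinearMap).inv
  exact CFM.smul h1 (CFM.sum _ fun k _ => ((CFM.const 1).sub (CFM.smul h1 h)).pow k)

theorem CFM.cons_dvd {φ : E → TR n} (h : CFM φ) (a : TR n) : Cons {x | a ∣ φ x} := by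
  have := (cons_submodule ((Ideal.span {a}).restrictScalars ℂ)).preimage h
  simpa [Ideal.mem_span_singleton] using this

end

theorem exists_div (a : TR n) : ∃ δ : TR n →ₗ[ℂ] TR n, ∀ y, a ∣ y → a * δ y = y := by
  let f := LinearMap.mulLeft ℂ a
  obtain ⟨g, hg⟩ := f.rangeRestrict.exists_rightInverse_of_surjective f.range_rangeRestrict
  obtain ⟨δ, hδ⟩ := g.exists_extend
  refine ⟨δ, fun y ⟨z, hz⟩ => ?_⟩
  have h1 := LinearMap.congr_fun hδ ⟨y, z, hz.symm⟩
  have h2 := congrArg Subtype.val (LinearMap.congr_fun hg ⟨y, z, hz.symm⟩)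
  simp only [LinearMap.comp_apply, Submodule.subtype_apply] at h1
  rw [h1]
  exact h2

theorem exists_coef {m : ℕ} (hm : m ≤ n) : ∃ l : TR n →ₗ[ℂ] ℂ, l (tt n ^ m) = 1 ∧
    ∀ y, tt n ^ m ∣ y → (l y = 0 ↔ tt n ^ (m + 1) ∣ y) := by
  obtain ⟨δ, hδ⟩ := exists_div (tt n ^ m)
  have key := fun y => cancel (k := m) (m := 1) (n := n) (by omega) y
  refine ⟨(eps n).toLinearMap ∘ₗ δ, ?_, fun y hy => ?_⟩
  · have := (key (δ (tt n ^ m) - 1)).1 (by rw [mul_sub, hδ _ dvd_rfl]; simp)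
    rw [pow_one, ← eps_eq_zero, map_sub, map_one, sub_eq_zero] at this
    exact this
  · conv_rhs => rw [← hδ y hy, key, pow_one, ← eps_eq_zero]
    rfl

theorem pr_tt {σ : Type} [Finite σ] [DecidableEq σ] (J : Finset σ) {Φ : (σ → TR n) → Prop}
    (hΦ : Cons {x | Φ x}) : pr {x | (∀ s ∈ J, tt n ∣ x s) ∧ Φ x} =
      lefInv ^ J.card * pr {x : σ → TR n | Φ fun s => if s ∈ J then tt n * x s else x s} := by
  let m : (σ → TR n) →ₗ[ℂ] σ → TR n := LinearMap.pi fun s =>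
    if s ∈ J then LinearMap.mulLeft ℂ (tt n) ∘ₗ LinearMap.proj s else LinearMap.proj s
  have hm : ∀ x, m x = fun s => if s ∈ J then tt n * x s else x s := fun x => by
    funext s
    by_cases h : s ∈ J <;> simp [m, h]
  let φ : (σ → TR n) →ₗ[ℂ] J → ℂ := LinearMap.pi fun s => (eps n).toLinearMap ∘ₗ LinearMap.proj s.1
  have hφ : ∀ x, φ x = 0 ↔ ∀ s ∈ J, tt n ∣ x s := fun x => by
    simp [φ, funext_iff, eps_eq_zero]
  have := pr_scale m φ (fun z => ⟨fun s => if h : s ∈ J then algebraMap ℂ _ (z ⟨s, h⟩) else 0, by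
    funext s; simp [φ]⟩) (by
      ext x
      rw [LinearMap.mem_ker, hφ]
      constructor
      · rintro ⟨y, rfl⟩ s hs
        simp [hm, hs]
      · intro h
        choose! z hz using h
        refine ⟨fun s => if s ∈ J then z s else x s, ?_⟩
        rw [hm]
        funext s
        by_cases hs : s ∈ J
        · simp [hs, ← hz s hs]
        · simp [hs]) hΦ
  simp only [hφ, hm, finrank_fintype_fun_eq_card, Fintype.card_coe] at this
  exact this

theorem pr_dvd {σ : Type} [Fintype σ] {m : ℕ} (hm : m ≤ n + 1) :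
    pr {x : σ → TR n | ∀ s, tt n ^ m ∣ x s} = (lefInv ^ Fintype.card σ) ^ m := by
  classical
  induction m with
  | zero => simp [pr_univ]
  | succ m ih =>
    have := pr_tt Finset.univ (Φ := fun x : σ → TR n => ∀ s, tt n ^ (m + 1) ∣ x s)
      (cons_forall fun s => (CFM.id.apply s).cons_dvd _)
    simp only [Finset.mem_univ, if_true, cancel_one (show m ≤ n by omega), forall_const,
      Finset.card_univ] at this
    rw [pow_succ' (lefInv ^ _), ← ih (by omega), ← this]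
    exact pr_congr fun x => ⟨fun h => ⟨fun s => (dvd_pow_self _ m.succ_ne_zero).trans (h s), h⟩,
      fun h => h.2⟩

theorem exists_coords (y : TR n) :
    ∃ c : Fin n → ℂ, tt n * y = ∑ k : Fin n, c k • tt n ^ (k.1 + 1) := by
  obtain ⟨q, rfl⟩ := mkT_surjective y
  induction q using Polynomial.induction_on' with
  | add p q hp hq =>
    obtain ⟨c, hc⟩ := hp
    obtain ⟨c', hc'⟩ := hq
    exact ⟨c + c', by simp [mul_add, hc, hc', add_smul, Finset.sum_add_distrib]⟩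
  | monomial k a =>
    have : tt n * mkT n (monomial k a) = a • tt n ^ (k + 1) := by
      rw [← smul_X_eq_monomial, map_smul, mk_X_pow, mul_smul_comm, pow_succ']
    rw [this]
    by_cases hk : k < n
    · exact ⟨Pi.single ⟨k, hk⟩ a, by simp [Pi.single_apply, ite_smul]⟩
    · refine ⟨0, ?_⟩
      rw [pow_eq_zero_of_le (by omega) tt_pow]; simp

end Pool.Agent.P.MP_9321be_ag
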