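import Pool.Agent.P.MP_9321be_ag.Unit2

/-!
The recursion for the measures of the vanishing conditions.
-/

namespace Pool.Agent.P.MP_9321be_ag

open Matrix Set

variable {B Ar Gm Fm V : Type} [Fintype B] [DecidableEq B] [DecidableEq Ar] [DecidableEq Gm]
  [DecidableEq V] [Fintype Ar] [Fintype Gm] [Fintype Fm] [DecidableEq Fm] {n : ℕ}

/-- The space of all matrices of a system. -/
abbrev Sp (B Ar Gm Fm : Type) (n : ℕ) : Type := ((Ar ⊕ Gm) ⊕ Fm) × B × B → TR n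

section

variable {E : Type} [AddCommGroup E] [Module ℂ E]

theorem CFM.matrix {φ : E → Matrix B B (TR n)} (h : ∀ i k, CFM fun x => φ x i k) : CFM φ :=
  CFM.pi (B := fun _ : B => B → TR n) fun i => CFM.pi fun k => h i k

theorem CFM.entry {φ : E → Matrix B B (TR n)} (h : CFM φ) (i k : B) : CFM fun x => φ x i k :=
  (CFM.apply (B := fun _ : B => B → TR n) h i).apply k

theorem CFM.mulVec {φ : E → Matrix B B (TR n)} {y : E → B → TR n} (h : CFM φ) (h' : CFM y) :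
    CFM fun x => φ x *ᵥ y x :=
  CFM.pi fun i => CFM.sum _ fun k _ => (h.entry i k).mul (h'.apply k)

theorem CFM.transpose {φ : E → Matrix B B (TR n)} (h : CFM φ) : CFM fun x => (φ x)ᵀ :=
  CFM.matrix fun i k => h.entry k i

theorem CFM.smulR {c : E → TR n} {φ : E → Matrix B B (TR n)} (hc : CFM c) (h : CFM φ) :
    CFM fun x => c x • φ x := CFM.matrix fun i k => hc.mul (h.entry i k)

theorem CFM.mat {α : Type} {φ : E → α × B × B → TR n} (h : CFM φ) (a : α) :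
    CFM fun x => mat (φ x) a := CFM.matrix fun i k => h.apply (a, i, k)

theorem CFM.cons_Dv {y : E → B → TR n} (h : CFM y) (a : TR n) : Cons {x | y x ∈ Dv B a} :=
  cons_forall fun i => (h.apply i).cons_dvd a

theorem CFM.conj (P : Ar ⊕ Gm → Matrix B B (TR n)) {g g' Y : E → Matrix B B (TR n)} (hg : CFM g)
    (hg' : CFM g') (h : CFM Y) (a : (Ar ⊕ Gm) ⊕ Fm) : CFM fun x => conj P (g x) (g' x) (Y x) a := by
  rcases a with (e | σ) | φ
  · exact (((hg'.mul h).mul (CFM.const _)).mul hg).add (h.mul (CFM.const _))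
  · have := ((CFM.const (1 - P (.inr σ))).mul h).mul (CFM.const (1 - P (.inr σ)))
    exact ((hg'.mul this).mul hg'.transpose).add (h.sub this)
  · exact (hg.transpose.mul h).mul hg

theorem CFM.rankOne {u : E → B → TR n} (hu : CFM u) {c : E → TR n} (hc : CFM c) (i₀ : B) :
    CFM fun x => 1 + c x • vecMulVec (u x) (Pi.single i₀ 1) :=
  (CFM.const _).add (hc.smulR (CFM.matrix fun i _ => (hu.apply i).mul (CFM.const _)))

theorem CFM.iteC {E' : Type} [AddCommGroup E'] [Module ℂ E'] (p : Prop) [Decidable p]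
    {φ ψ : E → E'} (h : CFM φ) (h' : CFM ψ) : CFM fun x => if p then φ x else ψ x := by
  split_ifs
  exacts [h, h']

end

theorem pr_indep' {E F G : Type} [AddCommGroup E] [Module ℂ E] [FiniteDimensional ℂ E]
    [AddCommGroup F] [Module ℂ F] [FiniteDimensional ℂ F] [AddCommGroup G] [Module ℂ G]
    (π : E →ₗ[ℂ] F) (m : G →ₗ[ℂ] E) (h : Function.Surjective (π ∘ₗ m)) {D : Set F} (hD : Cons D)
    {Φ : E → Prop} (hΦ : Cons {x | Φ x}) (hi : ∀ x z, Φ x → Φ (x + m z)) :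
    pr {x | π x ∈ D ∧ Φ x} = pr D * pr {x | Φ x} := by
  obtain ⟨s, hs⟩ := (π ∘ₗ m).exists_rightInverse_of_surjective (LinearMap.range_eq_top.2 h)
  exact pr_indep π (m ∘ₗ s) (fun z => LinearMap.congr_fun hs z) hD hΦ fun x z => hi x _

theorem cancel_pred {L : ℕ} (h : L ≤ n + 1) (y : TR n) :
    tt n ^ L ∣ tt n * y ↔ tt n ^ (L - 1) ∣ y := by
  rcases L with _ | L
  · simp
  · exact cancel_one (by omega) y

theorem cons_J {σ : Type} [Finite σ] (J : Finset σ) :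
    Cons {x : σ → TR n | ∀ s ∈ J, tt n ∣ x s} :=
  cons_forall fun s => (cons_const _).imp ((CFM.id.apply s).cons_dvd _)

theorem cons_U {σ : Type} [Finite σ] (J : Finset σ) (s₀ : σ) :
    Cons {x : σ → TR n | ¬ tt n ∣ x s₀ ∧ ∀ s ∈ J, tt n ∣ x s} :=
  ((CFM.id.apply s₀).cons_dvd (tt n)).not.and (cons_J J)

theorem pr_transfer {σ : Type} [Finite σ] {J : Finset σ} {s₀ : σ} {Φ Φ' : (σ → TR n) → Prop}
    (hΦ : Cons {x | Φ x}) (hΦ' : Cons {x | Φ' x}) {θ θ' : (σ → TR n) → σ → TR n} (c : CFM θ)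
    (c' : CFM θ') (k : ∀ x, ¬ tt n ∣ x s₀ → ∀ s, s = s₀ ∨ s ∈ J → θ x s = x s ∧ θ' x s = x s)
    (i : ∀ x, ¬ tt n ∣ x s₀ → θ' (θ x) = x ∧ θ (θ' x) = x)
    (h : ∀ x, ¬ tt n ∣ x s₀ → (Φ x ↔ Φ' (θ x))) :
    pr {x | (¬ tt n ∣ x s₀ ∧ ∀ s ∈ J, tt n ∣ x s) ∧ Φ x} =
      pr {x | (¬ tt n ∣ x s₀ ∧ ∀ s ∈ J, tt n ∣ x s) ∧ Φ' x} := by
  refine pr_inv ((cons_U J s₀).and hΦ) ((cons_U J s₀).and hΦ') c c' (fun x hx => ⟨⟨?_, ?_⟩, ?_⟩)
    (fun x hx => ?_) ⟨fun x hx => (i x hx.1.1).1, fun x hx => (i x hx.1.1).2⟩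
  · rw [(k x hx.1.1 _ (Or.inl rfl)).1]; exact hx.1.1
  · intro s hs; rw [(k x hx.1.1 _ (Or.inr hs)).1]; exact hx.1.2 s hs
  · exact (h x hx.1.1).1 hx.2
  · have : ¬ tt n ∣ θ' x s₀ := by rw [(k x hx.1.1 _ (Or.inl rfl)).2]; exact hx.1.1
    refine ⟨⟨this, fun s hs => ?_⟩, (h _ this).2 (by rw [(i x hx.1.1).2]; exact hx.2)⟩
    rw [(k x hx.1.1 _ (Or.inr hs)).2]; exact hx.1.2 s hs

theorem pr_U {σ : Type} [Finite σ] [DecidableEq σ] {J : Finset σ} {s₀ : σ}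
    {Φ : (σ → TR n) → Prop} (hΦ : Cons {x | Φ x})
    (h : ∀ x x', (∀ s, s ≠ s₀ → s ∉ J → x s = x' s) → Φ x → Φ x') :
    pr {x | (¬ tt n ∣ x s₀ ∧ ∀ s ∈ J, tt n ∣ x s) ∧ Φ x} =
      (lefInv ^ J.card - lefInv ^ (insert s₀ J).card) * pr {x | Φ x} := by
  have key : ∀ J' ⊆ insert s₀ J, pr {x | (∀ s ∈ J', tt n ∣ x s) ∧ Φ x} =
      lefInv ^ J'.card * pr {x | Φ x} := fun J' hJ' => by
    rw [pr_tt _ hΦ]
    have : ∀ s, s ≠ s₀ → s ∉ J → s ∉ J' := fun s a1 a2 a3 => by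
      rcases Finset.mem_insert.1 (hJ' a3) with a4 | a4
      exacts [a1 a4, a2 a4]
    exact congrArg (_ * ·) (pr_congr fun x => ⟨h _ _ fun s a1 a2 => if_neg (this s a1 a2),
      h _ _ fun s a1 a2 => (if_neg (this s a1 a2)).symm⟩)
  have e3 := pr_split ((cons_J J).and hΦ) ((CFM.id.apply s₀).cons_dvd (tt n))
  have e5 := key _ subset_rfl
  simp only [Finset.forall_mem_insert, and_assoc] at e5 ⊢
  rw [key _ (Finset.subset_insert _ _), e5] at e3
  linear_combination -e3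

namespace Sys

variable (S : Sys B Ar Gm Fm V)

theorem cfm_Xt (t : TR n) (O Z : Finset ((Ar ⊕ Gm) × B)) (e : Ar) :
    CFM fun x : Sp B Ar Gm Fm n => S.Xt t x O Z e :=
  ((CFM.const _).mul (CFM.id.mat _)).mul (CFM.const _)

theorem cfm_Gs (t : TR n) (A : Finset B) (O Z : Finset ((Ar ⊕ Gm) × B)) (σ : Gm) :
    CFM fun x : Sp B Ar Gm Fm n => S.Gs t x A O Z σ := CFM.matrix fun _ _ =>
  CFM.iteC _ ((CFM.id.apply _).mul (CFM.const _))
    (CFM.iteC _ ((CFM.id.apply _).mul (CFM.const _)) (CFM.const _))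

theorem cfm_Sf (A : Finset B) (φ : Fm) : CFM fun x : Sp B Ar Gm Fm n => S.Sf x A φ := by
  have : CFM fun x : Sp B Ar Gm Fm n => S.Sh x A φ :=
    ((CFM.const _).mul (CFM.id.mat _)).mul (CFM.const _)
  exact this.add ((CFM.const _).smulR this.transpose)

theorem cons_Gd (t a : TR n) (A : Finset B) {y : Sp B Ar Gm Fm n → B → TR n} (h : CFM y) :
    Cons {x | y x ∈ S.Gd t a x A} := by
  simp only [mem_Gd]
  exact cons_forall fun φ => CFM.cons_Dv (CFM.mulVec ((CFM.const t).smulR (S.cfm_Sf A φ)) h) a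

variable {A₁ A : Finset B} {O Z : Finset ((Ar ⊕ Gm) × B)}

theorem cons_cond (a : TR n) (hO : ∀ e k, (.inl e, k) ∈ O → k ∈ A) (hZ : ∀ c ∈ Z, c.2 ∈ A) :
    Cons {x | S.Cond (tt n) a x A₁ A O Z} := by
  simp only [S.cond_iff_words tt_pow hO hZ]
  haveI : Finite {w : List Ar // w.length < n + 1} := List.finite_length_lt Ar (n + 1)
  have key : ∀ w : List Ar, CFM fun x : Sp B Ar Gm Fm n =>
      (w.map fun e => S.Xt (tt n) x O Z e * PA A).prod := by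
    intro w
    induction w with
    | nil => exact CFM.const _
    | cons e w ih => exact ((S.cfm_Xt _ _ _ _).mul (CFM.const _)).mul ih
  exact (cons_forall fun k => (cons_const _).imp (S.cons_Gd _ _ _ (CFM.const _))).and
    (cons_forall fun w => (cons_forall fun e => cons_forall fun k => (cons_const _).imp
      (S.cons_Gd _ _ _ (CFM.mulVec ((key _).mul (S.cfm_Xt _ _ _ _)) (CFM.const _)))).and
      (cons_forall fun σ => cons_forall fun k => S.cons_Gd _ _ _ ((key _).mulVec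
        (CFM.pi fun i => (S.cfm_Gs _ _ _ _ _).entry i k))))

/-- The measure of the vanishing condition. -/
noncomputable def Phi (n L : ℕ) (A : Finset B) (O Z : Finset ((Ar ⊕ Gm) × B)) : MM :=
  pr {x : Sp B Ar Gm Fm n | S.Cond (tt n) (tt n ^ L) x A A O Z}

theorem phi_zero : S.Phi n 0 A O Z = 1 := by
  simp [Phi, cond_one, pr_univ]

theorem phi_peel {L : ℕ} (hL : L ≤ n) (hO : ∀ e k, (.inl e, k) ∈ O ↔ k ∈ A)
    (hO' : ∀ σ k, (.inr σ, k) ∈ O) : S.Phi n (L + 1) A ∅ Z = S.Phi n L A O Z := by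
  refine pr_congr fun x => ?_
  rw [pow_succ']
  exact S.cond_peel (fun y hy => (cancel_one hL y).1 (by rwa [pow_succ'])) hO hO'

/-- The position `(i, k)` lies in the block of the arrow or tensor `a`. -/
def Hd (a : Ar ⊕ Gm) (i k : B) : Prop :=
  S.vtx i = Sum.elim S.tgt S.ga a ∧ S.vtx k = Sum.elim S.src S.gb a

instance (a : Ar ⊕ Gm) (i k : B) : Decidable (S.Hd a i k) := instDecidableAnd

/-- The column whose scaling governs an entry. -/
def own (A : Finset B) (a : Ar ⊕ Gm) (i k : B) : (Ar ⊕ Gm) × B :=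
  (a, if a.isRight ∧ i ∈ A then i else k)

/-- The free entries of a column. -/
def Jc (c₀ : (Ar ⊕ Gm) × B) (A : Finset B) (Z : Finset ((Ar ⊕ Gm) × B)) :
    Finset (((Ar ⊕ Gm) ⊕ Fm) × B × B) :=
  Finset.univ.filter fun s => s.1 = .inl c₀.1 ∧ S.Hd c₀.1 s.2.1 s.2.2 ∧
    own A c₀.1 s.2.1 s.2.2 = c₀ ∧ c₀ ∉ Z ∧ (s.2.1 ∉ A ∨ c₀.1.isRight ∧ s.2.2 ∉ A)

theorem Cond.congr' {R : Type} [CommRing R] {t a : R} {x x' : ((Ar ⊕ Gm) ⊕ Fm) × B × B → R}
    {O' Z' : Finset ((Ar ⊕ Gm) × B)} (h : S.Cond t a x A₁ A O Z)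
    (h1 : ∀ a i k, S.Hd a i k → (i ∉ A ∨ a.isRight ∧ k ∉ A) → x (.inl a, i, k) *
      scale t O Z (own A a i k) = x' (.inl a, i, k) * scale t O' Z' (own A a i k))
    (h2 : ∀ φ, S.Sh x A₁ φ = S.Sh x' A₁ φ) : S.Cond t a x' A₁ A O' Z' := by
  refine h.congr S (fun e i k hi => ?_) (fun σ i k hi => ?_) h2
  · simp only [Xt_apply]
    split_ifs with h
    · simpa [own] using h1 (.inl e) i k h (Or.inl hi)
    · rfl
  · simp only [Gs, of_apply]
    split_ifs with h h' h''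
    · simpa [own, hi] using h1 (.inr σ) i k h (Or.inl hi)
    · simpa [own, h''] using h1 (.inr σ) k i h' (Or.inr ⟨rfl, hi⟩)
    · simpa [own, h''] using h1 (.inr σ) k i h' (Or.inl h'')
    · rfl

theorem pr_nonunit {c₀ : (Ar ⊕ Gm) × B} (hc : c₀ ∈ O) (hO : ∀ e k, (.inl e, k) ∈ O → k ∈ A)
    (hZ : ∀ c ∈ Z, c.2 ∈ A) (L : ℕ) : pr {x : Sp B Ar Gm Fm n | (∀ s ∈ S.Jc c₀ A Z, tt n ∣ x s) ∧
      S.Cond (tt n) (tt n ^ L) x A A O Z} =
      lefInv ^ (S.Jc c₀ A Z).card * S.Phi n L A (O.erase c₀) Z := by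
  rw [pr_tt _ (S.cons_cond _ hO hZ)]
  refine congrArg (_ * ·) (pr_congr fun x => ?_)
  have h1 : ∀ a i k, S.Hd a i k → (i ∉ A ∨ a.isRight ∧ k ∉ A) →
      (if (.inl a, i, k) ∈ S.Jc c₀ A Z then tt n * x (.inl a, i, k) else x (.inl a, i, k)) *
      scale (tt n) O Z (own A a i k) = x (.inl a, i, k) * scale (tt n) (O.erase c₀) Z
        (own A a i k) := by
    intro a i k a1 a2
    by_cases h : own A a i k = c₀
    · have h' : a = c₀.1 := congrArg Prod.fst h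
      subst h'
      by_cases a3 : c₀ ∈ Z <;> simp [Jc, scale, h, a1, a2, a3, hc, mul_comm]
    · rw [if_neg]
      · simp [scale, h]
      · intro h'
        obtain ⟨-, b1, -, b2, -⟩ := Finset.mem_filter.1 h'
        obtain rfl : a = c₀.1 := Sum.inl.inj b1
        exact h b2
  have h2 : ∀ φ, S.Sh (fun s => if s ∈ S.Jc c₀ A Z then tt n * x s else x s) A φ = S.Sh x A φ := by
    intro φ; ext i k; simp [Sh_apply, Jc]
  exact ⟨fun h => h.congr' S h1 h2, fun h => h.congr' S (fun a i k a1 a2 => (h1 a i k a1 a2).symm)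
    fun φ => (h2 φ).symm⟩

/-- The entries of the forms that are forced to vanish by a new pivot. -/
def Ix (A : Finset B) (i₀ : B) : Finset (Fm × B) :=
  Finset.univ.filter fun p => p.2 ∉ A ∧ (S.vtx p.2 = S.fa p.1 ∧ S.vtx i₀ = S.fb p.1 ∨
    S.vtx i₀ = S.fa p.1 ∧ S.vtx p.2 = S.fb p.1) ∧ ¬ (S.skew p.1 ∧ p.2 = i₀)

theorem pr_extra {i₀ : B} (hi : i₀ ∉ A) {L : ℕ} (hL : L ≤ n + 1) {Φ : Sp B Ar Gm Fm n → Prop}
    (hΦ : Cons {x | Φ x}) (hinv : ∀ x y, (∀ a i k, y (.inl a, i, k) = 0) →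
      (∀ φ i k, i ≠ i₀ → k ≠ i₀ → y (.inr φ, i, k) = 0) → Φ x → Φ (x + y)) :
    pr {x | (∀ φ i, tt n ^ L ∣ tt n * S.Sf x A φ i i₀) ∧ Φ x} =
      (lefInv ^ (S.Ix A i₀).card) ^ (L - 1) * pr {x | Φ x} := by
  let π : Sp B Ar Gm Fm n →ₗ[ℂ] S.Ix A i₀ → TR n := LinearMap.pi fun p =>
    { toFun := fun x => S.Sf x A p.1.1 p.1.2 i₀
      map_add' := fun x y => by
        simp only [Sf_apply, Sh_apply, Pi.add_apply]; split_ifs <;> ring
      map_smul' := fun c x => by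
        simp only [Sf_apply, Sh_apply, Pi.smul_apply, RingHom.id_apply]
        split_ifs <;> simp }
  have hπ : ∀ x p, π x p = S.Sf x A p.1.1 p.1.2 i₀ := fun x p => rfl
  let m : Sp B Ar Gm Fm n →ₗ[ℂ] Sp B Ar Gm Fm n := LinearMap.pi fun s =>
    if s.1.isRight ∧ (s.2.1 = i₀ ∨ s.2.2 = i₀) then LinearMap.proj s else 0
  have hm : ∀ y s, m y s = if s.1.isRight ∧ (s.2.1 = i₀ ∨ s.2.2 = i₀) then y s else 0 :=
    fun y s => by
      simp only [m, LinearMap.pi_apply]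
      split_ifs <;> rfl
  have hsg : ∀ φ, (S.sg φ : TR n) * S.sg φ = 1 := fun φ => by unfold sg; split_ifs <;> simp
  have := pr_indep' π m (fun z => ?_)
    (D := {z | ∀ p, tt n ^ (L - 1) ∣ z p}) (cons_forall fun p => (CFM.id.apply p).cons_dvd _) hΦ
    fun x z => hinv x _ (fun _ _ _ => by simp [hm]) fun φ i k hi hk => by simp [hm, hi, hk]
  · rw [pr_dvd (by omega), Fintype.card_coe] at this
    rw [← this]
    refine pr_congr fun x => and_congr_left fun _ => ?_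
    simp only [cancel_pred hL, mem_ofPred_eq, hπ]
    refine ⟨fun h p => h _ _, fun h φ i => ?_⟩
    by_cases hp : (φ, i) ∈ S.Ix A i₀
    · exact h ⟨_, hp⟩
    · simp only [Ix, Finset.mem_filter, Finset.mem_univ, true_and] at hp
      by_cases h2 : S.skew φ ∧ i = i₀
      · simp [Sf_apply, sg, h2.1, h2.2]
      · rw [Sf_apply, Sh_apply, Sh_apply, if_neg (by tauto), if_neg (by tauto)]; simp
  · let z' : Fm × B → TR n := fun p => if h : p ∈ S.Ix A i₀ then z ⟨p, h⟩ else 0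
    refine ⟨fun s => Sum.elim (fun _ => 0) (fun φ =>
      if s.2.2 = i₀ ∧ S.vtx s.2.1 = S.fa φ ∧ S.vtx i₀ = S.fb φ then
        (if s.2.1 = i₀ then (2 : ℂ)⁻¹ else 1) • z' (φ, s.2.1)
      else if ¬ (S.vtx s.2.2 = S.fa φ ∧ S.vtx i₀ = S.fb φ) then S.sg φ * z' (φ, s.2.2) else 0) s.1,
      ?_⟩
    funext ⟨⟨φ, i⟩, hp⟩
    have hz : z' (φ, i) = z ⟨(φ, i), hp⟩ := dif_pos hp
    obtain ⟨-, a1, a2, a3⟩ := Finset.mem_filter.1 hp
    rw [LinearMap.comp_apply, hπ]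
    simp only [Sf_apply, Sh_apply, hm, Sum.isRight_inr, true_or, or_true, and_self, if_true,
      Sum.elim_inr, true_and, hz, a1, hi, not_false_eq_true, and_true] at a1 a2 a3 ⊢
    by_cases b1 : S.vtx i = S.fa φ ∧ S.vtx i₀ = S.fb φ
    · by_cases b2 : i = i₀
      · subst b2
        have : S.skew φ = false := by simpa using a3
        simp only [eq_true b1, if_true, sg, this, and_self, Bool.false_eq_true, if_false, one_mul,
          hz]
        rw [← add_smul]; norm_num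
      · simp only [eq_true b1, b2, if_true, if_false, false_and, not_true_eq_false]
        simp
    · have b2 : ¬ (i = i₀ ∧ S.vtx i₀ = S.fa φ ∧ S.vtx i₀ = S.fb φ) := by
        rintro ⟨rfl, h⟩; exact b1 h
      rw [if_neg b1, if_pos (a2.resolve_left b1), if_neg b2, if_pos b1, ← mul_assoc, hsg]
      simp

theorem Sh_add {R : Type} [CommRing R] {i₀ : B} (hi : i₀ ∈ A)
    (x : ((Ar ⊕ Gm) ⊕ Fm) × B × B → R) {y : ((Ar ⊕ Gm) ⊕ Fm) × B × B → R}
    (h : ∀ φ i k, i ≠ i₀ → k ≠ i₀ → y (.inr φ, i, k) = 0) (φ : Fm) :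
    S.Sh x A φ = S.Sh (x + y) A φ := by
  ext i k
  simp only [Sh_apply, Pi.add_apply]
  split_ifs with h'
  · rw [h φ i k (by rintro rfl; exact h'.1.2 hi) (by rintro rfl; exact h'.2.2 hi), add_zero]
  · rfl

theorem pr_dead {A' : Finset B} {Z' : Finset ((Ar ⊕ Gm) × B)} {c₀ : (Ar ⊕ Gm) × B}
    (hO : ∀ e k, (.inl e, k) ∈ O → k ∈ A') (hZ : ∀ c ∈ Z', c.2 ∈ A')
    (hA : ∀ i k, own A c₀.1 i k = c₀ → (i ∉ A' ∨ c₀.1.isRight ∧ k ∉ A') → own A' c₀.1 i k ∈ Z')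
    {J : Finset (((Ar ⊕ Gm) ⊕ Fm) × B × B)} (hJ : J ⊆ S.Jc c₀ A Z)
    {s₀ : ((Ar ⊕ Gm) ⊕ Fm) × B × B} (hs : s₀ ∈ S.Jc c₀ A Z) (L : ℕ) :
    pr {x : Sp B Ar Gm Fm n | (¬ tt n ∣ x s₀ ∧ ∀ s ∈ J, tt n ∣ x s) ∧
      S.Cond (tt n) (tt n ^ L) x A' A' O Z'} =
      (lefInv ^ J.card - lefInv ^ (insert s₀ J).card) * S.Phi n L A' O Z' := by
  refine pr_U (S.cons_cond _ hO hZ) fun x x' h H => ?_
  have h' : ∀ s, s ∉ S.Jc c₀ A Z → x s = x' s := fun s a1 =>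
    h s (by rintro rfl; exact a1 hs) fun a2 => a1 (hJ a2)
  refine H.congr' S (fun a i k _ a2 => ?_) fun φ => ?_
  · by_cases a3 : (Sum.inl a, i, k) ∈ S.Jc c₀ A Z
    · obtain ⟨-, b1, -, b2, -⟩ := Finset.mem_filter.1 a3
      obtain rfl : a = c₀.1 := Sum.inl.inj b1
      simp [scale, hA i k b2 a2]
    · rw [h' _ a3]
  · ext i k
    rw [Sh_apply, Sh_apply, h' _ (by simp [Jc])]

end Sys

end Pool.Agent.P.MP_9321be_ag
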