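import Pool.Agent.P.MP_9321be_ag.Step

/-!
The two pivot steps.
-/

namespace Pool.Agent.P.MP_9321be_ag

open Matrix Set

variable {B Ar Gm Fm V : Type} [Fintype B] [DecidableEq B] [DecidableEq Ar] [DecidableEq Gm]
  [DecidableEq V] [Fintype Ar] [Fintype Gm] [Fintype Fm] [DecidableEq Fm] {n : ℕ}

theorem theta_kept {R : Type} [CommRing R] {c₀ : (Ar ⊕ Gm) × B} {g g' : Matrix B B R}
    (h1 : ∀ a, Ec c₀ a * g = g * Ec c₀ a) (h2 : ∀ a, Ec c₀ a * g' = g' * Ec c₀ a)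
    (h3 : ∀ a, Ec c₀ a * g'ᵀ = g'ᵀ * Ec c₀ a) (x : ((Ar ⊕ Gm) ⊕ Fm) × B × B → R) {i k : B}
    (h : k = c₀.2 ∨ c₀.1.isRight ∧ i = c₀.2) :
    theta (Ec c₀) g g' x (.inl c₀.1, i, k) = x (.inl c₀.1, i, k) := by
  obtain ⟨e | σ, k₀⟩ := c₀
  · obtain rfl : k = k₀ := by simpa using h
    have := congrFun (congrFun (conj_arrow (g' := g') (Y := mat x (.inl (.inl e)))
      (Ec_mul_Ec (Sum.inl e, k) (.inl e)) (h1 _)).1 i) k
    rw [Ec, mul_diagonal, mul_diagonal, if_pos rfl, mul_one, mul_one] at this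
    exact this
  · have h0 : ∀ Y : Matrix B B R, ((1 - Ec (Sum.inr σ, k₀) (Sum.inr σ : Ar ⊕ Gm)) * Y *
        (1 - Ec (Sum.inr σ, k₀) (Sum.inr σ : Ar ⊕ Gm)) : Matrix B B R) i k = 0 := fun Y => by
      rw [Ec, ← diagonal_one, diagonal_sub, mul_diagonal, diagonal_mul]
      rcases h with h | ⟨-, h⟩ <;> simp [h]
    have := conj_tensor (Y := mat x (.inl (.inr σ)))
      (one_sub_idem (Ec_mul_Ec (Sum.inr σ, k₀) (Sum.inr σ : Ar ⊕ Gm)))
      (one_sub_comm (h2 _)) (one_sub_comm (h3 _))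
    change (_ + (_ - _) : Matrix B B R) i k = _
    rw [Matrix.add_apply, Matrix.sub_apply, h0, ← this, h0]
    simp [mat]

namespace Sys

variable (S : Sys B Ar Gm Fm V) {A : Finset B} {O Z : Finset ((Ar ⊕ Gm) × B)}

/-- The row index of an entry of a column. -/
def row (A : Finset B) (s : ((Ar ⊕ Gm) ⊕ Fm) × B × B) : B := if s.2.1 ∈ A then s.2.2 else s.2.1

theorem colv_apply {R : Type} [CommRing R] (t : R) (x : ((Ar ⊕ Gm) ⊕ Fm) × B × B → R)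
    {c : (Ar ⊕ Gm) × B} (hc : c.2 ∈ A) (i : B) : S.colv t x A O Z c i =
      (if S.Hd c.1 i c.2 then x (.inl c.1, i, c.2) else
        if c.1.isRight ∧ S.Hd c.1 c.2 i then x (.inl c.1, c.2, i) else 0) * scale t O Z c := by
  obtain ⟨e | σ, k⟩ := c
  · simp [colv, Xt_apply, Hd]
  · simp only at hc
    simp [colv, Gs, Hd, hc]

theorem pr_unit {c₀ : (Ar ⊕ Gm) × B} (hc : c₀ ∈ O) (hk : c₀.2 ∈ A)
    (hO : ∀ e k, (.inl e, k) ∈ O → k ∈ A) (hZ : ∀ c ∈ Z, c.2 ∈ A) (hU : ∀ σ, Unif O A σ)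
    {J : Finset (((Ar ⊕ Gm) ⊕ Fm) × B × B)} (hJ : J ⊆ S.Jc c₀ A Z)
    {s₀ : ((Ar ⊕ Gm) ⊕ Fm) × B × B} (hs : s₀ ∈ S.Jc c₀ A Z) {L : ℕ} (hL : L ≤ n + 1) :
    pr {x : Sp B Ar Gm Fm n | (¬ tt n ∣ x s₀ ∧ ∀ s ∈ J, tt n ∣ x s) ∧
      S.Cond (tt n) (tt n ^ L) x A A O Z} =
      (lefInv ^ J.card - lefInv ^ (insert s₀ J).card) *
        ((lefInv ^ (S.Ix A (row A s₀)).card) ^ (L - 1) *
          S.Phi n L (insert (row A s₀) A) O (insert c₀ Z)) := by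
  have kept : ∀ s ∈ S.Jc c₀ A Z, ∃ i k, s = (.inl c₀.1, i, k) ∧ S.Hd c₀.1 i k ∧
      (k = c₀.2 ∧ i ∉ A ∨ c₀.1.isRight ∧ i = c₀.2 ∧ k ∉ A) := by
    rintro ⟨a, i, k⟩ h
    obtain ⟨-, rfl, b1, b2, -, b3⟩ := Finset.mem_filter.1 h
    refine ⟨i, k, rfl, b1, ?_⟩
    have := congrArg Prod.snd b2
    simp only [own] at this b3
    split_ifs at this with h'
    · exact Or.inr ⟨h'.1, this, (b3.resolve_left (not_not.2 h'.2)).2⟩
    · exact Or.inl ⟨this, by tauto⟩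
  have hsc : scale (tt n) O Z c₀ = 1 := by
    simp [scale, hc, (Finset.mem_filter.1 hs).2.2.2.2.1]
  set i₀ := row A s₀ with hi₀
  have hx : ∀ a i k, S.Hd a i k → a.isRight → ¬ S.Hd a k i := by
    rintro (e | σ) i k a1 a2 a3
    · simp at a2
    · exact S.hg σ i a1.1 a3.2
  let y : Sp B Ar Gm Fm n → B → TR n := fun x => PA A *ᵥ S.colv (tt n) x A O Z c₀
  have hy : ∀ x i, y x i = if i ∈ A then 0 else if S.Hd c₀.1 i c₀.2 then x (.inl c₀.1, i, c₀.2) else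
      if c₀.1.isRight ∧ S.Hd c₀.1 c₀.2 i then x (.inl c₀.1, c₀.2, i) else 0 := fun x i => by
    simp only [y, PA_apply, S.colv_apply _ _ hk, hsc, mul_one]
  obtain ⟨b2, b3, b4⟩ : i₀ ∉ A ∧ (∀ x, y x i₀ = x s₀) ∧
      ∀ x i, ¬ (S.vtx i = S.vtx i₀ ∧ i ∉ A) → y x i = 0 := by
    obtain ⟨i, k, rfl, a1, ⟨rfl, a2⟩ | ⟨a2, rfl, a3⟩⟩ := kept _ hs
    · have : i₀ = i := if_neg a2
      rw [this]
      refine ⟨a2, fun x => by rw [hy, if_neg a2, if_pos a1], fun x j hj => ?_⟩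
      rw [hy]
      split_ifs with c1 c2 c3
      · rfl
      · exact absurd ⟨c2.1.trans a1.1.symm, c1⟩ hj
      · exact absurd ⟨c3.2.1, a1.2⟩ (hx _ _ _ ⟨c3.2.1, a1.2⟩ c3.1)
      · rfl
    · have : i₀ = k := if_pos hk
      rw [this]
      refine ⟨a3, fun x => by rw [hy, if_neg a3, if_neg (hx _ _ _ a1 a2), if_pos ⟨a2, a1⟩],
        fun x j hj => ?_⟩
      rw [hy]
      split_ifs with c1 c2 c3
      · rfl
      · exact absurd ⟨a1.1, c2.2⟩ (hx _ _ _ ⟨a1.1, c2.2⟩ a2)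
      · exact absurd ⟨c3.2.2.trans a1.2.symm, c1⟩ hj
      · rfl
  have hO' : ∀ e k, (.inl e, k) ∈ O → k ∈ insert i₀ A := fun e k h =>
    Finset.mem_insert_of_mem (hO e k h)
  have hZ' : ∀ c ∈ insert c₀ Z, c.2 ∈ insert i₀ A := fun c h => Finset.mem_insert_of_mem (by
    rcases Finset.mem_insert.1 h with rfl | h
    exacts [hk, hZ c h])
  let u : Sp B Ar Gm Fm n → B → TR n := fun x => y x - Pi.single i₀ 1
  let g : Sp B Ar Gm Fm n → Matrix B B (TR n) := fun x =>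
    1 + (1 : TR n) • vecMulVec (u x) (Pi.single i₀ 1)
  let g' : Sp B Ar Gm Fm n → Matrix B B (TR n) := fun x =>
    1 + (-rinv (y x i₀)) • vecMulVec (u x) (Pi.single i₀ 1)
  have hu : ∀ x i, ¬ (S.vtx i = S.vtx i₀ ∧ i ∉ A) → u x i = 0 := fun x i h => by
    have : i ≠ i₀ := by rintro rfl; exact h ⟨rfl, b2⟩
    simp only [u, Pi.sub_apply, b4 x i h, Pi.single_eq_of_ne this, sub_zero]
  have hu0 : ∀ x, u x i₀ = x s₀ - 1 := fun x => by simp [u, b3]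
  have k1 : ∀ x, S.Blk A (g x) := fun x => S.blk_one_add (hu x) b2 _
  have k2 : ∀ x, S.Blk A (g' x) := fun x => S.blk_one_add (hu x) b2 _
  have k3 : ∀ x, ¬ tt n ∣ x s₀ → g x * g' x = 1 := fun x h =>
    rank_one_inv _ _ _ _ (by rw [hu0, b3]; linear_combination (-1 : TR n) * rinv_mul h)
  have c0 : CFM y := CFM.pi fun i => by
    simp only [hy]
    exact CFM.iteC _ (CFM.const _) (CFM.iteC _ (CFM.id.apply _)
      (CFM.iteC _ (CFM.id.apply _) (CFM.const _)))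
  have c2 : CFM g := (c0.sub (CFM.const _)).rankOne (CFM.const _) i₀
  have c3 : CFM g' := (c0.sub (CFM.const _)).rankOne
    (by simpa using (CFM.const 0).sub (c0.apply i₀).rinv) i₀
  have col1 := fun (x : Sp B Ar Gm Fm n) i k => theta_kept ((k1 x).Ec hk) ((k2 x).Ec hk)
    ((k2 x).transpose.Ec hk) x (i := i) (k := k)
  have col2 := fun (x : Sp B Ar Gm Fm n) i k => theta_kept ((k2 x).Ec hk) ((k1 x).Ec hk)
    ((k1 x).transpose.Ec hk) x (i := i) (k := k)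
  have gg : ∀ x x' : Sp B Ar Gm Fm n, (∀ i k, (k = c₀.2 ∨ c₀.1.isRight ∧ i = c₀.2) →
      x (.inl c₀.1, i, k) = x' (.inl c₀.1, i, k)) → g x = g x' ∧ g' x = g' x' := fun x x' h => by
    have : y x = y x' := funext fun i => by
      rw [hy, hy, h i _ (Or.inl rfl)]
      split_ifs with c1 c2 c3
      exacts [rfl, rfl, h _ _ (Or.inr ⟨c3.1, rfl⟩), rfl]
    simp only [g, g', u, this, and_self]
  rw [pr_transfer (S.cons_cond _ hO hZ) (S.cons_cond (A₁ := A) (tt n ^ L) hO' hZ')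
    (θ := fun x => theta (Ec c₀) (g x) (g' x) x) (θ' := fun x => theta (Ec c₀) (g' x) (g x) x)
    (CFM.pi fun s => (CFM.conj _ c2 c3 (CFM.id.mat _) _).entry _ _)
    (CFM.pi fun s => (CFM.conj _ c3 c2 (CFM.id.mat _) _).entry _ _)]
  · simp only [S.cond_form (A₁ := A) (Finset.mem_insert_self i₀ A)]
    rw [pr_congr fun x => and_left_comm, S.pr_extra b2 hL
      ((cons_U J s₀).and (S.cons_cond (tt n ^ L) hO' hZ')), S.pr_dead hO' hZ' _ hJ hs]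
    · ring
    · intro i k a1 a2
      simp only [own, Finset.mem_insert] at a1 a2 ⊢
      left
      rw [← a1]
      by_cases c1 : i ∈ A
      · simp [c1]
      · have : k ∈ A := by
          have h := congrArg Prod.snd a1
          simp only [c1, and_false, if_false] at h
          exact h ▸ hk
        have : i ≠ i₀ := by tauto
        simp [c1, this]
    · exact fun x y h1 h2 hx => ⟨⟨by
        obtain ⟨i, k, rfl, -⟩ := kept _ hs
        simpa [h1] using hx.1.1, fun s h => by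
        obtain ⟨i, k, rfl, -⟩ := kept _ (hJ h)
        simpa [h1] using hx.1.2 _ h⟩, hx.2.congr' S (fun a i k _ _ => by simp [h1])
        (S.Sh_add (Finset.mem_insert_self _ _) x h2)⟩
  · intro x _ s h
    obtain ⟨i, k, rfl, -, a⟩ := kept s (h.elim (fun e => e ▸ hs) fun h => hJ h)
    exact ⟨col1 x i k (by tauto), col2 x i k (by tauto)⟩
  · intro x h
    obtain ⟨a1, a2⟩ := gg _ _ (col1 x)
    obtain ⟨a3, a4⟩ := gg _ _ (col2 x)
    simp only [a1, a2, a3, a4]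
    constructor <;> funext ⟨a, i, k⟩
    · exact congrFun (congrFun (conj_conj (Ec_mul_Ec c₀) ((k1 x).Ec hk) ((k2 x).Ec hk)
        ((k2 x).transpose.Ec hk) (k3 x h) (mat x a) a) i) k
    · exact congrFun (congrFun (conj_conj (Ec_mul_Ec c₀) ((k2 x).Ec hk) ((k1 x).Ec hk)
        ((k1 x).transpose.Ec hk) (mul_eq_one_comm.1 (k3 x h)) (mat x a) a) i) k
  · intro x h
    refine S.cond_theta (k1 x) (k2 x) (k3 x h) hk hO hZ hU (fun k hk => ?_) ?_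
    · rw [rank_one_mulVec, Pi.single_eq_of_ne (by rintro rfl; exact b2 hk)]; simp
    · rw [rank_one_mulVec]; simp [u, y]

theorem pr_two {σ₀ : Gm} {k₀ : B} (hc : (.inr σ₀, k₀) ∈ O) (hk : k₀ ∉ A)
    (hO : ∀ e k, (.inl e, k) ∈ O → k ∈ A) (hZ : ∀ c ∈ Z, c.2 ∈ A)
    (hU : ∀ σ, σ ≠ σ₀ → Unif O A σ) {J : Finset (((Ar ⊕ Gm) ⊕ Fm) × B × B)}
    (hJ : J ⊆ S.Jc (.inr σ₀, k₀) A Z) {s₀ : ((Ar ⊕ Gm) ⊕ Fm) × B × B}
    (hs : s₀ ∈ S.Jc (.inr σ₀, k₀) A Z) {L : ℕ} (hL : L ≤ n + 1) :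
    pr {x : Sp B Ar Gm Fm n | (¬ tt n ∣ x s₀ ∧ ∀ s ∈ J, tt n ∣ x s) ∧
      S.Cond (tt n) (tt n ^ L) x A A O Z} =
      (lefInv ^ J.card - lefInv ^ (insert s₀ J).card) *
        ((lefInv ^ ((S.Ix A s₀.2.1).card + (S.Ix (insert s₀.2.1 A) k₀).card)) ^ (L - 1) *
          S.Phi n L (insert k₀ (insert s₀.2.1 A)) O
            (insert (.inr σ₀, k₀) (insert (.inr σ₀, s₀.2.1) Z))) := by
  have kept : ∀ s ∈ S.Jc (.inr σ₀, k₀) A Z, ∃ i, s = (.inl (.inr σ₀), i, k₀) ∧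
      S.Hd (.inr σ₀) i k₀ ∧ i ∉ A := by
    rintro ⟨a, i, k⟩ h
    obtain ⟨-, rfl, b1, b2, -, b3⟩ := Finset.mem_filter.1 h
    have := congrArg Prod.snd b2
    simp only [own] at this
    split_ifs at this with h'
    · exact absurd (this ▸ h'.2) hk
    · subst this
      exact ⟨i, rfl, b1, by simpa using h'⟩
  have hsc : scale (tt n) O Z (.inr σ₀, k₀) = 1 := by
    simp [scale, hc, (Finset.mem_filter.1 hs).2.2.2.2.1]
  obtain ⟨i₀, rfl, a1, a2⟩ := kept _ hs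
  have n3 : k₀ ≠ i₀ := by rintro rfl; exact S.hg _ _ a1.1 a1.2
  have hO' : ∀ e k, (.inl e, k) ∈ O → k ∈ insert k₀ (insert i₀ A) := fun e k h =>
    Finset.mem_insert_of_mem (Finset.mem_insert_of_mem (hO e k h))
  have hZ' : ∀ c ∈ insert (Sum.inr σ₀, k₀) (insert (Sum.inr σ₀, i₀) Z),
      c.2 ∈ insert k₀ (insert i₀ A) := by
    simp only [Finset.mem_insert]
    rintro c (rfl | rfl | hc)
    exacts [Or.inl rfl, Or.inr (Or.inl rfl), Or.inr (Or.inr (hZ c hc))]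
  let w : Sp B Ar Gm Fm n → TR n := fun x => rinv (x (.inl (.inr σ₀), i₀, k₀))
  have two : ∀ x : Sp B Ar Gm Fm n, ¬ tt n ∣ x (.inl (.inr σ₀), i₀, k₀) →
      S.Two (tt n) (w x) x A O Z σ₀ i₀ k₀ := fun x h => ⟨a1.1, a1.2, a2, hk, hsc, rinv_mul h⟩
  let θ : TR n → Sp B Ar Gm Fm n → Sp B Ar Gm Fm n := fun ε x =>
    thetaTwo σ₀ A (S.ua (w x) x A σ₀ i₀ k₀) (S.ub (tt n) (w x) x A O Z σ₀ i₀ k₀) i₀ k₀ ε x
  have c0 : CFM w := (CFM.id.apply (Sum.inl (Sum.inr σ₀), i₀, k₀)).rinv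
  have c1 : CFM fun x => S.ua (w x) x A σ₀ i₀ k₀ := CFM.pi fun i =>
    (CFM.iteC _ (c0.mul (CFM.id.apply _)) (CFM.const _)).sub (CFM.const _)
  have c2 : CFM fun x => S.ub (tt n) (w x) x A O Z σ₀ i₀ k₀ := CFM.pi fun i =>
    (CFM.iteC _ (c0.mul ((CFM.id.apply _).mul (CFM.const _))) (CFM.const _)).sub (CFM.const _)
  have c3 : ∀ ε, CFM fun x => gTwo (S.ua (w x) x A σ₀ i₀ k₀) (S.ub (tt n) (w x) x A O Z σ₀ i₀ k₀)
      i₀ k₀ ε := fun ε => (c1.rankOne (CFM.const ε) i₀).mul (c2.rankOne (CFM.const ε) k₀)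
  have c4 : ∀ ε, CFM (θ ε) := fun ε => CFM.pi fun s => CFM.entry (CFM.iteC _ (CFM.matrix
    fun i k => ((CFM.id.mat _).entry i k).sub ((CFM.const ε).mul (CFM.iteC _
      (((CFM.id.mat _).entry i k₀).mul (c2.apply k)) (CFM.iteC _ (CFM.const _)
      ((c1.apply i).mul ((CFM.id.mat _).entry i₀ k))))))
    (CFM.conj _ (c3 _) (c3 _) (CFM.id.mat _) _)) _ _
  have col : ∀ ε x, ¬ tt n ∣ x (.inl (.inr σ₀), i₀, k₀) →
      (∀ i, θ ε x (.inl (.inr σ₀), i, k₀) = x (.inl (.inr σ₀), i, k₀)) ∧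
        ∀ k, θ ε x (.inl (.inr σ₀), i₀, k) = x (.inl (.inr σ₀), i₀, k) := fun ε x h =>
    ⟨fun i => (thetaTwo_self ..).trans (shear_col (two x h).h4 ..),
      fun k => (thetaTwo_self ..).trans (shear_row (two x h).h1 a2 ..)⟩
  have inv : ∀ ε x, ¬ tt n ∣ x (.inl (.inr σ₀), i₀, k₀) → θ (-ε) (θ ε x) = x := fun ε x h => by
    obtain ⟨d1, d2⟩ := col ε x h
    have e0 : w (θ ε x) = w x := by simp only [w, d1]
    have e1 : S.ua (w (θ ε x)) (θ ε x) A σ₀ i₀ k₀ = S.ua (w x) x A σ₀ i₀ k₀ := by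
      funext i; simp only [ua, e0, d1]
    have e2 : S.ub (tt n) (w (θ ε x)) (θ ε x) A O Z σ₀ i₀ k₀ =
        S.ub (tt n) (w x) x A O Z σ₀ i₀ k₀ := by
      funext i; simp only [ub, e0, d2]
    change thetaTwo σ₀ A _ _ i₀ k₀ (-ε) (θ ε x) = x
    rw [e1, e2]
    exact thetaTwo_thetaTwo (two x h).h1 (two x h).h2 (two x h).h3 (two x h).h4 a2 ε x
  rw [pr_transfer (S.cons_cond _ hO hZ) (S.cons_cond (A₁ := A) (tt n ^ L) hO' hZ') (c4 1)
    (c4 (-1)) _ (fun x h => ⟨inv 1 x h, by simpa using inv (-1) x h⟩)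
    fun x h => (two x h).cond hO hZ hU]
  · have hU' : ∀ x y : Sp B Ar Gm Fm n, (∀ a i k, y (.inl a, i, k) = 0) →
        (¬ tt n ∣ x (.inl (.inr σ₀), i₀, k₀) ∧ ∀ s ∈ J, tt n ∣ x s) →
        ¬ tt n ∣ (x + y) (.inl (.inr σ₀), i₀, k₀) ∧ ∀ s ∈ J, tt n ∣ (x + y) s :=
      fun x y h1 hx => ⟨by simpa [h1] using hx.1, fun s h => by
        obtain ⟨i, rfl, -⟩ := kept _ (hJ h)
        simpa [h1] using hx.2 _ h⟩
    simp only [S.cond_form (A₁ := A) (Finset.mem_insert_of_mem (b := k₀)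
      (Finset.mem_insert_self i₀ A))]
    rw [pr_congr fun x => and_left_comm, S.pr_extra a2 hL
      ((cons_U J _).and (S.cons_cond (tt n ^ L) hO' hZ')) fun x y h1 h2 hx =>
        ⟨hU' x y h1 hx.1, hx.2.congr' S (fun a i k _ _ => by simp [h1])
        (S.Sh_add (Finset.mem_insert_self _ _) x h2)⟩]
    simp only [S.cond_form (A₁ := insert i₀ A) (Finset.mem_insert_self k₀ (insert i₀ A))]
    rw [pr_congr fun x => and_left_comm, S.pr_extra (by simp [n3, hk]) hL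
      ((cons_U J _).and (S.cons_cond (tt n ^ L) hO' hZ')) fun x y h1 h2 hx =>
        ⟨hU' x y h1 hx.1, hx.2.congr' S (fun a i k _ _ => by simp [h1])
        (S.Sh_add (Finset.mem_insert_self _ _) x h2)⟩,
      S.pr_dead hO' hZ' _ hJ hs]
    · ring
    · intro i k b1 b2
      have b3 := congrArg Prod.snd b1
      simp only [own, Sum.isRight_inr, true_and] at b3 b2 ⊢
      have : i ∉ A := fun h => hk (by rw [if_pos h] at b3; exact b3 ▸ h)
      rw [if_neg this] at b3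
      subst b3
      rw [if_neg (by simpa using b2)]
      exact Finset.mem_insert_self _ _
  · intro x h s hs'
    obtain ⟨i, rfl, -⟩ := kept s (hs'.elim (fun e => e ▸ hs) fun h => hJ h)
    exact ⟨(col 1 x h).1 i, (col (-1) x h).1 i⟩

end Sys

end Pool.Agent.P.MP_9321be_ag
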