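import Pool.Agent.P.MP_9321be_ag.Trunc

/-!
Systems of random matrices with pivots: the algebraic identities.
-/

namespace Pool.Agent.P.MP_9321be_ag

open Matrix

/-- The combinatorial data: nodes `B` over vertices `V`, arrows, source tensors and forms. -/
structure Sys (B Ar Gm Fm V : Type) where
  vtx : B → V
  src : Ar → V
  tgt : Ar → V
  ga : Gm → V
  gb : Gm → V
  fa : Fm → V
  fb : Fm → V
  skew : Fm → Bool
  hg : ∀ σ i, vtx i = ga σ → vtx i ≠ gb σ

variable {B Ar Gm Fm V : Type} [Fintype B] [DecidableEq B] [DecidableEq Ar] [DecidableEq Gm]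
  [DecidableEq V] {R : Type} [CommRing R]

/-- The matrix attached to an arrow, a tensor or a form. -/
def mat {α : Type} (x : α × B × B → R) (a : α) : Matrix B B R := of fun i k => x (a, i, k)

/-- The scaling factor of a column. -/
def scale {α : Type} [DecidableEq α] (t : R) (O Z : Finset α) (c : α) : R :=
  if c ∈ Z then 0 else if c ∈ O then 1 else t

/-- Vectors divisible by `a`. -/
def Dv (B : Type) (a : R) : Submodule R (B → R) where
  carrier := {y | ∀ i, a ∣ y i}
  add_mem' := fun h h' i => (h i).add (h' i)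
  zero_mem' := fun _ => dvd_zero _
  smul_mem' := fun c _ h i => (h i).mul_left c

/-- The projection killing the coordinates in `A`. -/
def PA (A : Finset B) : Matrix B B R := diagonal fun i => if i ∈ A then 0 else 1

namespace Sys

variable (S : Sys B Ar Gm Fm V)

/-- The masked and scaled matrix of an arrow. -/
def Xt (t : R) (x : ((Ar ⊕ Gm) ⊕ Fm) × B × B → R) (O Z : Finset ((Ar ⊕ Gm) × B)) (e : Ar) :
    Matrix B B R :=
  diagonal (fun i => if S.vtx i = S.tgt e then 1 else 0) * mat x (.inl (.inl e)) *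
    diagonal fun k => if S.vtx k = S.src e then scale t O Z (.inl e, k) else 0

/-- The masked and scaled matrix of a source tensor. -/
def Gs (t : R) (x : ((Ar ⊕ Gm) ⊕ Fm) × B × B → R) (A : Finset B) (O Z : Finset ((Ar ⊕ Gm) × B))
    (σ : Gm) : Matrix B B R := of fun i k =>
  if S.vtx i = S.ga σ ∧ S.vtx k = S.gb σ then x (.inl (.inr σ), i, k) * scale t O Z (.inr σ, k)
  else if S.vtx k = S.ga σ ∧ S.vtx i = S.gb σ then
    x (.inl (.inr σ), k, i) * scale t O Z (.inr σ, if k ∈ A then k else i) else 0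

/-- The sign of a form. -/
def sg (φ : Fm) : R := if S.skew φ then -1 else 1

/-- The masked matrix of a form, before symmetrisation. -/
def Sh (x : ((Ar ⊕ Gm) ⊕ Fm) × B × B → R) (A : Finset B) (φ : Fm) : Matrix B B R :=
  diagonal (fun i => if S.vtx i = S.fa φ ∧ i ∉ A then 1 else 0) * mat x (.inr φ) *
    diagonal fun i => if S.vtx i = S.fb φ ∧ i ∉ A then 1 else 0

/-- The masked matrix of a form. -/
def Sf (x : ((Ar ⊕ Gm) ⊕ Fm) × B × B → R) (A : Finset B) (φ : Fm) : Matrix B B R :=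
  S.Sh x A φ + (S.sg φ : R) • (S.Sh x A φ)ᵀ

/-- The admissible vectors. -/
def Gd (t a : R) (x : ((Ar ⊕ Gm) ⊕ Fm) × B × B → R) (A : Finset B) : Submodule R (B → R) :=
  ⨅ φ, (Dv B a).comap (t • S.Sf x A φ).mulVecLin

/-- The closure conditions on a submodule. -/
def Closed (t : R) (x : ((Ar ⊕ Gm) ⊕ Fm) × B × B → R) (A : Finset B)
    (O Z : Finset ((Ar ⊕ Gm) × B)) (M : Submodule R (B → R)) : Prop :=
  (∀ k ∈ A, Pi.single k 1 ∈ M) ∧ (∀ e, ∀ y ∈ M, S.Xt t x O Z e *ᵥ y ∈ M) ∧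
    ∀ σ y, S.Gs t x A O Z σ *ᵥ y ∈ M

/-- The vanishing condition in a given state. -/
def Cond (t a : R) (x : ((Ar ⊕ Gm) ⊕ Fm) × B × B → R) (A₁ A : Finset B)
    (O Z : Finset ((Ar ⊕ Gm) × B)) : Prop :=
  ∃ M : Submodule R (B → R), M ≤ S.Gd t a x A₁ ∧ S.Closed t x A O Z M

theorem mem_Gd {t a : R} {x : ((Ar ⊕ Gm) ⊕ Fm) × B × B → R} {A : Finset B} {y : B → R} :
    y ∈ S.Gd t a x A ↔ ∀ φ, (t • S.Sf x A φ) *ᵥ y ∈ Dv B a := by
  simp only [Gd, Submodule.mem_comap, mulVecLin_apply, Submodule.mem_iInf]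

theorem Xt_apply (t : R) (x : ((Ar ⊕ Gm) ⊕ Fm) × B × B → R) (O Z : Finset ((Ar ⊕ Gm) × B))
    (e : Ar) (i k : B) : S.Xt t x O Z e i k = if S.vtx i = S.tgt e ∧ S.vtx k = S.src e then
      x (.inl (.inl e), i, k) * scale t O Z (.inl e, k) else 0 := by
  rw [Xt, mul_diagonal, diagonal_mul]
  by_cases h1 : S.vtx i = S.tgt e <;> by_cases h2 : S.vtx k = S.src e <;> simp [h1, h2, mat]

theorem Sh_apply (x : ((Ar ⊕ Gm) ⊕ Fm) × B × B → R) (A : Finset B) (φ : Fm) (i k : B) :
    S.Sh x A φ i k = if (S.vtx i = S.fa φ ∧ i ∉ A) ∧ S.vtx k = S.fb φ ∧ k ∉ A then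
      x (.inr φ, i, k) else 0 := by
  rw [Sh, mul_diagonal, diagonal_mul]
  by_cases h1 : S.vtx i = S.fa φ ∧ i ∉ A <;> by_cases h2 : S.vtx k = S.fb φ ∧ k ∉ A <;>
    simp only [h1, h2, if_true, if_false, and_self, and_false, false_and, not_false_eq_true] <;>
    simp [mat]

theorem Sf_apply (x : ((Ar ⊕ Gm) ⊕ Fm) × B × B → R) (A : Finset B) (φ : Fm) (i k : B) :
    S.Sf x A φ i k = S.Sh x A φ i k + S.sg φ * S.Sh x A φ k i := rfl

end Sys

theorem Dv_mulVec {a : R} {y : B → R} (h : y ∈ Dv B a) (g : Matrix B B R) : g *ᵥ y ∈ Dv B a :=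
  fun i => Finset.dvd_sum fun k _ => (h k).mul_left _

theorem Dv_of_entries {a : R} {g : Matrix B B R} (h : ∀ i k, a ∣ g i k) (y : B → R) :
    g *ᵥ y ∈ Dv B a := fun i => Finset.dvd_sum fun k _ => (h i k).mul_right _

theorem mem_of_supp {A : Finset B} {M : Submodule R (B → R)} (h : ∀ k ∈ A, Pi.single k 1 ∈ M)
    {y : B → R} (hy : ∀ i ∉ A, y i = 0) : y ∈ M := by
  rw [pi_eq_sum_univ' y]
  refine M.sum_mem fun k _ => ?_
  by_cases hk : k ∈ A
  · exact M.smul_mem _ (h k hk)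
  · simp [hy k hk]

theorem PA_apply (A : Finset B) (y : B → R) (i : B) :
    (PA A *ᵥ y) i = if i ∈ A then 0 else y i := by
  rw [PA, mulVec_diagonal]; split_ifs <;> simp

theorem sub_PA_mem {A : Finset B} {M : Submodule R (B → R)} (h : ∀ k ∈ A, Pi.single k 1 ∈ M)
    (y : B → R) : y - PA A *ᵥ y ∈ M :=
  mem_of_supp h fun i hi => by simp [PA_apply, hi]

theorem PA_mem_iff {A : Finset B} {M : Submodule R (B → R)} (h : ∀ k ∈ A, Pi.single k 1 ∈ M)
    {y : B → R} : PA A *ᵥ y ∈ M ↔ y ∈ M :=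
  ⟨fun h' => by simpa using M.add_mem (sub_PA_mem h y) h',
    fun h' => by simpa using M.sub_mem h' (sub_PA_mem h y)⟩

theorem PA_single {A : Finset B} {k : B} (hk : k ∈ A) : PA A *ᵥ Pi.single k (1 : R) = 0 := by
  funext i
  rw [PA_apply]
  split_ifs with h
  · rfl
  · exact Pi.single_eq_of_ne (by rintro rfl; exact h hk) _

theorem mem_congr {A : Finset B} {M : Submodule R (B → R)} (h : ∀ k ∈ A, Pi.single k 1 ∈ M)
    {y y' : B → R} (h' : ∀ i ∉ A, y i = y' i) (hy : y ∈ M) : y' ∈ M := by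
  have := mem_of_supp h (y := y' - y) fun i hi => by simp [h' i hi]
  simpa using M.add_mem this hy

theorem mulVec_mem_of_cols {M : Submodule R (B → R)} {G : Matrix B B R}
    (h : ∀ k, (fun i => G i k) ∈ M) (y : B → R) : G *ᵥ y ∈ M := by
  have : G *ᵥ y = ∑ k, y k • fun i => G i k := by
    funext i; simp [mulVec, dotProduct, mul_comm]
  rw [this]
  exact M.sum_mem fun k _ => M.smul_mem _ (h k)

namespace Sys

variable (S : Sys B Ar Gm Fm V) {t a : R} {x x' : ((Ar ⊕ Gm) ⊕ Fm) × B × B → R} {A₁ A : Finset B}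
  {O Z O' Z' : Finset ((Ar ⊕ Gm) × B)}

theorem cond_one : S.Cond t 1 x A₁ A O Z :=
  ⟨⊤, fun _ _ => S.mem_Gd.2 fun _ _ => one_dvd _, fun _ _ => trivial, fun _ _ _ => trivial,
    fun _ _ => trivial⟩

theorem Cond.congr (h : S.Cond t a x A₁ A O Z)
    (h1 : ∀ e i k, i ∉ A → S.Xt t x O Z e i k = S.Xt t x' O' Z' e i k)
    (h3 : ∀ σ i k, i ∉ A → S.Gs t x A O Z σ i k = S.Gs t x' A O' Z' σ i k)
    (h2 : ∀ φ, S.Sh x A₁ φ = S.Sh x' A₁ φ) : S.Cond t a x' A₁ A O' Z' := by
  obtain ⟨M, m1, m2, m3, m4⟩ := h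
  refine ⟨M, fun y hy => ?_, m2, fun e y hy => mem_congr m2 (fun i hi => ?_) (m3 e y hy),
    fun σ y => mem_congr m2 (fun i hi => ?_) (m4 σ y)⟩
  · have := m1 hy
    rw [mem_Gd] at this ⊢
    simpa only [Sf, h2] using this
  · simp [mulVec, dotProduct, h1 e i _ hi]
  · simp [mulVec, dotProduct, h3 σ i _ hi]

theorem Sf_PA (φ : Fm) : S.Sf x A φ * PA A = S.Sf x A φ := by
  ext i k
  rw [PA, mul_diagonal]
  by_cases h : k ∈ A <;> simp [h, Sf_apply, Sh_apply]

theorem cond_peel (hc : ∀ y : R, t * a ∣ t * y → a ∣ y) (hO : ∀ e k, (.inl e, k) ∈ O ↔ k ∈ A)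
    (hO' : ∀ σ k, (.inr σ, k) ∈ O) : S.Cond t (t * a) x A A ∅ Z ↔ S.Cond t a x A A O Z := by
  have e1 : ∀ e y, S.Xt t x ∅ Z e *ᵥ (PA A *ᵥ y) = S.Xt t x O Z e *ᵥ (PA A *ᵥ y) := by
    intro e y
    funext i
    refine Finset.sum_congr rfl fun k _ => ?_
    by_cases hk : k ∈ A <;> simp [PA_apply, Xt_apply, scale, hO, hk]
  have e2 : ∀ e y, S.Xt t x ∅ Z e *ᵥ (y - PA A *ᵥ y) =
      t • S.Xt t x O Z e *ᵥ (y - PA A *ᵥ y) := by
    intro e y
    funext i
    rw [Pi.smul_apply, smul_eq_mul, mulVec, mulVec, dotProduct, dotProduct, Finset.mul_sum]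
    refine Finset.sum_congr rfl fun k _ => ?_
    rw [Pi.sub_apply, PA_apply]
    by_cases hk : k ∈ A
    · simp only [Xt_apply, scale, hO, hk, if_true, Finset.notMem_empty, if_false]
      split_ifs <;> ring
    · simp [hk]
  have e3 : ∀ σ y, S.Gs t x A ∅ Z σ *ᵥ y = t • S.Gs t x A O Z σ *ᵥ y := by
    intro σ y
    rw [← smul_mulVec]
    congr 1
    ext i k
    simp only [Gs, of_apply, Matrix.smul_apply, scale, hO', if_true, Finset.notMem_empty, if_false,
      smul_eq_mul]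
    split_ifs <;> ring
  have hd : ∀ y : B → R, t • y ∈ Dv B (t * a) ↔ y ∈ Dv B a := fun y =>
    ⟨fun h i => hc _ (h i), fun h i => mul_dvd_mul_left t (h i)⟩
  constructor
  · rintro ⟨M, m1, m2, m3, m4⟩
    refine ⟨M.comap (t • LinearMap.id), fun y hy => ?_, fun k hk => Submodule.mem_comap.2
      (M.smul_mem t (m2 k hk)), fun e y hy => ?_, fun σ y => ?_⟩
    · have := m1 hy
      rw [mem_Gd] at this ⊢
      simpa only [LinearMap.smul_apply, LinearMap.id_apply, mulVec_smul, hd] using this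
    · have h1 := m3 e _ ((PA_mem_iff m2).2 hy)
      have h2 := m3 e _ (sub_PA_mem m2 y)
      rw [e1] at h1
      rw [e2] at h2
      have := M.add_mem h1 h2
      simpa [mulVec_smul, mulVec_sub, smul_sub] using this
    · have := m4 σ y
      rw [e3] at this
      exact this
  · rintro ⟨M, m1, m2, m3, m4⟩
    refine ⟨(M.map (t • LinearMap.id)).comap (PA A).mulVecLin, ?_,
      fun k hk => by simp [PA_single hk], ?_, fun σ y => ⟨_, (PA_mem_iff m2).2 (m4 σ y), ?_⟩⟩
    · rintro y ⟨z, hz, hy⟩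
      have hy' : PA A *ᵥ y = t • z := hy.symm
      have := S.mem_Gd.1 (m1 hz)
      rw [mem_Gd]
      intro φ
      rw [← S.Sf_PA, ← smul_mul_assoc, ← mulVec_mulVec, hy', mulVec_smul, hd]; exact this φ
    · rintro e y ⟨z, hz, hy⟩
      have hy' : PA A *ᵥ y = t • z := hy.symm
      have h1 : S.Xt t x ∅ Z e *ᵥ z ∈ M := by
        have h1 := m3 e _ ((PA_mem_iff m2).2 hz)
        have h2 := M.smul_mem t (m3 e _ (sub_PA_mem m2 z))
        rw [← e1] at h1
        rw [← e2] at h2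
        simpa [mulVec_sub] using M.add_mem h1 h2
      refine ⟨_, (PA_mem_iff m2).2 (M.add_mem h1 (m3 e _ (sub_PA_mem m2 y))), ?_⟩
      rw [LinearMap.smul_apply, LinearMap.id_apply, ← mulVec_smul, smul_add, ← e2, ← mulVec_smul,
        ← hy', ← mulVec_add, add_sub_cancel, mulVecLin_apply]
    · rw [LinearMap.smul_apply, LinearMap.id_apply, mulVecLin_apply, e3, mulVec_smul]

theorem Sf_symm (φ : Fm) (i k : B) : S.Sf x A φ i k = S.sg φ * S.Sf x A φ k i := by
  have : (S.sg φ : R) * S.sg φ = 1 := by unfold sg; split_ifs <;> simp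
  simp only [Sf_apply]
  linear_combination (-S.Sh x A φ i k) * this

theorem cond_form {i₀ : B} (hi : i₀ ∈ A) : S.Cond t a x A₁ A O Z ↔
    (∀ φ i, a ∣ t * S.Sf x A₁ φ i i₀) ∧ S.Cond t a x (insert i₀ A₁) A O Z := by
  have key : ∀ φ i k, S.Sf x (insert i₀ A₁) φ i k =
      if i = i₀ ∨ k = i₀ then 0 else S.Sf x A₁ φ i k := by
    intro φ i k
    simp only [Sf_apply, Sh_apply, Finset.mem_insert]
    by_cases h1 : i = i₀ <;> by_cases h2 : k = i₀ <;> simp [h1, h2]
  have key2 : (∀ φ i, a ∣ t * S.Sf x A₁ φ i i₀) → ∀ φ y,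
      (t • S.Sf x A₁ φ) *ᵥ y - (t • S.Sf x (insert i₀ A₁) φ) *ᵥ y ∈ Dv B a := by
    intro h φ y
    rw [← sub_mulVec]
    refine Dv_of_entries (fun i k => ?_) y
    simp only [Matrix.sub_apply, Matrix.smul_apply, smul_eq_mul, key]
    split_ifs with h1
    · rcases h1 with rfl | rfl
      · rw [Sf_symm, mul_zero, sub_zero, mul_left_comm]; exact (h φ k).mul_left _
      · simpa using h φ i
    · simp
  constructor
  · rintro ⟨M, m1, m2⟩
    have h : ∀ φ i, a ∣ t * S.Sf x A₁ φ i i₀ := fun φ i => by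
      simpa using S.mem_Gd.1 (m1 (m2.1 i₀ hi)) φ i
    exact ⟨h, M, fun y hy => S.mem_Gd.2 fun φ => by
      simpa using (Dv B a).sub_mem (S.mem_Gd.1 (m1 hy) φ) (key2 h φ y), m2⟩
  · rintro ⟨h, M, m1, m2⟩
    exact ⟨M, fun y hy => S.mem_Gd.2 fun φ => by
      simpa using (Dv B a).add_mem (key2 h φ y) (S.mem_Gd.1 (m1 hy) φ), m2⟩

theorem cond_iff_words {N : ℕ} (ht : t ^ N = 0) (hO : ∀ e k, (.inl e, k) ∈ O → k ∈ A)
    (hZ : ∀ c ∈ Z, c.2 ∈ A) :
    S.Cond t a x A₁ A O Z ↔ (∀ k, k ∈ A → Pi.single k 1 ∈ S.Gd t a x A₁) ∧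
      ∀ w : {w : List Ar // w.length < N}, (∀ e k, k ∈ A →
        ((w.1.map fun e => S.Xt t x O Z e * PA A).prod * S.Xt t x O Z e) *ᵥ Pi.single k 1 ∈
          S.Gd t a x A₁) ∧ ∀ σ k, (w.1.map fun e => S.Xt t x O Z e * PA A).prod *ᵥ
            (fun i => S.Gs t x A O Z σ i k) ∈ S.Gd t a x A₁ := by
  constructor
  · rintro ⟨M, m1, m2, m3, m4⟩
    have key : ∀ (w : List Ar), ∀ y ∈ M, (w.map fun e => S.Xt t x O Z e * PA A).prod *ᵥ y ∈ M := by
      intro w y hy
      induction w with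
      | nil => simpa using hy
      | cons e' w ih =>
        rw [List.map_cons, List.prod_cons, ← mulVec_mulVec, ← mulVec_mulVec]
        exact m3 e' _ ((PA_mem_iff m2).2 ih)
    refine ⟨fun k hk => m1 (m2 k hk), fun w => ⟨fun e k hk => m1 ?_, fun σ k => m1 (key _ _ ?_)⟩⟩
    · rw [← mulVec_mulVec]
      exact key _ _ (m3 e _ (m2 k hk))
    · have := m4 σ (Pi.single k 1)
      rwa [mulVec_single_one] at this
  · rintro ⟨h1, h2⟩
    have hY : ∀ w : List Ar, ¬ w.length < N →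
        (w.map fun e => S.Xt t x O Z e * PA A).prod = 0 := by
      suffices ∀ w : List Ar, ∃ W : Matrix B B R,
          (w.map fun e => S.Xt t x O Z e * PA A).prod = t ^ w.length • W by
        intro w hw
        obtain ⟨W, hW⟩ := this w
        rw [hW, pow_eq_zero_of_le (not_lt.1 hw) ht, zero_smul]
      intro w
      induction w with
      | nil => exact ⟨1, by simp⟩
      | cons e w ih =>
        obtain ⟨W, hW⟩ := ih
        have : S.Xt t x O Z e * PA A = t • (S.Xt 1 x O Z e * PA A) := by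
          ext i k
          rw [Matrix.smul_apply, PA, mul_diagonal, mul_diagonal]
          by_cases hk : k ∈ A
          · simp [hk]
          · have a1 : (.inl e, k) ∉ O := fun h => hk (hO _ _ h)
            have a2 : (.inl e, k) ∉ Z := fun h => hk (hZ _ h)
            simp [Xt_apply, scale, a1, a2, hk, mul_comm]
        exact ⟨S.Xt 1 x O Z e * PA A * W, by
          rw [List.map_cons, List.prod_cons, hW, this, List.length_cons, pow_succ', mul_smul,
            smul_mul_assoc, mul_smul_comm]⟩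
    have hA : ∀ k ∈ A, Pi.single k 1 ∈ ⨅ w : List Ar,
        (S.Gd t a x A₁).comap (w.map fun e => S.Xt t x O Z e * PA A).prod.mulVecLin := by
      intro k hk
      simp only [Submodule.mem_iInf, Submodule.mem_comap, mulVecLin_apply]
      intro w
      rcases w.eq_nil_or_concat with rfl | ⟨w, e, rfl⟩
      · rw [List.map_nil, List.prod_nil, one_mulVec]; exact h1 k hk
      · rw [List.concat_eq_append, List.map_append, List.prod_append, List.map_singleton,
          List.prod_singleton, ← mulVec_mulVec, ← mulVec_mulVec, PA_single hk]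
        simp
    refine ⟨_, fun y hy => ?_, hA, fun e y hy => ?_, fun σ => mulVec_mem_of_cols fun k => ?_⟩
    · simpa using (Submodule.mem_iInf _).1 hy []
    · simp only [Submodule.mem_iInf, Submodule.mem_comap, mulVecLin_apply] at hy ⊢
      intro w
      have a1 := hy (w ++ [e])
      rw [List.map_append, List.prod_append, List.map_singleton, List.prod_singleton,
        ← Matrix.mul_assoc, ← mulVec_mulVec] at a1
      have a2 : y - PA A *ᵥ y ∈ (S.Gd t a x A₁).comap
          ((w.map fun e => S.Xt t x O Z e * PA A).prod * S.Xt t x O Z e).mulVecLin := by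
        refine sub_PA_mem (fun k hk => ?_) y
        rw [Submodule.mem_comap, mulVecLin_apply]
        by_cases hw : w.length < N
        · exact (h2 ⟨w, hw⟩).1 e k hk
        · rw [hY w hw, Matrix.zero_mul, zero_mulVec]
          exact zero_mem _
      rw [Submodule.mem_comap, mulVecLin_apply] at a2
      have := (S.Gd t a x A₁).add_mem a1 a2
      rwa [← mulVec_add, add_sub_cancel, ← mulVec_mulVec] at this
    · simp only [Submodule.mem_iInf, Submodule.mem_comap, mulVecLin_apply]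
      intro w
      by_cases hw : w.length < N
      · exact (h2 ⟨w, hw⟩).2 σ k
      · rw [hY w hw, zero_mulVec]
        exact zero_mem _

end Sys

end Pool.Agent.P.MP_9321be_ag
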