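import Pool.Agent.P.MP_9321be_ag.Sys

/-!
The change of basis attached to a unimodular column.
-/

namespace Pool.Agent.P.MP_9321be_ag

open Matrix

variable {B Ar Gm Fm V : Type} [Fintype B] [DecidableEq B] [DecidableEq Ar] [DecidableEq Gm]
  [DecidableEq V] {R : Type} [CommRing R]

/-- The indicator of the distinguished column. -/
def Ec {α : Type} [DecidableEq α] (c₀ : α × B) (a : α) : Matrix B B R :=
  diagonal fun k => if (a, k) = c₀ then 1 else 0

/-- The change of basis on one matrix. -/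
def conj (E : Ar ⊕ Gm → Matrix B B R) (g g' Y : Matrix B B R) : (Ar ⊕ Gm) ⊕ Fm → Matrix B B R
  | .inl (.inl e) => g' * Y * (1 - E (.inl e)) * g + Y * E (.inl e)
  | .inl (.inr σ) => g' * ((1 - E (.inr σ)) * Y * (1 - E (.inr σ))) * g'ᵀ +
      (Y - (1 - E (.inr σ)) * Y * (1 - E (.inr σ)))
  | .inr _ => gᵀ * Y * g

/-- The change of basis. -/
def theta (E : Ar ⊕ Gm → Matrix B B R) (g g' : Matrix B B R)
    (x : ((Ar ⊕ Gm) ⊕ Fm) × B × B → R) : ((Ar ⊕ Gm) ⊕ Fm) × B × B → R :=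
  fun s => conj E g g' (mat x s.1) s.1 s.2.1 s.2.2

theorem mat_theta (E : Ar ⊕ Gm → Matrix B B R) (g g' : Matrix B B R)
    (x : ((Ar ⊕ Gm) ⊕ Fm) × B × B → R) (a : (Ar ⊕ Gm) ⊕ Fm) :
    mat (theta E g g' x) a = conj E g g' (mat x a) a := rfl

theorem Ec_mul_Ec {α : Type} [DecidableEq α] (c₀ : α × B) (a : α) :
    (Ec c₀ a : Matrix B B R) * Ec c₀ a = Ec c₀ a := by
  rw [Ec, diagonal_mul_diagonal]
  congr 1; funext k
  split_ifs <;> simp

theorem Ec_mulVec {α : Type} [DecidableEq α] (c₀ : α × B) (a : α) (y : B → R) :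
    Ec c₀ a *ᵥ y = (if a = c₀.1 then y c₀.2 else 0) • Pi.single c₀.2 1 := by
  funext i
  rw [Ec, mulVec_diagonal]
  by_cases h1 : a = c₀.1 <;> by_cases h2 : i = c₀.2 <;> simp [h1, h2, Prod.ext_iff]

theorem conj_arrow {E g g' Y : Matrix B B R} (h : E * E = E) (h' : E * g = g * E) :
    (g' * Y * (1 - E) * g + Y * E) * E = Y * E ∧
      (g' * Y * (1 - E) * g + Y * E) * (1 - E) = g' * Y * (1 - E) * g := by
  have : (g' * Y * (1 - E) * g + Y * E) * E = Y * E := by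
    rw [Matrix.add_mul, Matrix.mul_assoc _ g, ← h', Matrix.mul_assoc _ E, h,
      Matrix.mul_assoc _ (1 - E), ← Matrix.mul_assoc (1 - E), Matrix.sub_mul, h]
    simp
  exact ⟨this, by rw [Matrix.mul_sub, this, Matrix.mul_one, add_sub_cancel_right]⟩

theorem conj_tensor {F g' Y : Matrix B B R} (h : F * F = F) (h1 : F * g' = g' * F)
    (h2 : F * g'ᵀ = g'ᵀ * F) :
    F * (g' * (F * Y * F) * g'ᵀ + (Y - F * Y * F)) * F = g' * (F * Y * F) * g'ᵀ := by
  have a1 : F * (F * Y * F) * F = F * Y * F := by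
    simp only [← Matrix.mul_assoc, h]; rw [Matrix.mul_assoc _ F, h]
  rw [Matrix.mul_add, Matrix.add_mul, Matrix.mul_sub, Matrix.sub_mul, a1, sub_self, add_zero,
    ← Matrix.mul_assoc, ← Matrix.mul_assoc, h1, Matrix.mul_assoc _ g'ᵀ, ← h2,
    ← Matrix.mul_assoc, Matrix.mul_assoc g', Matrix.mul_assoc g', a1]

theorem one_sub_comm {E g : Matrix B B R} (h : E * g = g * E) : (1 - E) * g = g * (1 - E) := by
  rw [Matrix.mul_sub, Matrix.sub_mul, h]; simp

theorem one_sub_idem {E : Matrix B B R} (h : E * E = E) : (1 - E) * (1 - E) = 1 - E := by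
  rw [Matrix.mul_sub, Matrix.sub_mul, Matrix.sub_mul, h]; simp

theorem conj_conj {E : Ar ⊕ Gm → Matrix B B R} {g g' : Matrix B B R} (h : ∀ a, E a * E a = E a)
    (h1 : ∀ a, E a * g = g * E a) (h2 : ∀ a, E a * g' = g' * E a)
    (h3 : ∀ a, E a * g'ᵀ = g'ᵀ * E a) (hg : g * g' = 1) (Y : Matrix B B R)
    (a : (Ar ⊕ Gm) ⊕ Fm) : conj E g' g (conj E g g' Y a) a = Y := by
  rcases a with (e | σ) | φ
  · obtain ⟨a1, a2⟩ := conj_arrow (g' := g') (Y := Y) (h (.inl e)) (h1 _)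
    simp only [conj]
    rw [a1, Matrix.mul_assoc g, a2]
    simp only [← Matrix.mul_assoc, hg, Matrix.one_mul]
    rw [Matrix.mul_assoc _ g, hg, Matrix.mul_one, Matrix.mul_sub]
    simp
  · simp only [conj]
    rw [conj_tensor (one_sub_idem (h _)) (one_sub_comm (h2 _)) (one_sub_comm (h3 _)),
      add_sub_cancel_left, ← Matrix.mul_assoc, ← Matrix.mul_assoc, hg, Matrix.mul_assoc _ g'ᵀ,
      ← transpose_mul, hg]
    simp
  · simp only [conj, ← Matrix.mul_assoc]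
    rw [← transpose_mul, hg, Matrix.mul_assoc, hg]
    simp

theorem rank_one_inv (u : B → R) (i₀ : B) (c c' : R) (h : c + c' + c * c' * u i₀ = 0) :
    (1 + c • vecMulVec u (Pi.single i₀ 1)) * (1 + c' • vecMulVec u (Pi.single i₀ 1)) = 1 := by
  have : vecMulVec u (Pi.single i₀ (1 : R)) * vecMulVec u (Pi.single i₀ 1) =
      u i₀ • vecMulVec u (Pi.single i₀ 1) := by
    rw [vecMulVec_mul_vecMulVec, single_dotProduct, one_mul, vecMulVec_smul]
  rw [Matrix.add_mul, Matrix.mul_add, Matrix.mul_add, smul_mul_smul_comm, this]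
  simp only [Matrix.one_mul, Matrix.mul_one, smul_smul]
  rw [add_assoc, ← add_smul, ← add_smul]
  have : c' + (c + c * c' * u i₀) = 0 := by linear_combination h
  rw [this, zero_smul, add_zero]

theorem rank_one_mulVec (u : B → R) (i₀ : B) (c : R) (y : B → R) :
    (1 + c • vecMulVec u (Pi.single i₀ 1)) *ᵥ y = y + (c * y i₀) • u := by
  rw [add_mulVec, one_mulVec, smul_mulVec, vecMulVec_mulVec, single_dotProduct, one_mul,
    mul_smul, op_smul_eq_smul]

section Clauses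

variable {M : Submodule R (B → R)} {g g' E : Matrix B B R}

theorem arrow_iff (h1 : g * g' = 1) {X X' : Matrix B B R} (hE : ∀ y, E *ᵥ y ∈ M)
    (hX : X' = g' * X * (1 - E) * g) (hs : ∀ y, X *ᵥ (E *ᵥ y) ∈ M) :
    (∀ y ∈ M, X *ᵥ y ∈ M) ↔ ∀ y ∈ M.comap g.mulVecLin, X' *ᵥ y ∈ M.comap g.mulVecLin := by
  have a1 : ∀ y, g *ᵥ (g' *ᵥ y) = y := fun y => by rw [mulVec_mulVec, h1, one_mulVec]
  simp only [Submodule.mem_comap, mulVecLin_apply, hX, ← mulVec_mulVec, a1, sub_mulVec,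
    one_mulVec]
  refine ⟨fun h y hy => h _ (M.sub_mem hy (hE _)), fun h y hy => ?_⟩
  have := h (g' *ᵥ y) (by rwa [a1])
  rw [a1] at this
  simpa [mulVec_sub] using M.add_mem this (hs y)

theorem tensor_iff (h1 : g * g' = 1) {A A' : Finset B} (hA : ∀ k ∈ A, Pi.single k 1 ∈ M)
    (hA' : ∀ k ∈ A', Pi.single k 1 ∈ M.comap g.mulVecLin) {G G' H : Matrix B B R}
    (hE : ∀ y, E *ᵥ y ∈ M) (hG : PA A * G = PA A * H)
    (hG' : PA A' * G' = PA A' * (g' * (1 - E) * H * (1 - E) * g'ᵀ)) (hs : ∀ y, H *ᵥ (E *ᵥ y) ∈ M) :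
    (∀ y, G *ᵥ y ∈ M) ↔ ∀ y, G' *ᵥ y ∈ M.comap g.mulVecLin := by
  have a1 : ∀ y, g *ᵥ (g' *ᵥ y) = y := fun y => by rw [mulVec_mulVec, h1, one_mulVec]
  have a2 : ∀ y, g'ᵀ *ᵥ (gᵀ *ᵥ y) = y := fun y => by
    rw [mulVec_mulVec, ← transpose_mul, h1, transpose_one, one_mulVec]
  have b1 : ∀ y, G *ᵥ y ∈ M ↔ H *ᵥ y ∈ M := fun y => by
    rw [← PA_mem_iff hA, mulVec_mulVec, hG, ← mulVec_mulVec, PA_mem_iff hA]
  have b2 : ∀ y, G' *ᵥ y ∈ M.comap g.mulVecLin ↔ H *ᵥ (g'ᵀ *ᵥ y - E *ᵥ (g'ᵀ *ᵥ y)) ∈ M := fun y => by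
    rw [← PA_mem_iff hA', mulVec_mulVec, hG', ← mulVec_mulVec, PA_mem_iff hA']
    simp only [Submodule.mem_comap, mulVecLin_apply, ← mulVec_mulVec, a1, sub_mulVec, one_mulVec]
    exact M.sub_mem_iff_left (hE _)
  simp only [b1, b2]
  refine ⟨fun h y => h _, fun h y => ?_⟩
  have := h (gᵀ *ᵥ y)
  rw [a2] at this
  simpa [mulVec_sub] using M.add_mem this (hs y)

end Clauses

namespace Sys

variable (S : Sys B Ar Gm Fm V) {t a : R} {x x' : ((Ar ⊕ Gm) ⊕ Fm) × B × B → R} {A A' : Finset B}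
  {O Z Z' : Finset ((Ar ⊕ Gm) × B)} {g g' : Matrix B B R}

/-- `g` commutes with the diagonal matrices that are scalar on the free part of each block. -/
def Blk (A : Finset B) (g : Matrix B B R) : Prop :=
  ∀ δ : B → R, (∀ i j, i ∉ A → j ∉ A → S.vtx i = S.vtx j → δ i = δ j) →
    diagonal δ * g = g * diagonal δ

omit [DecidableEq Ar] [DecidableEq Gm] [DecidableEq V] in
theorem blk_one_add {u : B → R} {i₀ : B} (hu : ∀ i, ¬ (S.vtx i = S.vtx i₀ ∧ i ∉ A) → u i = 0)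
    (h : i₀ ∉ A) (c : R) : S.Blk A (1 + c • vecMulVec u (Pi.single i₀ 1)) := by
  intro δ hδ
  ext i k
  rw [diagonal_mul, mul_diagonal]
  simp only [Matrix.add_apply, Matrix.smul_apply, vecMulVec_apply, smul_eq_mul, one_apply,
    Pi.single_apply]
  by_cases h1 : i = k
  · subst h1; ring
  · by_cases h2 : k = i₀
    · by_cases h3 : S.vtx i = S.vtx i₀ ∧ i ∉ A
      · rw [hδ i k h3.2 (h2 ▸ h) (h2 ▸ h3.1)]; ring
      · simp [h1, hu i h3]
    · simp [h1, h2]

variable {S}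

omit [DecidableEq Ar] [DecidableEq Gm] [DecidableEq V] in
theorem Blk.mul (h : S.Blk A g) (h' : S.Blk A g') : S.Blk A (g * g') := fun δ hδ => by
  rw [← Matrix.mul_assoc, h δ hδ, Matrix.mul_assoc, h' δ hδ, Matrix.mul_assoc]

omit [DecidableEq Ar] [DecidableEq Gm] [DecidableEq V] in
theorem Blk.transpose (h : S.Blk A g) : S.Blk A gᵀ := fun δ hδ => by
  have := congrArg Matrix.transpose (h δ hδ)
  rw [transpose_mul, transpose_mul, diagonal_transpose] at this
  exact this.symm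

omit [DecidableEq V] in
theorem Blk.Ec {c₀ : (Ar ⊕ Gm) × B} (hg : S.Blk A g) (hc : c₀.2 ∈ A) (a : Ar ⊕ Gm) :
    Ec c₀ a * g = g * Ec c₀ a := by
  refine hg _ fun i j hi hj _ => ?_
  rw [if_neg, if_neg]
  · rintro rfl; exact hj hc
  · rintro rfl; exact hi hc

variable (S)

theorem Sf_conj (hg : S.Blk A g) {φ : Fm} (h : mat x' (.inr φ) = gᵀ * mat x (.inr φ) * g) :
    S.Sf x' A φ = gᵀ * S.Sf x A φ * g := by
  have h1 := hg (fun i => if S.vtx i = S.fb φ ∧ i ∉ A then 1 else 0) fun i j hi hj h => by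
    simp [hi, hj, h]
  have h2 := hg.transpose (fun i => if S.vtx i = S.fa φ ∧ i ∉ A then 1 else 0) fun i j hi hj h => by
    simp [hi, hj, h]
  have h3 : S.Sh x' A φ = gᵀ * S.Sh x A φ * g := by
    rw [Sh, Sh, h]
    simp only [← Matrix.mul_assoc]
    rw [h2, Matrix.mul_assoc _ g, ← h1]
    simp only [Matrix.mul_assoc]
  simp [Sf, h3, Matrix.mul_add, Matrix.add_mul, transpose_mul, Matrix.mul_assoc]

theorem cond_transfer (hg : S.Blk A g) (h1 : g * g' = 1)
    (hf : ∀ φ, mat x' (.inr φ) = gᵀ * mat x (.inr φ) * g)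
    (hc : ∀ M, S.Closed t x A O Z M ↔ S.Closed t x' A' O Z' (M.comap g.mulVecLin)) :
    S.Cond t a x A A O Z ↔ S.Cond t a x' A A' O Z' := by
  have h2 := mul_eq_one_comm.1 h1
  have a1 : ∀ y, g *ᵥ (g' *ᵥ y) = y := fun y => by rw [mulVec_mulVec, h1, one_mulVec]
  have a2 : ∀ y, g' *ᵥ (g *ᵥ y) = y := fun y => by rw [mulVec_mulVec, h2, one_mulVec]
  constructor
  · rintro ⟨M, m1, m2⟩
    refine ⟨_, fun y hy => S.mem_Gd.2 fun φ => ?_, (hc M).1 m2⟩
    have h := Dv_mulVec (S.mem_Gd.1 (m1 hy) φ) gᵀ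
    rwa [S.Sf_conj hg (hf φ), ← smul_mul_assoc, ← mul_smul_comm, ← mulVec_mulVec,
      ← mulVec_mulVec]
  · rintro ⟨M, m1, m2⟩
    refine ⟨M.comap g'.mulVecLin, fun y hy => S.mem_Gd.2 fun φ => ?_, (hc _).2 ?_⟩
    · have h := Dv_mulVec (S.mem_Gd.1 (m1 hy) φ) g'ᵀ
      rwa [S.Sf_conj hg (hf φ), ← smul_mul_assoc, ← mul_smul_comm, mulVecLin_apply,
        ← mulVec_mulVec, ← mulVec_mulVec, a1, mulVec_mulVec, ← transpose_mul, h1, transpose_one,
        one_mulVec] at h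
    · convert m2 using 1
      ext y
      simp only [Submodule.mem_comap, mulVecLin_apply, a2]

theorem Xt_conj (hg : S.Blk A g) (hg' : S.Blk A g') (hO : ∀ e k, (.inl e, k) ∈ O → k ∈ A)
    (hZ : ∀ c ∈ Z, c.2 ∈ A) {e : Ar} {ε : B → R}
    (h : mat x' (.inl (.inl e)) * (1 - diagonal ε) =
      g' * mat x (.inl (.inl e)) * (1 - diagonal ε) * g)
    (hs : ∀ k, scale t O Z' (.inl e, k) = scale t O Z (.inl e, k) * (1 - ε k)) :
    S.Xt t x' O Z' e = g' * S.Xt t x O Z e * (1 - diagonal ε) * g := by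
  set C : Matrix B B R := diagonal fun k => if S.vtx k = S.src e then scale t O Z (.inl e, k) else 0
    with hC
  have h0 : (diagonal fun k => if S.vtx k = S.src e then scale t O Z' (.inl e, k) else 0) =
      C * (1 - diagonal ε) := by
    rw [hC, ← diagonal_one, diagonal_sub, diagonal_mul_diagonal]
    congr 1; funext k
    split_ifs <;> simp [hs]
  have h1 : C * g = g * C := hg _ fun i j hi hj h => by
    have a1 : (.inl e, i) ∉ O := fun h => hi (hO _ _ h)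
    have a2 : (.inl e, i) ∉ Z := fun h => hi (hZ _ h)
    have a3 : (.inl e, j) ∉ O := fun h => hj (hO _ _ h)
    have a4 : (.inl e, j) ∉ Z := fun h => hj (hZ _ h)
    simp [scale, h, a1, a2, a3, a4]
  have h2 : diagonal ε * C = C * diagonal ε := by
    rw [hC, diagonal_mul_diagonal, diagonal_mul_diagonal]; simp only [mul_comm]
  have h3 := hg' (fun i => if S.vtx i = S.tgt e then 1 else 0) fun i j _ _ h => by simp [h]
  have h6 := (one_sub_comm h2).symm
  rw [Xt, Xt, h0, ← hC, h6, Matrix.mul_assoc, ← Matrix.mul_assoc _ (1 - diagonal ε), h]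
  simp only [← Matrix.mul_assoc]
  rw [h3, Matrix.mul_assoc _ g, ← h1, Matrix.mul_assoc _ C (1 - diagonal ε), h6]
  simp only [Matrix.mul_assoc]

/-- All free columns of the tensor `σ` have the same scaling. -/
def Unif (O : Finset ((Ar ⊕ Gm) × B)) (A : Finset B) (σ : Gm) : Prop :=
  ∀ i k, i ∉ A → k ∉ A → (.inr σ, i) ∈ O → (.inr σ, k) ∈ O

/-- The masked matrix of a tensor. -/
def Wm (Y : Matrix B B R) (σ : Gm) : Matrix B B R :=
  diagonal (fun i => if S.vtx i = S.ga σ then 1 else 0) * Y *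
    diagonal fun k => if S.vtx k = S.gb σ then 1 else 0

/-- The uniform version of the matrix of a tensor. -/
def Hs (t : R) (x : ((Ar ⊕ Gm) ⊕ Fm) × B × B → R) (O Z : Finset ((Ar ⊕ Gm) × B)) (σ : Gm) :
    Matrix B B R := (S.Wm (mat x (.inl (.inr σ))) σ + (S.Wm (mat x (.inl (.inr σ))) σ)ᵀ) *
      diagonal fun k => scale t O Z (.inr σ, k)

theorem scale_unif {σ : Gm} (hU : Unif O A σ) (hZ : ∀ c ∈ Z, c.2 ∈ A) {i k : B} (hi : i ∉ A)
    (hk : k ∉ A) : scale t O Z (.inr σ, i) = scale t O Z (.inr σ, k) := by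
  have a2 : (.inr σ, i) ∉ Z := fun h => hi (hZ _ h)
  have a4 : (.inr σ, k) ∉ Z := fun h => hk (hZ _ h)
  have : (.inr σ, i) ∈ O ↔ (.inr σ, k) ∈ O := ⟨hU i k hi hk, hU k i hk hi⟩
  simp [scale, a2, a4, this]

theorem PA_Gs {σ : Gm} (hU : Unif O A σ) (hZ : ∀ c ∈ Z, c.2 ∈ A) :
    PA A * S.Gs t x A O Z σ = PA A * S.Hs t x O Z σ := by
  ext i k
  rw [PA, diagonal_mul, diagonal_mul, Hs, mul_diagonal, Matrix.add_apply, transpose_apply, Wm,
    mul_diagonal, mul_diagonal, diagonal_mul, diagonal_mul]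
  by_cases hi : i ∈ A
  · simp [hi]
  · have : scale t O Z (.inr σ, if k ∈ A then k else i) = scale t O Z (.inr σ, k) := by
      split_ifs with hk
      exacts [rfl, scale_unif hU hZ hi hk]
    have h1 := S.hg σ i
    have h2 := S.hg σ k
    simp only [Gs, of_apply, this, mat, if_neg hi]
    split_ifs <;> first | ring1 | (exfalso; tauto)

theorem Gs_conj (hg' : S.Blk A g') {σ : Gm} (hU : Unif O A σ) (hAA : A ⊆ A')
    (hZ : ∀ c ∈ Z, c.2 ∈ A) (hZ' : ∀ c ∈ Z', c.2 ∈ A') {ε : B → R} (hε : ∀ k ∉ A, ε k = 0)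
    (h : (1 - diagonal ε) * mat x' (.inl (.inr σ)) * (1 - diagonal ε) =
      g' * ((1 - diagonal ε) * mat x (.inl (.inr σ)) * (1 - diagonal ε)) * g'ᵀ)
    (hs : ∀ k, scale t O Z' (.inr σ, k) = scale t O Z (.inr σ, k) * (1 - ε k)) :
    PA A' * S.Gs t x' A' O Z' σ =
      PA A' * (g' * (1 - diagonal ε) * S.Hs t x O Z σ * (1 - diagonal ε) * g'ᵀ) := by
  rw [S.PA_Gs (fun i k hi hk => hU i k (fun h => hi (hAA h)) fun h => hk (hAA h)) hZ']
  set F : Matrix B B R := 1 - diagonal ε with hF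
  have hF' : F = diagonal fun k => 1 - ε k := by rw [hF, ← diagonal_one, diagonal_sub]
  set C : Matrix B B R := diagonal fun k => scale t O Z (.inr σ, k) with hC
  set Da : Matrix B B R := diagonal fun i => if S.vtx i = S.ga σ then 1 else 0 with hDa
  set Db : Matrix B B R := diagonal fun i => if S.vtx i = S.gb σ then 1 else 0 with hDb
  have dd : ∀ δ δ' : B → R, diagonal δ * diagonal δ' = diagonal δ' * diagonal δ := fun δ δ' => by
    rw [diagonal_mul_diagonal, diagonal_mul_diagonal]; simp only [mul_comm]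
  have a0 : (diagonal fun k => scale t O Z' (.inr σ, k)) = F * C := by
    rw [hF', hC, diagonal_mul_diagonal]; simp only [hs, mul_comm]
  have a1 : PA A' = PA A' * F := by
    rw [hF', PA, diagonal_mul_diagonal]
    congr 1; funext k
    split_ifs with hk
    · simp
    · simp [hε k fun h => hk (hAA h)]
  have a2 : C * g'ᵀ = g'ᵀ * C := hg'.transpose _ fun i j hi hj _ => scale_unif hU hZ hi hj
  have a3 : Da * g' = g' * Da := hg' _ fun i j _ _ h => by simp [h]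
  have a4 : Db * g'ᵀ = g'ᵀ * Db := hg'.transpose _ fun i j _ _ h => by simp [h]
  have a5 : Da * F = F * Da := by rw [hF']; exact dd _ _
  have a6 : Db * F = F * Db := by rw [hF']; exact dd _ _
  have a7 : C * F = F * C := by rw [hF']; exact dd _ _
  have a8 : Fᵀ = F := by rw [hF', diagonal_transpose]
  have b0 : ∀ Y : Matrix B B R, F * S.Wm Y σ * F = Da * (F * Y * F) * Db := fun Y => by
    rw [Wm, ← hDa, ← hDb]
    simp only [← Matrix.mul_assoc]
    rw [← a5, Matrix.mul_assoc _ Db, a6]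
    simp only [Matrix.mul_assoc]
  have b1 : F * S.Wm (mat x' (.inl (.inr σ))) σ * F =
      g' * (F * S.Wm (mat x (.inl (.inr σ))) σ * F) * g'ᵀ := by
    rw [b0, b0, h]
    simp only [← Matrix.mul_assoc]
    rw [a3, Matrix.mul_assoc _ g'ᵀ, ← a4]
    simp only [Matrix.mul_assoc]
  have b2 := congrArg Matrix.transpose b1
  simp only [transpose_mul, a8, transpose_transpose] at b2
  rw [Hs, Hs, a0, ← hC]
  conv_lhs => rw [a1]
  rw [Matrix.mul_assoc]
  congr 1
  rw [Matrix.mul_assoc _ F g'ᵀ, Matrix.mul_assoc _ _ (F * g'ᵀ), Matrix.mul_assoc _ C,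
    ← Matrix.mul_assoc C, a7, Matrix.mul_assoc F C, a2]
  simp only [← Matrix.mul_assoc] at b1 b2 ⊢
  simp only [Matrix.mul_add, Matrix.add_mul, b1, b2]

/-- The column with index `c`. -/
def colv (t : R) (x : ((Ar ⊕ Gm) ⊕ Fm) × B × B → R) (A : Finset B) (O Z : Finset ((Ar ⊕ Gm) × B))
    (c : (Ar ⊕ Gm) × B) : B → R :=
  Sum.elim (S.Xt t x O Z) (S.Gs t x A O Z) c.1 *ᵥ Pi.single c.2 1

theorem cond_theta (hg : S.Blk A g) (hg' : S.Blk A g') (h1 : g * g' = 1) {c₀ : (Ar ⊕ Gm) × B}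
    (hc : c₀.2 ∈ A) (hO : ∀ e k, (.inl e, k) ∈ O → k ∈ A) (hZ : ∀ c ∈ Z, c.2 ∈ A)
    (hU : ∀ σ, Unif O A σ) {i₀ : B} (h3 : ∀ k ∈ A, g *ᵥ Pi.single k 1 = Pi.single k 1)
    (h4 : g *ᵥ Pi.single i₀ 1 = PA A *ᵥ S.colv t x A O Z c₀) :
    S.Cond t a x A A O Z ↔ S.Cond t a (theta (Ec c₀) g g' x) A (insert i₀ A) O (insert c₀ Z) := by
  refine S.cond_transfer hg h1 (fun _ => rfl) fun M => ?_
  have hs : ∀ a k, scale t O (insert c₀ Z) (a, k) =
      scale t O Z (a, k) * (1 - if (a, k) = c₀ then 1 else 0) := fun a k => by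
    by_cases h : (a, k) = c₀ <;> simp [scale, h]
  have key : (∀ k ∈ A, Pi.single k 1 ∈ M) →
      (∀ k ∈ insert i₀ A, Pi.single k 1 ∈ M.comap g.mulVecLin) →
      (S.Closed t x A O Z M ↔ S.Closed t (theta (Ec c₀) g g' x) (insert i₀ A) O (insert c₀ Z)
        (M.comap g.mulVecLin)) := by
    intro hA hA'
    have hE : ∀ a y, Ec c₀ a *ᵥ y ∈ M := fun a y => by
      rw [Ec_mulVec]; exact M.smul_mem _ (hA _ hc)
    have h5 : S.colv t x A O Z c₀ ∈ M := by
      rw [← PA_mem_iff hA, ← h4]; exact hA' _ (Finset.mem_insert_self _ _)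
    have h6 : ∀ a y, Sum.elim (S.Xt t x O Z) (S.Gs t x A O Z) a *ᵥ (Ec c₀ a *ᵥ y) ∈ M := by
      intro a y
      rw [Ec_mulVec, mulVec_smul]
      split_ifs with h
      · subst h; exact M.smul_mem _ h5
      · simp
    refine and_congr (iff_of_true hA hA') (and_congr (forall_congr' fun e => ?_)
      (forall_congr' fun σ => ?_))
    · refine arrow_iff h1 (hE _) (S.Xt_conj hg hg' hO hZ
        (ε := fun k => if (Sum.inl e, k) = c₀ then 1 else 0) ?_ (hs _)) (h6 (.inl e))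
      rw [mat_theta]
      exact (conj_arrow (Ec_mul_Ec c₀ _) (hg.Ec hc _)).2
    · refine tensor_iff h1 hA hA' (hE (.inr σ)) (S.PA_Gs (hU σ) hZ)
        (S.Gs_conj hg' (hU σ) (Finset.subset_insert _ _) hZ ?_
        (ε := fun k => if (Sum.inr σ, k) = c₀ then 1 else 0) ?_ ?_ (hs _)) fun y => ?_
      · intro c h
        rcases Finset.mem_insert.1 h with rfl | h
        exacts [Finset.mem_insert_of_mem hc, Finset.mem_insert_of_mem (hZ c h)]
      · intro k hk
        rw [if_neg]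
        rintro rfl; exact hk hc
      · rw [mat_theta]
        exact conj_tensor (one_sub_idem (Ec_mul_Ec c₀ _)) (one_sub_comm (hg'.Ec hc _))
          (one_sub_comm (hg'.transpose.Ec hc _))
      · rw [← PA_mem_iff hA, mulVec_mulVec, ← S.PA_Gs (hU σ) hZ, ← mulVec_mulVec, PA_mem_iff hA]
        exact h6 (.inr σ) y
  refine ⟨fun h => (key h.1 fun k hk => ?_).1 h, fun h => (key (fun k hk => ?_) h.1).2 h⟩
  · rw [Submodule.mem_comap, mulVecLin_apply]
    rcases Finset.mem_insert.1 hk with rfl | hk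
    · rw [h4, PA_mem_iff h.1]
      obtain ⟨e | σ, k₀⟩ := c₀
      exacts [h.2.1 e _ (h.1 _ hc), h.2.2 σ _]
    · rw [h3 k hk]; exact h.1 k hk
  · have := h.1 k (Finset.mem_insert_of_mem hk)
    rwa [Submodule.mem_comap, mulVecLin_apply, h3 k hk] at this

end Sys

end Pool.Agent.P.MP_9321be_ag
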