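import Pool.Agent.P.MP_9321be_ag.Unit

/-!
The change of basis attached to a unit entry of a source tensor.
-/

namespace Pool.Agent.P.MP_9321be_ag

open Matrix

variable {B Ar Gm Fm V : Type} [Fintype B] [DecidableEq B] [DecidableEq Ar] [DecidableEq Gm]
  [DecidableEq Fm] [DecidableEq V] {R : Type} [CommRing R]

/-- The base change with two new basis vectors. -/
def gTwo (ua ub : B → R) (i₀ k₀ : B) (ε : R) : Matrix B B R :=
  (1 + ε • vecMulVec ua (Pi.single i₀ 1)) * (1 + ε • vecMulVec ub (Pi.single k₀ 1))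

theorem gTwo_mulVec {ua ub : B → R} {i₀ k₀ : B} (h : ub i₀ = 0) (ε : R) (y : B → R) :
    gTwo ua ub i₀ k₀ ε *ᵥ y = y + (ε * y k₀) • ub + (ε * y i₀) • ua := by
  rw [gTwo, ← mulVec_mulVec, rank_one_mulVec, rank_one_mulVec]
  simp [h]

theorem gTwo_inv {ua ub : B → R} {i₀ k₀ : B} (h1 : ua i₀ = 0) (h2 : ua k₀ = 0) (h3 : ub i₀ = 0)
    (h4 : ub k₀ = 0) (ε : R) : gTwo ua ub i₀ k₀ ε * gTwo ua ub i₀ k₀ (-ε) = 1 := by
  refine ext_of_mulVec_single fun k => ?_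
  rw [← mulVec_mulVec, gTwo_mulVec h3, gTwo_mulVec h3, one_mulVec]
  simp only [Pi.add_apply, Pi.smul_apply, h1, h2, h3, h4, smul_zero, add_zero]
  module

/-- The Schur complement. -/
def shear (A : Finset B) (ua ub : B → R) (i₀ k₀ : B) (ε : R) (Y : Matrix B B R) : Matrix B B R :=
  of fun i k => Y i k - ε * if i ∈ A then Y i k₀ * ub k else if k = k₀ then 0 else ua i * Y i₀ k

theorem shear_col {A : Finset B} {ua ub : B → R} {i₀ k₀ : B} (h : ub k₀ = 0) (ε : R)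
    (Y : Matrix B B R) (i : B) : shear A ua ub i₀ k₀ ε Y i k₀ = Y i k₀ := by
  simp [shear, h]

theorem shear_row {A : Finset B} {ua ub : B → R} {i₀ k₀ : B} (h : ua i₀ = 0) (hi : i₀ ∉ A) (ε : R)
    (Y : Matrix B B R) (k : B) : shear A ua ub i₀ k₀ ε Y i₀ k = Y i₀ k := by
  simp [shear, h, hi]

theorem shear_shear {A : Finset B} {ua ub : B → R} {i₀ k₀ : B} (h : ua i₀ = 0) (h' : ub k₀ = 0)
    (hi : i₀ ∉ A) (ε : R) (Y : Matrix B B R) :
    shear A ua ub i₀ k₀ (-ε) (shear A ua ub i₀ k₀ ε Y) = Y := by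
  ext i k
  rw [shear, of_apply, shear_col h', shear_row h hi, shear, of_apply]
  ring

/-- The change of variables attached to a unit entry of the tensor `σ₀`. -/
def thetaTwo (σ₀ : Gm) (A : Finset B) (ua ub : B → R) (i₀ k₀ : B) (ε : R)
    (x : ((Ar ⊕ Gm) ⊕ Fm) × B × B → R) : ((Ar ⊕ Gm) ⊕ Fm) × B × B → R := fun s =>
  (if s.1 = .inl (.inr σ₀) then shear A ua ub i₀ k₀ ε (mat x s.1) else
    conj (fun _ => 0) (gTwo ua ub i₀ k₀ ε) (gTwo ua ub i₀ k₀ (-ε)) (mat x s.1) s.1) s.2.1 s.2.2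

theorem mat_thetaTwo (σ₀ : Gm) (A : Finset B) (ua ub : B → R) (i₀ k₀ : B) (ε : R)
    (x : ((Ar ⊕ Gm) ⊕ Fm) × B × B → R) (a : (Ar ⊕ Gm) ⊕ Fm) :
    mat (thetaTwo σ₀ A ua ub i₀ k₀ ε x) a =
      if a = .inl (.inr σ₀) then shear A ua ub i₀ k₀ ε (mat x a) else
        conj (fun _ => 0) (gTwo ua ub i₀ k₀ ε) (gTwo ua ub i₀ k₀ (-ε)) (mat x a) a := rfl

theorem thetaTwo_self (σ₀ : Gm) (A : Finset B) (ua ub : B → R) (i₀ k₀ : B) (ε : R)
    (x : ((Ar ⊕ Gm) ⊕ Fm) × B × B → R) (i k : B) :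
    thetaTwo σ₀ A ua ub i₀ k₀ ε x (.inl (.inr σ₀), i, k) =
      shear A ua ub i₀ k₀ ε (mat x (.inl (.inr σ₀))) i k := by
  simp [thetaTwo]

theorem thetaTwo_thetaTwo {σ₀ : Gm} {A : Finset B} {ua ub : B → R} {i₀ k₀ : B} (h1 : ua i₀ = 0)
    (h2 : ua k₀ = 0) (h3 : ub i₀ = 0) (h4 : ub k₀ = 0) (hi : i₀ ∉ A) (ε : R)
    (x : ((Ar ⊕ Gm) ⊕ Fm) × B × B → R) :
    thetaTwo σ₀ A ua ub i₀ k₀ (-ε) (thetaTwo σ₀ A ua ub i₀ k₀ ε x) = x := by
  funext ⟨a, i, k⟩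
  change mat (thetaTwo σ₀ A ua ub i₀ k₀ (-ε) (thetaTwo σ₀ A ua ub i₀ k₀ ε x)) a i k = mat x a i k
  refine congrFun (congrFun ?_ i) k
  rw [mat_thetaTwo, mat_thetaTwo]
  split_ifs
  · exact shear_shear h1 h4 hi _ _
  · rw [neg_neg]
    exact conj_conj (by simp) (by simp) (by simp) (by simp) (gTwo_inv h1 h2 h3 h4 ε) _ _

namespace Sys

variable (S : Sys B Ar Gm Fm V) {t a w : R} {x : ((Ar ⊕ Gm) ⊕ Fm) × B × B → R} {A : Finset B}
  {O Z : Finset ((Ar ⊕ Gm) × B)} {σ₀ : Gm} {i₀ k₀ : B}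

/-- The first new basis vector. -/
def ua (w : R) (x : ((Ar ⊕ Gm) ⊕ Fm) × B × B → R) (A : Finset B) (σ₀ : Gm) (i₀ k₀ : B) : B → R :=
  fun i => (if S.vtx i = S.ga σ₀ ∧ i ∉ A then w * x (.inl (.inr σ₀), i, k₀) else 0) -
    (Pi.single i₀ 1 : B → R) i

/-- The second new basis vector. -/
def ub (t w : R) (x : ((Ar ⊕ Gm) ⊕ Fm) × B × B → R) (A : Finset B) (O Z : Finset ((Ar ⊕ Gm) × B))
    (σ₀ : Gm) (i₀ k₀ : B) : B → R := fun k =>
  (if S.vtx k = S.gb σ₀ ∧ k ∉ A then w * (x (.inl (.inr σ₀), i₀, k) * scale t O Z (.inr σ₀, k))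
    else 0) - (Pi.single k₀ 1 : B → R) k

/-- The hypotheses of the two pivot step. -/
structure Two (t w : R) (x : ((Ar ⊕ Gm) ⊕ Fm) × B × B → R) (A : Finset B)
    (O Z : Finset ((Ar ⊕ Gm) × B)) (σ₀ : Gm) (i₀ k₀ : B) : Prop where
  ha : S.vtx i₀ = S.ga σ₀
  hb : S.vtx k₀ = S.gb σ₀
  hi : i₀ ∉ A
  hk : k₀ ∉ A
  hs : scale t O Z (.inr σ₀, k₀) = 1
  hw : w * x (.inl (.inr σ₀), i₀, k₀) = 1

variable {S} (h : S.Two t w x A O Z σ₀ i₀ k₀)
include h

theorem Two.ua_zero {i : B} (hi : ¬ (S.vtx i = S.ga σ₀ ∧ i ∉ A)) : S.ua w x A σ₀ i₀ k₀ i = 0 := by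
  have : i ≠ i₀ := by rintro rfl; exact hi ⟨h.ha, h.hi⟩
  simp only [ua, if_neg hi, Pi.single_eq_of_ne this, sub_zero]

theorem Two.ub_zero {i : B} (hi : ¬ (S.vtx i = S.gb σ₀ ∧ i ∉ A)) :
    S.ub t w x A O Z σ₀ i₀ k₀ i = 0 := by
  have : i ≠ k₀ := by rintro rfl; exact hi ⟨h.hb, h.hk⟩
  simp only [ub, if_neg hi, Pi.single_eq_of_ne this, sub_zero]

theorem Two.h1 : S.ua w x A σ₀ i₀ k₀ i₀ = 0 := by simp [ua, h.ha, h.hi, h.hw]

theorem Two.h2 : S.ua w x A σ₀ i₀ k₀ k₀ = 0 := h.ua_zero fun e => S.hg _ _ e.1 h.hb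

theorem Two.h3 : S.ub t w x A O Z σ₀ i₀ k₀ i₀ = 0 := h.ub_zero fun e => S.hg _ _ h.ha e.1

theorem Two.h4 : S.ub t w x A O Z σ₀ i₀ k₀ k₀ = 0 := by simp [ub, h.hb, h.hk, h.hw, h.hs]

theorem Two.blk (ε : R) :
    S.Blk A (gTwo (S.ua w x A σ₀ i₀ k₀) (S.ub t w x A O Z σ₀ i₀ k₀) i₀ k₀ ε) :=
  (S.blk_one_add (fun _ hi => h.ua_zero (h.ha ▸ hi)) h.hi ε).mul
    (S.blk_one_add (fun _ hi => h.ub_zero (h.hb ▸ hi)) h.hk ε)

theorem Two.cond (hO : ∀ e k, (.inl e, k) ∈ O → k ∈ A) (hZ : ∀ c ∈ Z, c.2 ∈ A)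
    (hU : ∀ σ, σ ≠ σ₀ → Unif O A σ) : S.Cond t a x A A O Z ↔ S.Cond t a
      (thetaTwo σ₀ A (S.ua w x A σ₀ i₀ k₀) (S.ub t w x A O Z σ₀ i₀ k₀) i₀ k₀ 1 x) A
      (insert k₀ (insert i₀ A)) O (insert (.inr σ₀, k₀) (insert (.inr σ₀, i₀) Z)) := by
  have h0 := gTwo_inv h.h1 h.h2 h.h3 h.h4 1
  have hg := h.blk 1
  have hg' := h.blk (-1)
  have hv := gTwo_mulVec (ua := S.ua w x A σ₀ i₀ k₀) (k₀ := k₀) h.h3 1
  have n1 : S.vtx i₀ ≠ S.gb σ₀ := S.hg _ _ h.ha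
  have n2 : S.vtx k₀ ≠ S.ga σ₀ := fun e => S.hg _ _ e h.hb
  have n3 : i₀ ≠ k₀ := by rintro rfl; exact n1 h.hb
  have n4 : S.ga σ₀ ≠ S.gb σ₀ := h.ha ▸ n1
  have n5 := n4.symm
  have hm := mat_thetaTwo σ₀ A (S.ua w x A σ₀ i₀ k₀) (S.ub t w x A O Z σ₀ i₀ k₀) i₀ k₀ 1 x
  have hm' := thetaTwo_self σ₀ A (S.ua w x A σ₀ i₀ k₀) (S.ub t w x A O Z σ₀ i₀ k₀) i₀ k₀ 1 x
  set g := gTwo (S.ua w x A σ₀ i₀ k₀) (S.ub t w x A O Z σ₀ i₀ k₀) i₀ k₀ 1
  set g' := gTwo (S.ua w x A σ₀ i₀ k₀) (S.ub t w x A O Z σ₀ i₀ k₀) i₀ k₀ (-1)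
  set x' := thetaTwo σ₀ A (S.ua w x A σ₀ i₀ k₀) (S.ub t w x A O Z σ₀ i₀ k₀) i₀ k₀ 1 x
  set A' := insert k₀ (insert i₀ A) with hA'
  set Z' := insert (Sum.inr σ₀, k₀) (insert (Sum.inr σ₀, i₀) Z) with hZ'
  have hAA : A ⊆ A' := (Finset.subset_insert _ _).trans (Finset.subset_insert _ _)
  have h3 : ∀ k ∈ A, g *ᵥ Pi.single k 1 = Pi.single k 1 := fun k hk => by
    rw [hv, Pi.single_eq_of_ne (by rintro rfl; exact h.hk hk),
      Pi.single_eq_of_ne (by rintro rfl; exact h.hi hk)]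
    simp
  have f1 : g *ᵥ Pi.single i₀ 1 = w • PA A *ᵥ fun i => S.Gs t x A O Z σ₀ i k₀ := by
    funext i
    rw [hv, Pi.single_eq_of_ne n3.symm]
    by_cases a1 : i ∈ A <;> simp [PA_apply, Gs, ua, h.hb, h.hs, n5, a1]
  have f2 : g *ᵥ Pi.single k₀ 1 = w • PA A *ᵥ fun i => S.Gs t x A O Z σ₀ i i₀ := by
    funext i
    rw [hv, Pi.single_eq_of_ne n3]
    by_cases a1 : i ∈ A <;> simp [PA_apply, Gs, ub, h.ha, h.hi, n4, a1]
  have hs : ∀ c, c ≠ (Sum.inr σ₀, k₀) → c ≠ (Sum.inr σ₀, i₀) → scale t O Z' c = scale t O Z c :=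
    fun c a1 a2 => by simp [scale, hZ', a1, a2]
  have z1 : scale t O Z' (Sum.inr σ₀, k₀) = 0 := by simp [scale, hZ']
  have z2 : scale t O Z' (Sum.inr σ₀, i₀) = 0 := by simp [scale, hZ']
  have f3 : ∀ k, k ≠ k₀ → k ≠ i₀ → ∀ i ∉ A,
      (g *ᵥ (PA A *ᵥ fun i => S.Gs t x' A' O Z' σ₀ i k)) i = S.Gs t x A O Z σ₀ i k -
        S.ua w x A σ₀ i₀ k₀ k * S.Gs t x A O Z σ₀ i i₀ := by
    intro k a1 a2 i hi
    have s1 := hs (.inr σ₀, k) (by simp [a1]) (by simp [a2])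
    have hkA : k ∈ A' ↔ k ∈ A := by simp [hA', a1, a2]
    rw [hv]
    simp only [Pi.add_apply, Pi.smul_apply, PA_apply, if_neg hi, if_neg h.hi, if_neg h.hk, Gs,
      of_apply, hm', hkA, s1, h.ha, h.hb, n4, n5, true_and, false_and, and_false, and_true,
      if_false, shear_col h.h4, shear_row h.h1 h.hi, one_mul, smul_eq_mul]
    by_cases b1 : S.vtx k = S.gb σ₀
    · have b2 : S.vtx k ≠ S.ga σ₀ := fun e => S.hg _ _ e b1
      rw [h.ua_zero fun e => b2 e.1]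
      simp only [b2, false_and, if_false, eq_true b1, and_true, if_true]
      by_cases b3 : S.vtx i = S.ga σ₀
      · simp [b3, shear, hi, a1, mat]; ring
      · simp [b3, h.ua_zero fun e => b3 e.1]
    · simp only [b1, and_false, if_false]
      by_cases b2 : S.vtx k = S.ga σ₀
      · simp only [eq_true b2, true_and, if_true]
        by_cases b3 : S.vtx i = S.gb σ₀
        · simp only [eq_true b3, if_true]
          by_cases b4 : k ∈ A
          · rw [h.ua_zero fun e => e.2 b4]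
            simp [b4, s1, shear, mat]; ring
          · simp only [b4, if_false, z1]
            by_cases b5 : i = k₀
            · subst b5
              simp only [z1, h.hs, ua, b2, b4, Pi.single_eq_of_ne a2, not_false_eq_true, and_self,
                if_true]
              linear_combination x (.inl (.inr σ₀), k, i) * h.hw
            · have : i ≠ i₀ := by rintro rfl; exact n1 b3
              rw [hs (.inr σ₀, i) (by simp [b5]) (by simp [this])]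
              simp [shear, b4, b5, mat]; ring
        · simp [b3, h.ub_zero fun e => b3 e.1]
      · simp [b2, h.ua_zero fun e => b2 e.1]
  refine S.cond_transfer hg h0 (fun φ => by rw [hm, if_neg (by simp)]; rfl) fun M => ?_
  have key : (∀ k ∈ A, Pi.single k 1 ∈ M) → (∀ k ∈ A', Pi.single k 1 ∈ M.comap g.mulVecLin) →
      (S.Closed t x A O Z M ↔ S.Closed t x' A' O Z' (M.comap g.mulVecLin)) := by
    intro hA hA''
    have hE : ∀ y : B → R, diagonal (fun _ : B => (0 : R)) *ᵥ y ∈ M := fun y => by simp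
    have u : ∀ y, w • y ∈ M → y ∈ M := fun y hy => by
      have := M.smul_mem (x (.inl (.inr σ₀), i₀, k₀)) hy
      rwa [smul_smul, mul_comm, h.hw, one_smul] at this
    have c1 : (fun i => S.Gs t x A O Z σ₀ i k₀) ∈ M := (PA_mem_iff hA).1 (u _ (by
      rw [← f1]; exact hA'' i₀ (by simp [hA'])))
    have c2 : (fun i => S.Gs t x A O Z σ₀ i i₀) ∈ M := (PA_mem_iff hA).1 (u _ (by
      rw [← f2]; exact hA'' k₀ (by simp [hA'])))
    refine and_congr (iff_of_true hA hA'') (and_congr (forall_congr' fun e => ?_)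
      (forall_congr' fun σ => ?_))
    · refine arrow_iff h0 hE (S.Xt_conj hg hg' hO hZ (ε := fun _ => 0) ?_ fun k => ?_)
        fun y => by simp
      · rw [hm, if_neg (by simp)]; simp [conj]
      · rw [hs _ (by simp) (by simp)]; simp
    by_cases hσ : σ = σ₀
    · subst hσ
      have c3 : ∀ k, (fun i => S.Gs t x A O Z σ i k) ∈ M ↔
          (fun i => S.Gs t x' A' O Z' σ i k) ∈ M.comap g.mulVecLin := by
        intro k
        by_cases a1 : k = k₀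
        · subst a1
          refine iff_of_true c1 ?_
          convert zero_mem (M.comap g.mulVecLin) using 2
          simp [Gs, z1, n2, n4, n5]
        by_cases a2 : k = i₀
        · subst a2
          refine iff_of_true c2 ?_
          convert zero_mem (M.comap g.mulVecLin) using 2
          simp [Gs, z2, n1, hA']
        rw [← PA_mem_iff fun k hk => hA'' k (hAA hk), Submodule.mem_comap, mulVecLin_apply,
          ← M.sub_mem_iff_left (M.smul_mem (S.ua w x A σ i₀ k₀ k) c2)]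
        exact ⟨mem_congr hA fun i hi => (f3 k a1 a2 i hi).symm, mem_congr hA (f3 k a1 a2)⟩
      refine ⟨fun H => mulVec_mem_of_cols fun k => (c3 k).1 ?_,
        fun H => mulVec_mem_of_cols fun k => (c3 k).2 ?_⟩
      all_goals
        have := H (Pi.single k 1)
        rwa [mulVec_single_one] at this
    · refine tensor_iff h0 hA hA'' hE (S.PA_Gs (hU σ hσ) hZ) (S.Gs_conj hg' (hU σ hσ) hAA hZ ?_
        (ε := fun _ => 0) (fun _ _ => rfl) ?_ fun k => ?_) fun y => by simp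
      · simp only [hZ', hA', Finset.mem_insert]
        rintro c (rfl | rfl | hc)
        exacts [Or.inl rfl, Or.inr (Or.inl rfl), Or.inr (Or.inr (hZ c hc))]
      · rw [hm, if_neg (by simp [hσ])]; simp [conj]
      · rw [hs _ (by simp [hσ]) (by simp [hσ])]; simp
  refine ⟨fun H => (key H.1 fun k hk => ?_).1 H, fun H => (key (fun k hk => ?_) H.1).2 H⟩
  · have c : ∀ k, w • PA A *ᵥ (fun i => S.Gs t x A O Z σ₀ i k) ∈ M := fun k => by
      refine M.smul_mem _ ((PA_mem_iff H.1).2 ?_)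
      have := H.2.2 σ₀ (Pi.single k 1)
      rwa [mulVec_single_one] at this
    rw [Submodule.mem_comap, mulVecLin_apply]
    simp only [hA', Finset.mem_insert] at hk
    rcases hk with rfl | rfl | hk
    · rw [f2]; exact c _
    · rw [f1]; exact c _
    · rw [h3 k hk]; exact H.1 k hk
  · have := H.1 k (hAA hk)
    rwa [Submodule.mem_comap, mulVecLin_apply, h3 k hk] at this

end Sys

end Pool.Agent.P.MP_9321be_ag
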