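import Pool.Agent.P.MP_9321be_ag.Rat
import Pool.Agent.P.MP_9321be_ag.Mono

/-!
From contact loci of an ideal to the motivic zeta function of the associated hypersurface.
-/

namespace Pool.Agent.P.MP_9321be_ag

open Set MvPolynomial

theorem trailingDegree_eq_iff (p : Polynomial ℂ) (l : ℕ) :
    p.trailingDegree = l ↔ (∀ k < l, p.coeff k = 0) ∧ p.coeff l ≠ 0 := by
  constructor
  · intro h
    have hp : p ≠ 0 := by rintro rfl; simp at h
    refine ⟨fun k hk => Polynomial.coeff_eq_zero_of_lt_trailingDegree (by rw [h]; exact_mod_cast hk),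
      ?_⟩
    rw [← Polynomial.natTrailingDegree_eq_of_trailingDegree_eq_some h]
    exact Polynomial.coeff_natTrailingDegree_ne_zero.2 hp
  · rintro ⟨h1, h2⟩
    have hp : p ≠ 0 := by rintro rfl; simp at h2
    rw [Polynomial.trailingDegree_eq_iff_natTrailingDegree_eq hp]
    exact le_antisymm (Polynomial.natTrailingDegree_le_of_ne_zero h2)
      (Polynomial.le_natTrailingDegree hp h1)

theorem locClosed_jets {σ : Type} (f : MvPolynomial σ ℂ) (l : ℕ) : LocClosed (jets f l) := by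
  let Γ : Polynomial (MvPolynomial (σ × Fin l) ℂ) :=
    aeval (fun i => ∑ k : Fin l, Polynomial.C (X (i, k)) * Polynomial.X ^ (k.1 + 1)) f
  have key : ∀ (c : σ × Fin l → ℂ) (k : ℕ), eval c (Γ.coeff k) = (aeval (fun i => ∑ k : Fin l,
      Polynomial.C (c (i, k)) * Polynomial.X ^ (k.1 + 1)) f : Polynomial ℂ).coeff k := by
    intro c k
    rw [← Polynomial.coeff_map]
    congr 1
    simp only [Γ]
    induction f using MvPolynomial.induction_on with
    | C a => simp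
    | add p q hp hq => simp only [map_add, Polynomial.map_add, hp, hq]
    | mul_X p i hp => simp [Polynomial.map_mul, hp, Polynomial.map_sum]
  refine ⟨_, _, ⟨Γ.coeff '' Iio l, rfl⟩, zclosed_zero (Γ.coeff l), ?_⟩
  ext c
  simp [jets, trailingDegree_eq_iff, key]

theorem coeff_zeta {σ : Type} [Finite σ] (f : MvPolynomial σ ℂ) {l : ℕ} (hl : l ≠ 0) :
    PowerSeries.coeff l (zeta f) = lefInv ^ Nat.card σ * pr {y : σ → TR l |
      ¬ tt l ^ (l + 1) ∣ aeval (fun i => tt l * y i) f ∧ tt l ^ l ∣ aeval (fun i => tt l * y i) f} := by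
  cases nonempty_fintype σ
  let j : (σ × Fin l → ℂ) →ₗ[ℂ] σ → TR l := LinearMap.pi fun i =>
    ∑ k : Fin l, (LinearMap.proj (i, k) : (σ × Fin l → ℂ) →ₗ[ℂ] ℂ).smulRight (tt l ^ (k.1 + 1))
  have hj : ∀ c i, j c i = ∑ k : Fin l, c (i, k) • tt l ^ (k.1 + 1) := fun c i => by simp [j]
  let m : (σ → TR l) →ₗ[ℂ] σ → TR l := LinearMap.pi fun i =>
    LinearMap.mulLeft ℂ (tt l) ∘ₗ LinearMap.proj i
  have hD : Cons {x : σ → TR l | ¬ tt l ^ (l + 1) ∣ aeval x f ∧ tt l ^ l ∣ aeval x f} :=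
    ((CFM.aeval (fun i => CFM.id.apply i) f).cons_dvd _).not.and
      ((CFM.aeval (fun i => CFM.id.apply i) f).cons_dvd _)
  have h1 : jets f l = j ⁻¹' {x | ¬ tt l ^ (l + 1) ∣ aeval x f ∧ tt l ^ l ∣ aeval x f} := by
    ext c
    have : aeval (j c) f = mkT l (aeval (fun i => ∑ k : Fin l,
        Polynomial.C (c (i, k)) * Polynomial.X ^ (k.1 + 1)) f) := by
      rw [← AlgHom.comp_apply, comp_aeval]
      congr 2
      funext i
      simp only [hj, map_sum, Polynomial.C_mul', map_smul, mk_X_pow]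
    simp only [jets, mem_preimage, mem_ofPred_eq, this, dvd_mk le_rfl, dvd_mk (Nat.le_succ l),
      Polynomial.X_pow_dvd_iff, trailingDegree_eq_iff, Nat.forall_lt_succ_right]
    tauto
  have h2 := pr_range j m (by
    apply le_antisymm
    · rintro _ ⟨c, rfl⟩
      refine ⟨fun i => ∑ k : Fin l, c (i, k) • tt l ^ k.1, funext fun i => ?_⟩
      simp [m, hj, Finset.mul_sum, pow_succ']
    · rintro _ ⟨y, rfl⟩
      choose c hc using fun i => exists_coords (y i)
      refine ⟨fun p => c p.1 p.2, funext fun i => ?_⟩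
      rw [hj, ← hc]
      rfl) hD
  have h3 : Cons (jets f l) := h1 ▸ hD.preimage (CFM.lin j)
  rw [← h1, pr, nu_pi h3, mu_of_locClosed h3.con (locClosed_jets f l)] at h2
  rw [zeta, series, PowerSeries.coeff_mk, if_neg hl, mul_assoc]
  congr 1
  refine Eq.trans ?_ h2
  simp [← pow_mul]

variable {τ J : Type} [Finite τ] [Fintype J] (g : J → MvPolynomial τ ℂ) {n : ℕ}

theorem pr_rec {m : ℕ} (hm : m ≤ n) :
    pr {z : τ ⊕ J → TR n | tt n ^ (m + 1) ∣
      ∑ j, z (.inr j) * aeval (fun i => tt n * z (.inl i)) (g j)} =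
    lefInv * pr {z : τ ⊕ J → TR n | tt n ^ m ∣
      ∑ j, z (.inr j) * aeval (fun i => tt n * z (.inl i)) (g j)} + (1 - lefInv) *
      pr {y : τ → TR n | ∀ j, tt n ^ (m + 1) ∣ aeval (fun i => tt n * y i) (g j)} := by
  classical
  have c0 : ∀ j, CFM fun y : τ → TR n => aeval (fun i => tt n * y i) (g j) := fun j =>
    CFM.aeval (fun i => (CFM.const _).mul (CFM.id.apply i)) _
  let π : (τ ⊕ J → TR n) →ₗ[ℂ] τ → TR n := LinearMap.funLeft ℂ _ Sum.inl
  have c1 : ∀ j, CFM fun z : τ ⊕ J → TR n => aeval (fun i => tt n * z (.inl i)) (g j) := fun j =>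
    (c0 j).comp (CFM.lin π)
  have c2 : CFM fun z : τ ⊕ J → TR n =>
      ∑ j, z (.inr j) * aeval (fun i => tt n * z (.inl i)) (g j) :=
    CFM.sum _ fun j _ => (CFM.id.apply (Sum.inr j)).mul (c1 j)
  have c3 : Cons {z : τ ⊕ J → TR n | ∀ j, tt n ^ (m + 1) ∣
      aeval (fun i => tt n * z (.inl i)) (g j)} := cons_forall fun j => (c1 j).cons_dvd _
  have e0 : pr {z : τ ⊕ J → TR n | ∀ j, tt n ^ (m + 1) ∣ aeval (fun i => tt n * z (.inl i)) (g j)} =
      pr {y : τ → TR n | ∀ j, tt n ^ (m + 1) ∣ aeval (fun i => tt n * y i) (g j)} :=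
    pr_surj π (LinearMap.funLeft_surjective_of_injective _ _ _ Sum.inl_injective)
      (cons_forall fun j => (c0 j).cons_dvd _)
  have e1 : ∀ k ≤ m + 1, pr {z : τ ⊕ J → TR n | (∀ j, tt n ^ (m + 1) ∣
      aeval (fun i => tt n * z (.inl i)) (g j)) ∧ tt n ^ k ∣
      ∑ j, z (.inr j) * aeval (fun i => tt n * z (.inl i)) (g j)} = _ := fun k hk =>
    (pr_congr fun z => and_iff_left_of_imp fun h => (pow_dvd_pow _ hk).trans
      (Finset.dvd_sum fun j _ => (h j).mul_left _)).trans e0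
  obtain ⟨l, l1, l2⟩ := exists_coef hm
  choose δ hδ using fun k : ℕ => exists_div (tt n ^ k)
  obtain ⟨v, hv, H⟩ := exists_choice (Finset.univ ×ˢ Finset.range (m + 1))
    (G := fun (p : J × ℕ) (y : τ → TR n) => tt n ^ p.2 ∣ aeval (fun i => tt n * y i) (g p.1) ∧
      ¬ tt n ^ (p.2 + 1) ∣ aeval (fun i => tt n * y i) (g p.1))
    (fun p => ((c0 _).cons_dvd _).and ((c0 _).cons_dvd _).not)
    (r := fun p y => (Pi.single p.1 (tt n ^ (m - p.2) *
      rinv (δ p.2 (aeval (fun i => tt n * y i) (g p.1)))) : J → TR n))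
    fun p => ((CFM.const _).mul ((c0 _).app (δ _)).rinv).app
      (LinearMap.single ℂ (fun _ : J => TR n) p.1)
  have H' : ∀ y : τ → TR n, ¬ (∀ j, tt n ^ (m + 1) ∣ aeval (fun i => tt n * y i) (g j)) →
      ∑ j, v y j * aeval (fun i => tt n * y i) (g j) = tt n ^ m := by
    intro y hy
    obtain ⟨j, hj⟩ := not_forall.1 hy
    obtain ⟨⟨j, k⟩, a1, ⟨a2, a3⟩, a4⟩ := H y (by
      have hex : ∃ k, ¬ tt n ^ (k + 1) ∣ aeval (fun i => tt n * y i) (g j) := ⟨m, hj⟩
      refine ⟨(j, Nat.find hex), by simpa [Nat.lt_succ_iff] using ⟨m, le_rfl, hj⟩, ?_,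
        Nat.find_spec hex⟩
      rcases h : Nat.find hex with _ | k
      · simp
      · exact not_not.1 (Nat.find_min hex (by omega)))
    have a5 : k ≤ m := by simpa [Nat.lt_succ_iff] using a1
    rw [a4, Finset.sum_eq_single j (fun b _ hb => by simp [hb]) (by simp), Pi.single_eq_same]
    have a6 := hδ k _ a2
    simp only at a3 a6 ⊢
    generalize δ k (aeval (fun i => tt n * y i) (g j)) = s at a6
    rw [← a6] at a3 ⊢
    have a7 : rinv s * s = 1 := rinv_mul fun h => a3 (by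
      rw [pow_succ]; exact mul_dvd_mul_left _ h)
    rw [← Nat.sub_add_cancel a5, pow_add, Nat.add_sub_cancel]
    linear_combination tt n ^ (m - k) * tt n ^ k * a7
  have e2 := pr_flow (c3.not.and (c2.cons_dvd (tt n ^ m))) (c2 l)
    (v := fun z => Sum.elim (fun _ => 0) (v fun i => z (.inl i))) (CFM.pi (by
      rintro (i | j)
      exacts [CFM.const _, (hv.comp (CFM.lin π)).apply j])) (fun z a hz => ?_) (fun z a _ => by simp)
    fun z a hz => ?_
  · have e3 := pr_split (c2.cons_dvd (tt n ^ (m + 1))) c3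
    have e4 := pr_split (c2.cons_dvd (tt n ^ m)) c3
    rw [e1 _ le_rfl] at e3
    rw [e1 _ (Nat.le_succ m)] at e4
    have e5 := (pr_congr fun z => ⟨fun h => ⟨(l2 _ ((pow_dvd_pow _ (Nat.le_succ m)).trans h.2)).2
      h.2, h.1, (pow_dvd_pow _ (Nat.le_succ m)).trans h.2⟩,
      fun h => And.intro h.2.1 ((l2 _ h.2.2).1 h.1)⟩).trans e2
    rw [e3, e4, e5]
    ring
  all_goals
    have := H' _ hz.1
    simp only [Pi.add_apply, Pi.smul_apply, Sum.elim_inl, Sum.elim_inr, smul_zero, add_zero,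
      add_mul, Finset.sum_add_distrib, smul_mul_assoc, ← Finset.smul_sum, this]
  · exact ⟨hz.1, hz.2.add (by rw [Algebra.smul_def]; exact dvd_mul_left _ _)⟩
  · simp [l1]

theorem exists_finset {G : PowerSeries MM} (h : G ∈ Adm 1) :
    ∃ S : Finset (ℕ × ℕ), (∀ q ∈ S, q.1 = 1 ∧ 0 < q.2) ∧ G ∈ Algebra.adjoin MM ({PowerSeries.X} ∪
      {g : PowerSeries MM | ∃ q ∈ S,
        (1 - PowerSeries.C (lefInv ^ q.2) * PowerSeries.X ^ q.1) * g = 1}) := by
  have key : ∀ {G G' : PowerSeries MM} (op : PowerSeries MM → PowerSeries MM → PowerSeries MM),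
      (∀ (A : Subalgebra MM (PowerSeries MM)) a b, a ∈ A → b ∈ A → op a b ∈ A) →
      (∃ S : Finset (ℕ × ℕ), (∀ q ∈ S, q.1 = 1 ∧ 0 < q.2) ∧ G ∈ Algebra.adjoin MM
        ({PowerSeries.X} ∪ {g : PowerSeries MM | ∃ q ∈ S,
        (1 - PowerSeries.C (lefInv ^ q.2) * PowerSeries.X ^ q.1) * g = 1})) →
      (∃ S : Finset (ℕ × ℕ), (∀ q ∈ S, q.1 = 1 ∧ 0 < q.2) ∧ G' ∈ Algebra.adjoin MM
        ({PowerSeries.X} ∪ {g : PowerSeries MM | ∃ q ∈ S,
        (1 - PowerSeries.C (lefInv ^ q.2) * PowerSeries.X ^ q.1) * g = 1})) →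
      ∃ S : Finset (ℕ × ℕ), (∀ q ∈ S, q.1 = 1 ∧ 0 < q.2) ∧ op G G' ∈ Algebra.adjoin MM
        ({PowerSeries.X} ∪ {g : PowerSeries MM | ∃ q ∈ S,
        (1 - PowerSeries.C (lefInv ^ q.2) * PowerSeries.X ^ q.1) * g = 1}) := by
    rintro G G' op hop ⟨S, h1, h2⟩ ⟨S', h1', h2'⟩
    refine ⟨S ∪ S', fun q hq => (Finset.mem_union.1 hq).elim (h1 q) (h1' q), hop _ _ _
      (Algebra.adjoin_mono (union_subset_union_right _ ?_) h2)
      (Algebra.adjoin_mono (union_subset_union_right _ ?_) h2')⟩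
    · exact fun g ⟨q, a, b⟩ => ⟨q, Finset.mem_union_left _ a, b⟩
    · exact fun g ⟨q, a, b⟩ => ⟨q, Finset.mem_union_right _ a, b⟩
  induction h using Algebra.adjoin_induction with
  | mem g hg =>
    rcases hg with rfl | ⟨σ, h1, h2⟩
    · exact ⟨∅, by simp, Algebra.subset_adjoin (Or.inl rfl)⟩
    · exact ⟨{(1, σ)}, by simpa using Nat.lt_of_succ_le h1, Algebra.subset_adjoin (Or.inr ⟨(1, σ), by simp,
        by simpa using h2⟩)⟩
  | algebraMap c => exact ⟨∅, by simp, Subalgebra.algebraMap_mem _ c⟩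
  | add _ _ _ _ h1 h2 => exact key (· + ·) (fun _ _ _ => add_mem) h1 h2
  | mul _ _ _ _ h1 h2 => exact key (· * ·) (fun _ _ _ => mul_mem) h1 h2

theorem zeta_mem (h : Rat 1 fun n L =>
    pr {y : τ → TR n | ∀ j, tt n ^ L ∣ aeval (fun i => tt n * y i) (g j)}) :
    zeta (∑ j, X (Sum.inr j) * rename Sum.inl (g j)) ∈ Adm 1 := by
  obtain ⟨G, h1, h2⟩ := Rat.recur (σ := 1) le_rfl (h.smul (1 - lefInv)) (c := lefInv)
    (F' := fun n m => pr {z : τ ⊕ J → TR n | tt n ^ m ∣
      ∑ j, z (.inr j) * aeval (fun i => tt n * z (.inl i)) (g j)})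
    (fun n => by simp [pr_univ]) fun n m hm => by simpa using pr_rec g hm
  have : zeta (∑ j, X (Sum.inr j) * rename Sum.inl (g j)) = PowerSeries.C
      (lefInv ^ Nat.card (τ ⊕ J)) * (1 + PowerSeries.X * G - G) := by
    ext l
    rw [PowerSeries.coeff_C_mul]
    rcases l with _ | l
    · have := h2 0 0 (by omega)
      simp only [pow_zero, one_dvd, ofPred_true, pr_univ] at this
      rw [zeta, series, PowerSeries.coeff_mk, if_pos rfl, map_sub, map_add, ← this]
      simp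
    · rw [coeff_zeta _ l.succ_ne_zero, map_sub, map_add, PowerSeries.coeff_succ_X_mul,
        ← h2 (l + 1) l (by omega), ← h2 (l + 1) (l + 1) (by omega)]
      congr 1
      have e : ∀ y : τ ⊕ J → TR (l + 1), aeval (fun i => tt (l + 1) * y i)
          (∑ j, X (Sum.inr j) * rename Sum.inl (g j)) = tt (l + 1) *
          ∑ j, y (.inr j) * aeval (fun i => tt (l + 1) * y (.inl i)) (g j) := fun y => by
        simp only [map_sum, map_mul, aeval_X, aeval_rename, Finset.mul_sum, mul_assoc]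
        rfl
      have c2 : CFM fun z : τ ⊕ J → TR (l + 1) =>
          ∑ j, z (.inr j) * aeval (fun i => tt (l + 1) * z (.inl i)) (g j) :=
        CFM.sum _ fun j _ => (CFM.id.apply (Sum.inr j)).mul
          (CFM.aeval (fun i => (CFM.const _).mul (CFM.id.apply (Sum.inl i))) _)
      simp only [e, cancel_one (le_refl (l + 1)), cancel_one (Nat.le_succ l)]
      rw [pr_split (c2.cons_dvd (tt _ ^ l)) (c2.cons_dvd (tt _ ^ (l + 1))),
        pr_congr fun z => and_iff_left_of_imp (pow_dvd_pow _ (Nat.le_succ l)).trans]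
      simp [PowerSeries.coeff_one]
  rw [this]
  exact mul_mem (C_mem_Adm _ _) (sub_mem (add_mem (one_mem _) (mul_mem (X_mem_Adm _) h1)) h1)

theorem conjecture_of_rat (h : Rat 1 fun n L =>
    pr {y : τ → TR n | ∀ j, tt n ^ L ∣ aeval (fun i => tt n * y i) (g j)})
    (hf : ∑ j, X (Sum.inr j) * rename Sum.inl (g j) ≠ 0) :
    MonodromyConjecture (∑ j, X (Sum.inr j) * rename Sum.inl (g j)) := by
  intro U hU
  obtain ⟨S, h1, h2⟩ := exists_finset (zeta_mem g h)
  have h0 : eval 0 (∑ j, X (Sum.inr j) * rename Sum.inl (g j)) = 0 := by simp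
  refine ⟨S, fun q hq => ⟨(h1 q hq).1 ▸ one_pos, (h1 q hq).2⟩, h2, fun q hq =>
    ⟨0, mem_of_mem_nhds hU, h0, ?_⟩⟩
  convert isMonodromyEigenvalue_one hf h0
  rw [(h1 q hq).1, Nat.cast_one, div_one, Complex.exp_neg, mul_comm,
    Complex.exp_nat_mul_two_pi_mul_I, inv_one]

end Pool.Agent.P.MP_9321be_ag
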